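import Pool.Agent.W539.DI.Defs

/-!
# Rational Hodge structures on the cohomology of smooth projective varieties: definitions
-/

open Module

namespace Pool.Agent.Q94.QH

open Pool.Agent.W539.DI

variable {n : ℕ}

/-- The complex cohomology in the degrees in the set `K`: the sum of the `H^{p,q}` with
`p + q ∈ K`. -/
noncomputable def degC (X : KRing n) (K : Set ℤ) : Submodule ℂ X.R :=
  ⨆ pq : {pq : ℤ × ℤ // pq.1 + pq.2 ∈ K}, X.H pq

/-- The rational and the complex cohomology of a smooth projective complex variety of dimension
`n`: `X` is the complex cohomology ring with its Hodge decomposition, an ample class `ω` and the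
first Chern class `c` (`Pool.Agent.W539.DI.KRing`), and `A` is the rational cohomology ring, which
is mapped to the complex one by `ι`. -/
structure RatCoh (n : ℕ) where
  /-- the complex cohomology -/
  X : KRing n
  /-- the rational cohomology -/
  A : Type
  [ring : Ring A]
  [alg : Algebra ℚ A]
  /-- the change of coefficients -/
  ι : A →+* X.R
  /-- a basis of the rational cohomology is a basis of the complex cohomology -/
  basis : ∃ (N : ℕ) (b : Basis (Fin N) ℚ A) (b' : Basis (Fin N) ℂ X.R), ∀ i, ι (b i) = b' i
  /-- rational classes are real -/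
  real : ∀ a, X.bar (ι a) = ι a
  /-- rational classes are sums of rational classes of pure degrees -/
  deg : ∀ a : A, ∃ a' : ℤ → A, (∀ k, ι (a' k) ∈ degC X {k}) ∧
    a = ∑ k ∈ Finset.Icc 0 (2 * (n : ℤ)), a' k
  /-- integrals of rational classes are rational -/
  tr_rat : ∀ a, ∃ r : ℚ, X.tr (ι a) = r
  /-- the ample class is rational -/
  ample : ∃ a, ι a = X.ω
  /-- the first Chern class is rational -/
  chern : ∃ a, ι a = X.c

attribute [instance] RatCoh.ring RatCoh.alg

/-- The transform of an equivalence of derived categories, on rational and on complex cohomology: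
it preserves `p - q` and the Mukai pairing (`Pool.Agent.W539.DI.FM`). -/
structure RatFM (Y Z : RatCoh n) where
  /-- on the complex cohomology -/
  Φ : FM Y.X Z.X
  /-- on the rational cohomology -/
  φ : Y.A ≃ₗ[ℚ] Z.A
  comm : ∀ a, Φ.φ (Y.ι a) = Z.ι (φ a)

/-- The rational cohomology in the degrees in the set `K`. -/
noncomputable def RatCoh.part (Z : RatCoh n) (K : Set ℤ) : Submodule ℚ Z.A where
  carrier := {a | Z.ι a ∈ degC Z.X K}
  zero_mem' := by
    change Z.ι 0 ∈ degC Z.X K
    rw [map_zero]
    exact Submodule.zero_mem _
  add_mem' := by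
    intro a b ha hb
    change Z.ι (a + b) ∈ degC Z.X K
    rw [map_add]
    exact Submodule.add_mem _ ha hb
  smul_mem' := by
    intro r a ha
    change Z.ι (r • a) ∈ degC Z.X K
    have h := map_ratCast_smul Z.ι ℚ ℂ r a
    rw [Rat.cast_id] at h
    rw [h]
    exact Submodule.smul_mem _ _ ha

/-- The rational isomorphisms of the cohomologies in the degrees in the set `K`. -/
abbrev PartIso (Y Z : RatCoh n) (K : Set ℤ) : Type := Y.part K ≃ₗ[ℚ] Z.part K

/-- The map `g` on complex cohomology extends the isomorphism `f` of the rational cohomologies in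
the degrees in the set `K`. -/
def Extends {Y Z : RatCoh n} {K : Set ℤ} (f : PartIso Y Z K) (g : Y.X.R →ₗ[ℂ] Z.X.R) : Prop :=
  ∀ a : Y.part K, g (Y.ι a) = Z.ι (f a)

/-- The sum of the `H^{p+j,q+j}`. -/
noncomputable def colC (X : KRing n) (p q : ℤ) : Submodule ℂ X.R := ⨆ j : ℤ, X.H (p + j, q + j)

/-- The map `g` preserves `p - q` on the classes whose degree is in `K`. -/
def Preserves {X X' : KRing n} (g : X.R →ₗ[ℂ] X'.R) (K : Set ℤ) : Prop :=
  ∀ p q : ℤ, p + q ∈ K → ∀ x ∈ X.H (p, q), g x ∈ colC X' p q

/-- The rational Hodge structures `⊕_{k ∈ K} H^k` of `Y` and of `Z` are isomorphic, up to Tate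
twists (that is, up to shifts of the types `(p, q)` by `(j, j)`): there is an isomorphism `f` of the
rational vector spaces whose extension `g` to the complex cohomology preserves `p - q`. If `K`
consists of one degree `k`, this says that the rational Hodge structures `H^k` are isomorphic. -/
def HodgeIso (Y Z : RatCoh n) (K : Set ℤ) : Prop :=
  ∃ (f : PartIso Y Z K) (g : Y.X.R →ₗ[ℂ] Z.X.R), Extends f g ∧ Preserves g K

end Pool.Agent.Q94.QH
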