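import Mathlib

/-!
# Semisimple modules of finite dimension are determined by the dimensions of the spaces of maps
-/

open Module

namespace Pool.Agent.Q94.QH

variable {A : Type} [Ring A] [Algebra ℚ A]

section hd

variable (S M : Type) [AddCommGroup S] [Module A S] [AddCommGroup M] [Module A M]
  [Module ℚ M] [IsScalarTower ℚ A M]

instance scc : SMulCommClass A ℚ M := ⟨fun a r m => by
  rw [← algebraMap_smul A r m, ← algebraMap_smul A r (a • m), smul_smul, smul_smul,
    Algebra.commutes]⟩

/-- The dimension of the space of homomorphisms. -/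
noncomputable def hd : ℕ := finrank ℚ (S →ₗ[A] M)

end hd

section

variable {S M N : Type} [AddCommGroup S] [Module A S] [Module ℚ S] [IsScalarTower ℚ A S]
  [AddCommGroup M] [Module A M] [Module ℚ M] [IsScalarTower ℚ A M]
  [AddCommGroup N] [Module A N] [Module ℚ N] [IsScalarTower ℚ A N]

theorem hom_finite [FiniteDimensional ℚ S] [FiniteDimensional ℚ M] :
    FiniteDimensional ℚ (S →ₗ[A] M) := by
  let f : (S →ₗ[A] M) →ₗ[ℚ] (S →ₗ[ℚ] M) :=
    { toFun := fun g => g.restrictScalars ℚ
      map_add' := fun g h => rfl
      map_smul' := fun r g => rfl }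
  refine FiniteDimensional.of_injective f fun g h hgh => ?_
  ext x
  exact congrArg (fun k : S →ₗ[ℚ] M => k x) hgh

theorem hd_congr (e : M ≃ₗ[A] N) : hd (A := A) S M = hd (A := A) S N := by
  refine LinearEquiv.finrank_eq
    { toFun := fun g => (e : M →ₗ[A] N) ∘ₗ g
      map_add' := fun g h => by ext x; simp
      map_smul' := fun r g => by
        ext x
        have : (e : M →ₗ[A] N).restrictScalars ℚ (r • g x) = r • e (g x) := by
          rw [map_smul]; rfl
        exact this
      invFun := fun g => (e.symm : N →ₗ[A] M) ∘ₗ g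
      left_inv := fun g => by ext x; simp
      right_inv := fun g => by ext x; simp }

theorem hd_prod [FiniteDimensional ℚ S] [FiniteDimensional ℚ M] [FiniteDimensional ℚ N] :
    hd (A := A) S (M × N) = hd (A := A) S M + hd (A := A) S N := by
  have := hom_finite (A := A) (S := S) (M := M)
  have := hom_finite (A := A) (S := S) (M := N)
  have e : (S →ₗ[A] M × N) ≃ₗ[ℚ] (S →ₗ[A] M) × (S →ₗ[A] N) :=
    { toFun := fun g => (LinearMap.fst A M N ∘ₗ g, LinearMap.snd A M N ∘ₗ g)
      map_add' := fun g h => by ext x <;> simp
      map_smul' := fun r g => by ext x <;> simp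
      invFun := fun g => LinearMap.prod g.1 g.2
      left_inv := fun g => by ext x <;> simp
      right_inv := fun g => by ext x <;> simp }
  unfold hd
  rw [e.finrank_eq, finrank_prod]

/-- The pieces of a complementary pair. -/
theorem hd_compl [FiniteDimensional ℚ S] [FiniteDimensional ℚ M] (P Q : Submodule A M)
    (h : IsCompl P Q) : hd (A := A) S M = hd (A := A) S P + hd (A := A) S Q := by
  have : FiniteDimensional ℚ P := FiniteDimensional.of_injective
    (P.subtype.restrictScalars ℚ) P.injective_subtype
  have : FiniteDimensional ℚ Q := FiniteDimensional.of_injective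
    (Q.subtype.restrictScalars ℚ) Q.injective_subtype
  rw [← hd_prod, hd_congr (Submodule.prodEquivOfIsCompl P Q h)]

/-- Finite dimensional semisimple modules with the same dimensions of the spaces of maps into them
are isomorphic. -/
theorem equiv_of_hd : ∀ (d : ℕ) (M N : Type) [AddCommGroup M] [Module A M] [Module ℚ M]
    [IsScalarTower ℚ A M] [AddCommGroup N] [Module A N] [Module ℚ N] [IsScalarTower ℚ A N]
    [FiniteDimensional ℚ M] [FiniteDimensional ℚ N] [IsSemisimpleModule A M]
    [IsSemisimpleModule A N], finrank ℚ M ≤ d →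
    (∀ (S : Type) [AddCommGroup S] [Module A S] [Module ℚ S] [IsScalarTower ℚ A S]
      [FiniteDimensional ℚ S], hd (A := A) S M = hd (A := A) S N) → Nonempty (M ≃ₗ[A] N) := by
  intro d
  induction d with
  | zero =>
    intro M N _ _ _ _ _ _ _ _ _ _ _ _ hM h
    have h1 := h N
    have hM0 : Subsingleton M := finrank_zero_iff.1 (Nat.le_zero.1 hM)
    have h2 : hd (A := A) N M = 0 := by
      have : Subsingleton (N →ₗ[A] M) := ⟨fun f g => by ext x; exact Subsingleton.elim _ _⟩
      exact finrank_zero_of_subsingleton
    have h3 : Subsingleton (N →ₗ[A] N) := by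
      have := hom_finite (A := A) (S := N) (M := N)
      exact finrank_zero_iff.1 (h1.symm.trans h2)
    have h4 : Subsingleton N := ⟨fun x y => by
      have e : (LinearMap.id : N →ₗ[A] N) = 0 := Subsingleton.elim _ _
      have ex : x = 0 := congrArg (fun f : N →ₗ[A] N => f x) e
      have ey : y = 0 := congrArg (fun f : N →ₗ[A] N => f y) e
      rw [ex, ey]⟩
    exact ⟨LinearEquiv.ofSubsingleton M N⟩
  | succ d ih =>
    intro M N _ _ _ _ _ _ _ _ _ _ _ _ hM h
    by_cases hle : finrank ℚ M ≤ d
    · exact ih M N hle h
    have hM1 : finrank ℚ M = d + 1 := by omega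
    have := hom_finite (A := A) (S := M) (M := M)
    have := hom_finite (A := A) (S := M) (M := N)
    have hMne : Nontrivial M := Module.nontrivial_of_finrank_pos (R := ℚ) (by omega)
    have h1 : hd (A := A) M N ≠ 0 := by
      rw [← h M]
      intro h0
      have h3 : Subsingleton (M →ₗ[A] M) := finrank_zero_iff.1 h0
      have e : (LinearMap.id : M →ₗ[A] M) = 0 := Subsingleton.elim _ _
      obtain ⟨x, hx⟩ := exists_ne (0 : M)
      exact hx (congrArg (fun f : M →ₗ[A] M => f x) e)
    have h2 : Nontrivial (M →ₗ[A] N) := by
      by_contra h0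
      rw [not_nontrivial_iff_subsingleton] at h0
      exact h1 finrank_zero_of_subsingleton
    obtain ⟨f, hf⟩ := exists_ne (0 : M →ₗ[A] N)
    obtain ⟨P, hP⟩ := exists_isCompl (LinearMap.ker f)
    obtain ⟨Q, hQ⟩ := exists_isCompl (LinearMap.range f)
    have e1 : P ≃ₗ[A] LinearMap.range f := by
      refine ((LinearMap.ker f).quotientEquivOfIsCompl P hP).symm.trans f.quotKerEquivRange
    have fin : ∀ (W : Submodule A M), FiniteDimensional ℚ W := fun W =>
      FiniteDimensional.of_injective (W.subtype.restrictScalars ℚ) W.injective_subtype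
    have fin' : ∀ (W : Submodule A N), FiniteDimensional ℚ W := fun W =>
      FiniteDimensional.of_injective (W.subtype.restrictScalars ℚ) W.injective_subtype
    have i1 := fin (LinearMap.ker f)
    have i2 := fin P
    have i3 := fin' (LinearMap.range f)
    have i4 := fin' Q
    have eM := Submodule.prodEquivOfIsCompl _ _ hP
    have eN := Submodule.prodEquivOfIsCompl _ _ hQ
    have hdim : finrank ℚ (LinearMap.ker f) ≤ d := by
      have h5 : finrank ℚ (LinearMap.ker f) + finrank ℚ P = finrank ℚ M := by
        rw [← finrank_prod]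
        exact (eM.restrictScalars ℚ).finrank_eq
      have h6 : finrank ℚ P ≠ 0 := by
        intro h0
        have : Subsingleton P := finrank_zero_iff.1 h0
        have : Subsingleton (LinearMap.range f) := e1.symm.toEquiv.subsingleton
        apply hf
        ext x
        have : (⟨f x, LinearMap.mem_range_self f x⟩ : LinearMap.range f) = 0 :=
          Subsingleton.elim _ _
        exact congrArg Subtype.val this
      omega
    obtain ⟨e2⟩ := ih (LinearMap.ker f) Q hdim (fun S _ _ _ _ _ => by
      have a1 := hd_compl (S := S) _ _ hP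
      have a2 := hd_compl (S := S) _ _ hQ
      have a3 := hd_congr (S := S) e1
      have a4 := h S
      omega)
    exact ⟨(eM.symm.trans (LinearEquiv.prodCongr e2 e1)).trans
      ((LinearEquiv.prodComm A _ _).trans eN)⟩

end

end Pool.Agent.Q94.QH
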