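import Pool.Agent.W539.DI.Cor
import Pool.Agent.Q94.QH.Defs
import Pool.Agent.Q94.QH.Mod

/-!
# Rational Hodge structures as modules over a free algebra
-/

open Module

namespace Pool.Agent.Q94.QH

open Pool.Agent.W539.DI

variable {n : ℕ}

section diag

variable (X : KRing n)

/-- The operator which multiplies `H^{p,q}` by `f (p, q)`. -/
noncomputable def diag (f : ℤ × ℤ → ℂ) : X.R →ₗ[ℂ] X.R :=
  DirectSum.toModule ℂ (ℤ × ℤ) X.R (fun pq => f pq • (X.H pq).subtype) ∘ₗ
    (DirectSum.decomposeLinearEquiv X.H).toLinearMap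

theorem diag_of (f : ℤ × ℤ → ℂ) {pq : ℤ × ℤ} {x : X.R} (hx : x ∈ X.H pq) :
    diag X f x = f pq • x := by
  unfold diag
  have e : DirectSum.decompose X.H x = DirectSum.of (fun i => X.H i) pq ⟨x, hx⟩ :=
    DirectSum.decompose_of_mem X.H hx
  simp only [LinearMap.comp_apply, LinearEquiv.coe_coe, DirectSum.decomposeLinearEquiv_apply, e]
  have := DirectSum.toModule_lof ℂ (ι := ℤ × ℤ) (M := fun i => X.H i)
    (φ := fun pq : ℤ × ℤ => f pq • (X.H pq).subtype) pq (⟨x, hx⟩ : X.H pq)
  rw [DirectSum.lof_eq_of] at this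
  rw [this]
  simp

theorem diag_comp (f g : ℤ × ℤ → ℂ) (x : X.R) :
    diag X f (diag X g x) = diag X (fun pq => f pq * g pq) x := by
  refine X.ind (P := fun x => diag X f (diag X g x) = diag X (fun pq => f pq * g pq) x) ?_ ?_ ?_ x
  · simp
  · intro x y hx hy
    simp only [map_add, hx, hy]
  · intro p q x hx
    rw [diag_of X g hx, map_smul, diag_of X f hx, diag_of X _ hx, smul_smul, mul_comm]

theorem diag_add (f g : ℤ × ℤ → ℂ) (x : X.R) :
    diag X f x + diag X g x = diag X (fun pq => f pq + g pq) x := by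
  refine X.ind (P := fun x => diag X f x + diag X g x = diag X (fun pq => f pq + g pq) x)
    ?_ ?_ ?_ x
  · simp
  · intro x y hx hy
    simp only [map_add]
    rw [← hx, ← hy]
    abel
  · intro p q x hx
    rw [diag_of X g hx, diag_of X f hx, diag_of X _ hx, add_smul]

theorem diag_one (x : X.R) : diag X (fun _ => 1) x = x := by
  refine X.ind (P := fun x => diag X (fun _ => 1) x = x) ?_ ?_ ?_ x
  · simp
  · intro x y hx hy
    rw [map_add, hx, hy]
  · intro p q x hx
    rw [diag_of X _ hx, one_smul]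

/-- The operator which multiplies `H^{p,q}` by `f (p - q)`. -/
noncomputable def wt (f : ℤ → ℂ) : X.R →ₗ[ℂ] X.R := diag X (fun pq => f (pq.1 - pq.2))

end diag

variable (Z : RatCoh n)

theorem ι_smul (r : ℚ) (a : Z.A) : Z.ι (r • a) = (r : ℂ) • Z.ι a := by
  have h := map_ratCast_smul Z.ι ℚ ℂ r a
  rwa [Rat.cast_id] at h

/-- The dimension. -/
noncomputable def nn : ℕ := Z.basis.choose
/-- The rational basis. -/
noncomputable def bb : Basis (Fin (nn Z)) ℚ Z.A := Z.basis.choose_spec.choose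
/-- The complex basis. -/
noncomputable def bb' : Basis (Fin (nn Z)) ℂ Z.X.R := Z.basis.choose_spec.choose_spec.choose
theorem bb_eq (i : Fin (nn Z)) : Z.ι (bb Z i) = bb' Z i :=
  Z.basis.choose_spec.choose_spec.choose_spec i

noncomputable instance : FiniteDimensional ℚ Z.A := Module.Finite.of_basis (bb Z)

theorem ι_expand (a : Z.A) : Z.ι a = ∑ i, ((bb Z).repr a i : ℂ) • bb' Z i := by
  conv_lhs => rw [← (bb Z).sum_repr a]
  rw [map_sum]
  refine Finset.sum_congr rfl fun i _ => ?_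
  rw [ι_smul, bb_eq]

theorem repr_ι (a : Z.A) (i : Fin (nn Z)) : (bb' Z).repr (Z.ι a) i = ((bb Z).repr a i : ℂ) := by
  rw [ι_expand, map_sum, Finsupp.finsetSum_apply, Finset.sum_eq_single i]
  · simp
  · intro j _ hj
    simp [hj]
  · intro h
    exact absurd (Finset.mem_univ _) h

theorem ι_inj {a b : Z.A} (h : Z.ι a = Z.ι b) : a = b := by
  apply (bb Z).repr.injective
  ext i
  have h1 := repr_ι Z a i
  have h2 := repr_ι Z b i
  rw [h, h2] at h1
  exact_mod_cast h1.symm

/-- The rational part with respect to a linear function `l : ℂ → ℚ`. -/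
noncomputable def T (l : ℂ →ₗ[ℚ] ℚ) : Z.X.R →+ Z.A where
  toFun x := ∑ i, l ((bb' Z).repr x i) • bb Z i
  map_zero' := by simp
  map_add' x y := by
    rw [← Finset.sum_add_distrib]
    refine Finset.sum_congr rfl fun i _ => ?_
    rw [map_add, Finsupp.add_apply, map_add, add_smul]

theorem T_apply (l : ℂ →ₗ[ℚ] ℚ) (x : Z.X.R) :
    T Z l x = ∑ i, l ((bb' Z).repr x i) • bb Z i := rfl

theorem T_smul (l : ℂ →ₗ[ℚ] ℚ) (z : ℂ) (a : Z.A) : T Z l (z • Z.ι a) = l z • a := by
  rw [T_apply]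
  conv_rhs => rw [← (bb Z).sum_repr a, Finset.smul_sum]
  refine Finset.sum_congr rfl fun i _ => ?_
  rw [map_smul, Finsupp.smul_apply, repr_ι, smul_eq_mul, mul_comm, smul_smul]
  have : l (((bb Z).repr a i : ℂ) * z) = (bb Z).repr a i * l z := by
    have e : (((bb Z).repr a i : ℂ) * z) = ((bb Z).repr a i) • z := by
      rw [Rat.smul_def]
    rw [e, map_smul, smul_eq_mul]
  rw [this, mul_comm]

theorem T_basis (l : ℂ →ₗ[ℚ] ℚ) (z : ℂ) (i : Fin (nn Z)) :
    T Z l (z • bb' Z i) = l z • bb Z i := by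
  rw [← bb_eq, T_smul]

/-- An element all of whose rational parts lie in `U` is a complex linear combination of elements
of `U`. -/
theorem mem_span_of_T {U : Set Z.A} {x : Z.X.R} (h : ∀ l, T Z l x ∈ U) :
    x ∈ Submodule.span ℂ (Z.ι '' U) := by
  classical
  let B := Basis.ofVectorSpace ℚ ℂ
  let z : Fin (nn Z) → ℂ := fun i => (bb' Z).repr x i
  let S : Finset _ := Finset.univ.biUnion fun i => (B.repr (z i)).support
  have hz : ∀ i, z i = ∑ j ∈ S, ((B.repr (z i) j : ℚ) : ℂ) * B j := by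
    intro i
    conv_lhs => rw [← B.linearCombination_repr (z i)]
    rw [Finsupp.linearCombination_apply, Finsupp.sum]
    rw [Finset.sum_subset (Finset.subset_biUnion_of_mem (fun i => (B.repr (z i)).support)
      (Finset.mem_univ i))]
    · refine Finset.sum_congr rfl fun j _ => ?_
      rw [Rat.smul_def]
    · intro j _ hj
      rw [Finsupp.notMem_support_iff] at hj
      rw [hj, zero_smul]
  have hx : x = ∑ j ∈ S, B j • Z.ι (T Z (B.coord j) x) := by
    conv_lhs => rw [← (bb' Z).sum_repr x]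
    have e1 : ∀ j, B j • Z.ι (T Z (B.coord j) x) =
        ∑ i, (((B.repr (z i) j : ℚ) : ℂ) * B j) • bb' Z i := by
      intro j
      rw [T_apply, map_sum, Finset.smul_sum]
      refine Finset.sum_congr rfl fun i _ => ?_
      rw [ι_smul, bb_eq, smul_smul, mul_comm]
      rfl
    rw [Finset.sum_congr rfl fun j _ => e1 j, Finset.sum_comm]
    refine Finset.sum_congr rfl fun i _ => ?_
    rw [← Finset.sum_smul, ← hz]
  rw [hx]
  refine Submodule.sum_mem _ fun j _ => Submodule.smul_mem _ _ (Submodule.subset_span ?_)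
  exact ⟨_, h _, rfl⟩

theorem eq_zero_of_T {x : Z.X.R} (h : ∀ l, T Z l x = 0) : x = 0 := by
  have h1 := mem_span_of_T Z (U := {0}) h
  rw [Set.image_singleton, map_zero, Submodule.span_zero_singleton, Submodule.mem_bot] at h1
  exact h1

/-- Compatibility with linear maps. -/
theorem T_map {Y Z : RatCoh n} (F : Y.X.R →ₗ[ℂ] Z.X.R) (f : Y.A →ₗ[ℚ] Z.A)
    (h : ∀ a, F (Y.ι a) = Z.ι (f a)) (l : ℂ →ₗ[ℚ] ℚ) (x : Y.X.R) :
    T Z l (F x) = f (T Y l x) := by
  conv_lhs => rw [← (bb' Y).sum_repr x]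
  rw [map_sum, map_sum, T_apply, map_sum]
  refine Finset.sum_congr rfl fun i _ => ?_
  rw [map_smul, ← bb_eq, h, T_smul, map_smul]

/-- The generators of the free algebra. -/
abbrev Gen := (ℤ → ℂ) × (ℂ →ₗ[ℚ] ℚ)

/-- The free algebra. -/
abbrev FA := FreeAlgebra ℚ Gen

/-- The action of the generators. -/
noncomputable def E (g : Gen) : Z.A →ₗ[ℚ] Z.A where
  toFun a := T Z g.2 (wt Z.X g.1 (Z.ι a))
  map_add' a b := by rw [map_add, map_add, map_add]
  map_smul' r a := by
    have h := T_map (Y := Z) (Z := Z) ((r : ℂ) • LinearMap.id) (r • LinearMap.id)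
      (fun a => by simp [ι_smul]) g.2 (wt Z.X g.1 (Z.ι a))
    simp only [LinearMap.smul_apply, LinearMap.id_apply] at h
    rw [ι_smul, map_smul, h]
    rfl

/-- The action of the free algebra. -/
noncomputable def act : FA →ₐ[ℚ] Module.End ℚ Z.A := FreeAlgebra.lift ℚ (E Z)

noncomputable instance : Module FA Z.A := Module.compHom Z.A (act Z).toRingHom

theorem smul_def (f : FA) (a : Z.A) : f • a = act Z f a := rfl

theorem gen_smul (g : Gen) (a : Z.A) : FreeAlgebra.ι ℚ g • a = E Z g a := by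
  rw [smul_def, act, FreeAlgebra.lift_ι_apply]

instance : IsScalarTower ℚ FA Z.A := ⟨fun r f a => by
  rw [smul_def, smul_def, map_smul]; rfl⟩

/-- Linear maps which commute with the generators. -/
noncomputable def lift {Y Z : RatCoh n} (f : Y.A →ₗ[ℚ] Z.A)
    (h : ∀ g a, f (E Y g a) = E Z g (f a)) : Y.A →ₗ[FA] Z.A where
  toFun := f
  map_add' := map_add f
  map_smul' := by
    intro s a
    change f (s • a) = s • f a
    induction s using FreeAlgebra.induction generalizing a with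
    | grade0 r =>
      rw [algebraMap_smul, algebraMap_smul, map_smul]
    | grade1 g => rw [gen_smul, gen_smul, h]
    | mul s t hs ht => rw [mul_smul, mul_smul, hs, ht]
    | add s t hs ht => rw [add_smul, add_smul, map_add, hs, ht]

/-- Linear maps whose extensions commute with the operators `wt`. -/
theorem comm_E {Y Z : RatCoh n} (F : Y.X.R →ₗ[ℂ] Z.X.R) (f : Y.A →ₗ[ℚ] Z.A)
    (h : ∀ a, F (Y.ι a) = Z.ι (f a)) (h' : ∀ w x, F (wt Y.X w x) = wt Z.X w (F x)) (g : Gen)
    (a : Y.A) : f (E Y g a) = E Z g (f a) := by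
  change f (T Y g.2 (wt Y.X g.1 (Y.ι a))) = T Z g.2 (wt Z.X g.1 (Z.ι (f a)))
  rw [← T_map F f h, h', h]

/-- A module map commutes with the operators `wt` after extension of scalars. -/
theorem wt_comm {Y Z : RatCoh n} (F : Y.X.R →ₗ[ℂ] Z.X.R) (f : Y.A →ₗ[FA] Z.A)
    (h : ∀ a, F (Y.ι a) = Z.ι (f a)) (w : ℤ → ℂ) (x : Y.X.R) :
    F (wt Y.X w x) = wt Z.X w (F x) := by
  have key : ∀ a, F (wt Y.X w (Y.ι a)) = wt Z.X w (F (Y.ι a)) := by
    intro a
    rw [← sub_eq_zero]
    apply eq_zero_of_T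
    intro l
    rw [map_sub, T_map F (f.restrictScalars ℚ) h, h]
    have e := map_smul f (FreeAlgebra.ι ℚ ((w, l) : Gen)) a
    rw [gen_smul, gen_smul] at e
    change f (E Y (w, l) a) - E Z (w, l) (f a) = 0
    rw [e, sub_self]
  rw [← (bb' Y).sum_repr x]
  simp only [map_sum, map_smul, ← bb_eq, key]

end Pool.Agent.Q94.QH
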