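import Pool.Agent.Q94.QH.Small

/-!
# The first Chern class as a nilpotent operator on the rational Hodge structures
-/

open Module

set_option linter.unusedSectionVars false

namespace Pool.Agent.Q94.QH

open Pool.Agent.W539.DI

variable {n : ℕ}

/-- Multiplication by `c₁ ^ m` is injective on the rational cohomology in degree `i`. -/
def CInj (Z : RatCoh n) (m : ℕ) (i : ℤ) : Prop :=
  ∀ a ∈ Z.part {i}, Z.X.c ^ m * Z.ι a = 0 → a = 0

/-- The maps `c₁ ^ (n - i) : H^i → H^(2n-i)` are injective for `i = k, k - 2, k - 4, …`. -/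
def LefDeg (Z : RatCoh n) (k : ℤ) : Prop :=
  ∀ j m : ℕ, k - 2 * j + m = n → CInj Z m (k - 2 * j)

theorem LefDeg.lower {Z : RatCoh n} {k : ℤ} (h : LefDeg Z k) {k' : ℤ} (hk : k' ≤ k)
    (he : Even (k' - k)) : LefDeg Z k' := by
  intro j m hm
  obtain ⟨r, hr⟩ := he
  have e : k' - 2 * j = k - 2 * ((j + (-r).toNat : ℕ) : ℤ) := by push_cast; omega
  rw [e]
  exact h _ m (by omega)

theorem c₀_mem (Z : RatCoh n) : Z.ι (c₀ Z) ∈ Z.X.H (1, 1) := by rw [ι_c₀]; exact Z.X.c_mem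

/-- Multiplication by the power of the first Chern class. -/
noncomputable def cm (Z : RatCoh n) (m : ℕ) : Z.A →ₗ[FA] Z.A := mp Z (c₀_mem Z) m

theorem ι_cm (Z : RatCoh n) (m : ℕ) (a : Z.A) : Z.ι (cm Z m a) = Z.X.c ^ m * Z.ι a := by
  unfold cm
  rw [mp_apply, map_mul, map_pow, ι_c₀]

theorem cm_cm (Z : RatCoh n) (m m' : ℕ) (a : Z.A) : cm Z m (cm Z m' a) = cm Z (m + m') a := by
  apply ι_inj Z
  rw [ι_cm, ι_cm, ι_cm, pow_add, mul_assoc]

theorem cm_mem {Z : RatCoh n} (m : ℕ) {s : ℤ} {a : Z.A} (ha : a ∈ PK Z {s}) :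
    cm Z m a ∈ PK Z {s + 2 * m} := by
  rw [mem_PK, ι_cm]
  exact mul_degC Z.X.c_mem m (mem_PK.1 ha)

theorem CInj.inj {Z : RatCoh n} {m : ℕ} {i : ℤ} (h : CInj Z m i) {a : Z.A} (ha : a ∈ PK Z {i})
    (h0 : cm Z m a = 0) : a = 0 := by
  refine h a (mem_PK.1 ha) ?_
  rw [← ι_cm, h0, map_zero]

/-- Classes in the degrees in `K` are sums of classes of pure degrees. -/
theorem PK_ind {Z : RatCoh n} {K : Set ℤ} {P : Z.A → Prop} (h0 : P 0)
    (hadd : ∀ a b, P a → P b → P (a + b)) (h : ∀ k ∈ K, ∀ a ∈ PK Z {k}, P a) {a : Z.A}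
    (ha : a ∈ PK Z K) : P a := by
  obtain ⟨a', h1, h2⟩ := Z.deg a
  rw [← pr_same ha, h2, map_sum]
  refine Finset.sum_induction _ P hadd h0 fun k _ => ?_
  by_cases hk : k ∈ K
  · have h3 : a' k ∈ PK Z {k} := mem_PK.2 (h1 k)
    rw [pr_same (PK_mono (Set.singleton_subset_iff.2 hk) h3)]
    exact h k hk _ h3
  · rw [pr_disj (K := {k}) (L := K) (by
      intro j hj
      rw [Set.mem_singleton_iff] at hj
      rwa [hj]) (mem_PK.2 (h1 k))]
    exact h0

theorem eq_zero_of_pr {Z : RatCoh n} {a : Z.A} (h : ∀ k : ℤ, pr Z {k} a = 0) : a = 0 := by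
  classical
  obtain ⟨a', h1, h2⟩ := Z.deg a
  rw [h2]
  refine Finset.sum_eq_zero fun k hk => ?_
  have h3 := h k
  rw [h2, map_sum, Finset.sum_eq_single k] at h3
  · rwa [pr_same (mem_PK.2 (h1 k))] at h3
  · intro j _ hjk
    refine pr_disj (K := {j}) (L := {k}) ?_ (mem_PK.2 (h1 j))
    intro i hi hi'
    rw [Set.mem_singleton_iff] at hi hi'
    exact hjk (hi ▸ hi')
  · intro hk'
    exact absurd hk hk'

theorem pr_cm {Z : RatCoh n} (m : ℕ) (k : ℤ) (a : Z.A) :
    pr Z {k + 2 * (m : ℤ)} (cm Z m a) = cm Z m (pr Z {k} a) := by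
  refine PK_ind (K := Set.univ) (P := fun a => pr Z {k + 2 * (m : ℤ)} (cm Z m a) =
    cm Z m (pr Z {k} a)) (by simp) ?_ ?_ (a := a) ?_
  · intro a b ha hb
    rw [map_add, map_add, map_add, map_add, ha, hb]
  · intro j _ a ha
    by_cases h : j = k
    · subst h
      rw [pr_same ha, pr_same (cm_mem m ha)]
    · rw [pr_disj (K := {j}) (L := {k}) ?_ ha, map_zero,
        pr_disj (K := {j + 2 * (m : ℤ)}) (L := {k + 2 * (m : ℤ)}) ?_ (cm_mem m ha)]
      · intro i hi hi'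
        rw [Set.mem_singleton_iff] at hi hi'
        omega
      · intro i hi hi'
        rw [Set.mem_singleton_iff] at hi hi'
        omega
  · obtain ⟨a', h1, h2⟩ := Z.deg a
    rw [h2]
    exact Submodule.sum_mem _ fun k _ => PK_mono (Set.subset_univ _) (mem_PK.2 (h1 k))

/-- Membership from the components. -/
theorem mem_PK_of {Z : RatCoh n} {K : Set ℤ} {a : Z.A} (h : ∀ k : ℤ, k ∉ K → pr Z {k} a = 0) :
    a ∈ PK Z K := by
  classical
  obtain ⟨a', h1, h2⟩ := Z.deg a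
  rw [h2]
  refine Submodule.sum_mem _ fun k hk => ?_
  by_cases hkK : k ∈ K
  · exact PK_mono (Set.singleton_subset_iff.2 hkK) (mem_PK.2 (h1 k))
  · have h3 := h k hkK
    rw [h2, map_sum, Finset.sum_eq_single k] at h3
    · rw [pr_same (mem_PK.2 (h1 k))] at h3
      rw [h3]
      exact Submodule.zero_mem _
    · intro j _ hjk
      refine pr_disj (K := {j}) (L := {k}) ?_ (mem_PK.2 (h1 j))
      intro i hi hi'
      rw [Set.mem_singleton_iff] at hi hi'
      exact hjk (hi ▸ hi')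
    · intro hk'
      exact absurd hk hk'

/-- The Lefschetz property gives surjectivity. -/
theorem CInj.surj {Z : RatCoh n} {m : ℕ} {i : ℤ} (h : CInj Z m i) (hi : i + m = n) {b : Z.A}
    (hb : b ∈ PK Z {i + 2 * (m : ℤ)}) : ∃ a ∈ PK Z {i}, cm Z m a = b := by
  let f : PK Z {i} →ₗ[ℚ] PK Z {i + 2 * (m : ℤ)} :=
    (LinearMap.restrict (cm Z m) (p := PK Z {i}) (q := PK Z {i + 2 * (m : ℤ)})
      fun a ha => cm_mem m ha).restrictScalars ℚ
  let g : PK Z {i} →ₗ[ℚ] PK Z {i + 2 * (m : ℤ)} :=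
    (LinearMap.restrict (om Z m) (p := PK Z {i}) (q := PK Z {i + 2 * (m : ℤ)})
      fun a ha => om_mem m ha).restrictScalars ℚ
  have hg : Function.Bijective g := by
    constructor
    · rw [injective_iff_map_eq_zero]
      rintro ⟨a, ha⟩ h0
      exact Subtype.ext (om_inj hi ha (congrArg Subtype.val h0))
    · rintro ⟨b, hb⟩
      obtain ⟨a, ha, hab⟩ := om_surj hi hb
      exact ⟨⟨a, ha⟩, Subtype.ext hab⟩
  have hdim : finrank ℚ (PK Z {i}) = finrank ℚ (PK Z {i + 2 * (m : ℤ)}) :=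
    (LinearEquiv.ofBijective g hg).finrank_eq
  have hf : Function.Injective f := by
    rw [injective_iff_map_eq_zero]
    rintro ⟨a, ha⟩ h0
    exact Subtype.ext (h.inj ha (congrArg Subtype.val h0))
  obtain ⟨⟨a, ha⟩, hab⟩ :=
    (LinearMap.injective_iff_surjective_of_finrank_eq_finrank hdim).1 hf ⟨b, hb⟩
  exact ⟨a, ha, congrArg Subtype.val hab⟩

/-- The degrees at most `k` congruent to `k`. -/
def lo (k : ℤ) : Set ℤ := {i | i ≤ k ∧ Even (i - k)}

/-- The degrees greater than `2 n - k` congruent to `k`. -/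
def hi (n : ℕ) (k : ℤ) : Set ℤ := {i | 2 * n - k < i ∧ Even (i - k)}

/-- The image of `c₁ ^ s` on one parity. -/
noncomputable def MS (Z : RatCoh n) (s : ℕ) (k : ℤ) : Submodule FA Z.A :=
  Submodule.map (cm Z s) (PK Z {i | Even (i - k)})

theorem lo_par (k : ℤ) : lo k ⊆ {i | Even (i - k)} := fun _ h => h.2

section count

variable (S : Type) [AddCommGroup S] [Module FA S] [Module ℚ S] [IsScalarTower ℚ FA S]
  [FiniteDimensional ℚ S]

theorem cm_low_inj {Z : RatCoh n} {k : ℤ} {s : ℕ} (hs : k + s = n) (h : LefDeg Z k) {a : Z.A}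
    (ha : a ∈ PK Z (lo k)) (h0 : cm Z s a = 0) : a = 0 := by
  apply eq_zero_of_pr
  intro i
  by_cases hi : i ∈ lo k
  · obtain ⟨h1, r, hr⟩ := hi
    have h2 := pr_cm s i a
    rw [h0, map_zero] at h2
    have h3 : CInj Z (s + (k - i).toNat) i := by
      have := h (-r).toNat (s + (k - i).toNat) (by omega)
      have e : k - 2 * (((-r).toNat : ℕ) : ℤ) = i := by omega
      rwa [e] at this
    refine h3.inj (pr_mem _ _) ?_
    have h4 := cm_cm Z (k - i).toNat s (pr Z {i} a)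
    rw [← h2, map_zero, add_comm] at h4
    exact h4.symm
  · exact pr_disj (K := lo k) (L := {i}) (by
      intro j hj hj'
      rw [Set.mem_singleton_iff] at hj'
      exact hi (hj' ▸ hj)) ha

theorem hi_mem {Z : RatCoh n} {k : ℤ} {s : ℕ} (hs : k + s = n) (h : LefDeg Z k) {b : Z.A}
    (hb : b ∈ PK Z (hi n k)) : b ∈ MS Z s k := by
  refine PK_ind (P := fun b => b ∈ MS Z s k) (Submodule.zero_mem _)
    (fun a b ha hb => Submodule.add_mem _ ha hb) ?_ hb
  rintro t ⟨h1, r, hr⟩ b hb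
  -- `t = 2 n - k + 2 j`
  obtain ⟨j, hj⟩ := Int.eq_ofNat_of_zero_le (show 0 ≤ r + k - n by omega)
  have h3 : CInj Z (s + 2 * j) (k - 2 * (j : ℤ)) := h j (s + 2 * j) (by push_cast; omega)
  have e : k - 2 * (j : ℤ) + 2 * ((s + 2 * j : ℕ) : ℤ) = t := by push_cast; omega
  obtain ⟨a, ha, hab⟩ := h3.surj (by push_cast; omega) (by rw [e]; exact hb)
  refine ⟨cm Z (2 * j) a, ?_, ?_⟩
  · refine PK_mono ?_ (cm_mem (2 * j) ha)
    rw [Set.singleton_subset_iff]
    change Even _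
    exact ⟨j, by push_cast; ring⟩
  · rw [cm_cm]
    exact hab

theorem cm_high {Z : RatCoh n} {k : ℤ} {s : ℕ} (hs : k + s = n) {w : Z.A}
    (hw : w ∈ PK Z {i | k < i ∧ Even (i - k)}) : cm Z s w ∈ PK Z (hi n k) := by
  refine PK_ind (P := fun w => cm Z s w ∈ PK Z (hi n k)) ?_ ?_ ?_ hw
  · rw [map_zero]; exact Submodule.zero_mem _
  · intro a b ha hb
    rw [map_add]; exact Submodule.add_mem _ ha hb
  · rintro i ⟨h1, r, hr⟩ a ha
    refine PK_mono ?_ (cm_mem s ha)
    rw [Set.singleton_subset_iff]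
    exact ⟨by omega, r + s, by omega⟩

theorem cm_low {Z : RatCoh n} {k : ℤ} {s : ℕ} (hs : k + s = n) {w : Z.A}
    (hw : w ∈ PK Z (lo k)) : cm Z s w ∈ PK Z {i | i ≤ 2 * n - k} := by
  refine PK_ind (P := fun w => cm Z s w ∈ PK Z {i | i ≤ 2 * (n : ℤ) - k}) ?_ ?_ ?_ hw
  · rw [map_zero]; exact Submodule.zero_mem _
  · intro a b ha hb
    rw [map_add]; exact Submodule.add_mem _ ha hb
  · rintro i ⟨h1, r, hr⟩ a ha
    refine PK_mono ?_ (cm_mem s ha)
    rw [Set.singleton_subset_iff]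
    change i + 2 * (s : ℤ) ≤ 2 * n - k
    omega

/-- The map `(a, b) ↦ c₁ ^ s a + b`. -/
noncomputable def msMap (Z : RatCoh n) (s : ℕ) (k : ℤ) : (PK Z (lo k) × PK Z (hi n k)) →ₗ[FA] Z.A :=
  LinearMap.coprod (cm Z s ∘ₗ (PK Z (lo k)).subtype) (PK Z (hi n k)).subtype

theorem msMap_apply {Z : RatCoh n} {s : ℕ} {k : ℤ} (x : PK Z (lo k) × PK Z (hi n k)) :
    msMap Z s k x = cm Z s x.1 + x.2 := rfl

theorem par_split (k : ℤ) :
    ({i : ℤ | Even (i - k)} : Set ℤ) = lo k ∪ {i | k < i ∧ Even (i - k)} := by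
  ext i
  simp only [lo, Set.mem_ofPred_eq, Set.mem_union]
  constructor
  · intro h
    rcases le_or_gt i k with h1 | h1
    · exact Or.inl ⟨h1, h⟩
    · exact Or.inr ⟨h1, h⟩
  · rintro (h | h)
    · exact h.2
    · exact h.2

/-- The image of `c₁ ^ s`, `s = n - k`. -/
noncomputable def msEquiv {Z : RatCoh n} {k : ℤ} {s : ℕ} (hs : k + s = n) (h : LefDeg Z k) :
    (PK Z (lo k) × PK Z (hi n k)) ≃ₗ[FA] MS Z s k := by
  have hfm : ∀ x, msMap Z s k x ∈ MS Z s k := fun x => by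
    rw [msMap_apply]
    exact Submodule.add_mem _ ⟨_, PK_mono (lo_par k) x.1.2, rfl⟩ (hi_mem hs h x.2.2)
  refine LinearEquiv.ofBijective (LinearMap.codRestrict (MS Z s k) (msMap Z s k) hfm) ⟨?_, ?_⟩
  · rw [injective_iff_map_eq_zero]
    rintro ⟨⟨a, ha⟩, ⟨b, hb⟩⟩ h0
    have h4 : cm Z s a + b = 0 := congrArg Subtype.val h0
    have h5 : pr Z (hi n k) (cm Z s a) = 0 := by
      refine pr_disj (K := {i | i ≤ 2 * (n : ℤ) - k}) ?_ (cm_low hs ha)
      rintro i hi1 ⟨hi2, -⟩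
      have hi3 : i ≤ 2 * (n : ℤ) - k := hi1
      omega
    have h6 : b = 0 := by
      have := congrArg (pr Z (hi n k)) h4
      rwa [map_add, h5, pr_same hb, map_zero, zero_add] at this
    rw [h6, add_zero] at h4
    have h7 := cm_low_inj hs h ha h4
    subst h6 h7
    rfl
  · rintro ⟨_, ⟨v, hv, rfl⟩⟩
    have hv2 : v ∈ PK Z (lo k ∪ {i | k < i ∧ Even (i - k)}) := par_split k ▸ hv
    have s1 := pr_union (Z := Z) (K := lo k) (L := {i | k < i ∧ Even (i - k)}) (by
      rintro i ⟨h1, -⟩ ⟨h2, -⟩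
      omega) hv2
    refine ⟨(⟨pr Z (lo k) v, pr_mem _ _⟩,
      ⟨cm Z s (pr Z {i | k < i ∧ Even (i - k)} v), cm_high hs (pr_mem _ _)⟩), ?_⟩
    apply Subtype.ext
    change cm Z s (pr Z (lo k) v) + cm Z s (pr Z {i | k < i ∧ Even (i - k)} v) = cm Z s v
    rw [← map_add, s1]

/-- The multiplicities in the image of `c₁ ^ s`, `s = n - k`. -/
theorem count_MS {Z : RatCoh n} {k : ℤ} {s : ℕ} (hs : k + s = n) (h : LefDeg Z k) :
    hd (A := FA) S (MS Z s k) = DK S Z {k} + 2 * DK S Z (lo (k - 2)) := by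
  have h1 : DK S Z (lo k) = DK S Z {k} + DK S Z (lo (k - 2)) := by
    rw [← DK_union]
    · congr 1
      ext i
      simp only [lo, Set.mem_ofPred_eq, Set.mem_union, Set.mem_singleton_iff]
      constructor
      · rintro ⟨h1, r, hr⟩
        by_cases h2 : i = k
        · exact Or.inl h2
        · exact Or.inr ⟨by omega, r + 1, by omega⟩
      · rintro (rfl | ⟨h1, r, hr⟩)
        · exact ⟨le_rfl, 0, by ring⟩
        · exact ⟨by omega, r - 1, by omega⟩
    · rintro i hi ⟨h1, -⟩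
      rw [Set.mem_singleton_iff] at hi
      omega
  have h2 : DK S Z (hi n k) = DK S Z (lo (k - 2)) := by
    rw [← DK_refl]
    congr 1
    ext i
    simp only [lo, hi, Set.mem_ofPred_eq]
    constructor
    · rintro ⟨h1, r, hr⟩
      exact ⟨by omega, n - k - r + 1, by omega⟩
    · rintro ⟨h1, r, hr⟩
      exact ⟨by omega, n - k - r + 1, by omega⟩
  have h3 : hd (A := FA) S (MS Z s k) = hd (A := FA) S (PK Z (lo k) × PK Z (hi n k)) :=
    (hd_congr (msEquiv hs h)).symm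
  rw [h3, hd_prod]
  change DK S Z (lo k) + DK S Z (hi n k) = _
  omega

end count

/-- The transform commutes with the multiplication by the first Chern class. -/
def Canonical {Y Z : RatCoh n} (F : RatFM Y Z) : Prop :=
  ∀ x, F.Φ.φ (Y.X.c * x) = Z.X.c * F.Φ.φ x

theorem Canonical.pow {Y Z : RatCoh n} {F : RatFM Y Z} (hF : Canonical F) (s : ℕ) (x : Y.X.R) :
    F.Φ.φ (Y.X.c ^ s * x) = Z.X.c ^ s * F.Φ.φ x := by
  induction s generalizing x with
  | zero => simp
  | succ s ih => rw [pow_succ, mul_assoc, ih, hF, pow_succ, mul_assoc]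

theorem phi_cm {Y Z : RatCoh n} {F : RatFM Y Z} (hF : Canonical F) (s : ℕ) (a : Y.A) :
    phi F (cm Y s a) = cm Z s (phi F a) := by
  apply ι_inj Z
  rw [ι_phi, ι_cm, ι_cm, ι_phi, hF.pow]

/-- The images of `c₁ ^ s` are isomorphic. -/
noncomputable def MSequiv {Y Z : RatCoh n} {F : RatFM Y Z} (hF : Canonical F) (s : ℕ) (k : ℤ) :
    MS Y s k ≃ₗ[FA] MS Z s k :=
  LinearEquiv.ofSubmodules (phi F) _ _ (by
    ext b
    constructor
    · rintro ⟨_, ⟨a, ha, rfl⟩, rfl⟩
      exact ⟨phi F a, (phi_parity F k a).2 ha, (phi_cm hF s a).symm⟩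
    · rintro ⟨c, hc, rfl⟩
      refine ⟨cm Y s ((phi F).symm c), ⟨_, ?_, rfl⟩, ?_⟩
      · have := (phi_parity F k ((phi F).symm c)).1
        rw [(phi F).apply_symm_apply] at this
        exact this hc
      · change phi F (cm Y s ((phi F).symm c)) = _
        rw [phi_cm hF, (phi F).apply_symm_apply])

/-- The degree `k` if `c₁` has the Lefschetz property in the degrees `k, k - 2, …`. -/
theorem DK_lefDeg (S : Type) [AddCommGroup S] [Module FA S] [Module ℚ S] [IsScalarTower ℚ FA S]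
    [FiniteDimensional ℚ S] {Y Z : RatCoh n} {F : RatFM Y Z} (hF : Canonical F) :
    ∀ (N : ℕ) (k : ℤ), k < N → k ≤ n → LefDeg Y k → LefDeg Z k → DK S Y {k} = DK S Z {k} := by
  intro N
  induction N with
  | zero =>
    intro k hk _ _ _
    rw [DK_out S Y (Or.inl (by simpa using hk)), DK_out S Z (Or.inl (by simpa using hk))]
  | succ N ih =>
    intro k hk hkn hY hZ
    obtain ⟨s, hs⟩ := Int.eq_ofNat_of_zero_le (show 0 ≤ (n : ℤ) - k by omega)
    have hs' : k + s = n := by omega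
    have h1 := hd_congr (S := S) (MSequiv hF s k)
    rw [count_MS S hs' hY, count_MS S hs' hZ] at h1
    have h2 : DK S Y (lo (k - 2)) = DK S Z (lo (k - 2)) := DK_congr_set S fun i hi => by
      obtain ⟨h3, r, hr⟩ := hi
      exact ih i (by push_cast at hk; omega) (by omega) (hY.lower (by omega) ⟨r - 1, by omega⟩)
        (hZ.lower (by omega) ⟨r - 1, by omega⟩)
    omega

theorem lefDeg_iso {Y Z : RatCoh n} {F : RatFM Y Z} (hF : Canonical F) {k : ℤ} (hk : k ≤ n)
    (hY : LefDeg Y k) (hZ : LefDeg Z k) : HodgeIso Y Z {k} :=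
  hodgeIso_of_DK fun S _ _ _ _ _ =>
    DK_lefDeg S hF (k.toNat + 1) k (by omega) hk hY hZ

theorem canon_par {Y Z : RatCoh n} {F : RatFM Y Z} (hF : Canonical F) (hY : LefDeg Y (n - 4))
    (hZ : LefDeg Z (n - 4)) (k : ℤ) (hk : Even (k - n)) : HodgeIso Y Z {k} := by
  refine par_iso F (fun i _ h2 h3 => ?_) k hk
  have h4 : Even (i - (n - 4)) := by
    obtain ⟨r, hr⟩ := h3
    exact ⟨r + 2, by omega⟩
  exact lefDeg_iso hF (by omega) (hY.lower (by omega) h4) (hZ.lower (by omega) h4)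

theorem canon_all {Y Z : RatCoh n} {F : RatFM Y Z} (hF : Canonical F) (hY : LefDeg Y (n - 4))
    (hZ : LefDeg Z (n - 4)) (hY' : LefDeg Y (n - 3)) (hZ' : LefDeg Z (n - 3)) (k : ℤ) :
    HodgeIso Y Z {k} := by
  refine all_iso F (fun i _ h2 => ?_) k
  rcases Int.even_or_odd (i - (n - 4)) with h4 | h4
  · by_cases h5 : i ≤ n - 4
    · exact lefDeg_iso hF (by omega) (hY.lower h5 h4) (hZ.lower h5 h4)
    · obtain ⟨r, hr⟩ := h4
      omega
  · have h5 : Even (i - (n - 3)) := by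
      obtain ⟨r, hr⟩ := h4
      exact ⟨r, by omega⟩
    exact lefDeg_iso hF (by omega) (hY'.lower h2 h5) (hZ'.lower h2 h5)

/-! ### Betti numbers -/

/-- The sum of the Betti numbers in the degrees in `K`. -/
noncomputable def bk (Z : RatCoh n) (K : Set ℤ) : ℕ := finrank ℚ (PK Z K)

theorem bk_union {Z : RatCoh n} {K L : Set ℤ} (hKL : ∀ k ∈ K, k ∉ L) :
    bk Z (K ∪ L) = bk Z K + bk Z L := by
  unfold bk
  rw [((unionEquiv hKL).restrictScalars ℚ).finrank_eq, finrank_prod]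

theorem bk_empty {Z : RatCoh n} {K : Set ℤ} (hK : ∀ k ∈ K, k < 0 ∨ 2 * (n : ℤ) < k) :
    bk Z K = 0 := by
  have h1 : ∀ a ∈ PK Z K, a = 0 := by
    intro a ha
    refine PK_ind (P := fun a => a = 0) rfl (fun a b ha hb => by rw [ha, hb, add_zero]) ?_ ha
    intro k hk a ha
    rcases hK k hk with h | h
    · exact PK_neg h ha
    · exact PK_top h ha
  have : Subsingleton (PK Z K) := ⟨fun a b => Subtype.ext (by rw [h1 a a.2, h1 b b.2])⟩
  exact finrank_zero_of_subsingleton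

theorem bk_finset {Z : RatCoh n} (s : Finset ℤ) : bk Z ↑s = ∑ k ∈ s, bk Z {k} := by
  classical
  induction s using Finset.induction_on with
  | empty => rw [Finset.sum_empty]; exact bk_empty (fun k hk => absurd hk (by simp))
  | insert a s ha ih =>
    rw [Finset.sum_insert ha, Finset.coe_insert, Set.insert_eq, bk_union, ih]
    intro k hk
    rw [Set.mem_singleton_iff] at hk
    rw [hk]
    simpa using ha

open Classical in
theorem bk_sum {Z : RatCoh n} (K : Set ℤ) :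
    bk Z K = ∑ k ∈ (Finset.Icc 0 (2 * (n : ℤ))).filter (· ∈ K), bk Z {k} := by
  have e : K ∩ Set.Icc 0 (2 * (n : ℤ)) =
      (((Finset.Icc 0 (2 * (n : ℤ))).filter (· ∈ K) : Finset ℤ) : Set ℤ) := by
    ext k
    simp only [Set.mem_inter_iff, Set.mem_Icc, Finset.coe_filter, Finset.mem_Icc,
      Set.mem_ofPred_eq]
    tauto
  rw [← bk_finset, ← e]
  unfold bk
  rw [← PK_inter]

theorem bk_congr {Y Z : RatCoh n} {K : Set ℤ} (h : ∀ k ∈ K, bk Y {k} = bk Z {k}) :
    bk Y K = bk Z K := by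
  classical
  rw [bk_sum, bk_sum (Z := Z)]
  exact Finset.sum_congr rfl fun k hk => h k (Finset.mem_filter.1 hk).2

theorem bk_lef {Z : RatCoh n} {s : ℤ} {m : ℕ} (h : s + m = n) :
    bk Z {s} = bk Z {s + 2 * (m : ℤ)} := by
  have e : PK Z {s} ≃ₗ[FA] PK Z {s + 2 * (m : ℤ)} :=
    LinearEquiv.ofBijective (LinearMap.restrict (om Z m)
      (p := PK Z {s}) (q := PK Z {s + 2 * (m : ℤ)}) fun a ha => om_mem m ha) ⟨by
        rw [injective_iff_map_eq_zero]
        rintro ⟨a, ha⟩ h0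
        exact Subtype.ext (om_inj h ha (congrArg Subtype.val h0)), by
        rintro ⟨b, hb⟩
        obtain ⟨a, ha, hab⟩ := om_surj h hb
        exact ⟨⟨a, ha⟩, Subtype.ext hab⟩⟩
  exact (e.restrictScalars ℚ).finrank_eq

theorem bk_refl {Z : RatCoh n} (k : ℤ) : bk Z {2 * (n : ℤ) - k} = bk Z {k} := by
  rcases le_total k n with h | h
  · have := bk_lef (Z := Z) (s := k) (m := (n - k).toNat) (by omega)
    rw [this]
    congr 2
    omega
  · have := bk_lef (Z := Z) (s := 2 * (n : ℤ) - k) (m := (k - n).toNat) (by omega)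
    rw [this]
    congr 2
    omega

theorem bk_hi {Y Z : RatCoh n} {k : ℤ} (h : ∀ i ∈ lo k, bk Y {i} = bk Z {i}) :
    bk Y (hi n k) = bk Z (hi n k) := by
  refine bk_congr fun i hi => ?_
  rw [← bk_refl, ← bk_refl (Z := Z)]
  obtain ⟨h1, r, hr⟩ := hi
  exact h _ ⟨by omega, n - k - r, by omega⟩

/-- Equality in the upper bound for the rank implies injectivity. -/
theorem inj_of_rank {Z : RatCoh n} {k : ℤ} {s : ℕ} (hs : k + s = n)
    (h : bk Z (lo k) + bk Z (hi n k) ≤ finrank ℚ (MS Z s k)) {a : Z.A}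
    (ha : a ∈ PK Z (lo k)) (h0 : cm Z s a = 0) : a = 0 := by
  let f : PK Z (lo k) →ₗ[ℚ] Z.A := (cm Z s ∘ₗ (PK Z (lo k)).subtype).restrictScalars ℚ
  have hle : (MS Z s k).restrictScalars ℚ ≤
      LinearMap.range f ⊔ (PK Z (hi n k)).restrictScalars ℚ := by
    rintro _ ⟨v, hv, rfl⟩
    have hv2 : v ∈ PK Z (lo k ∪ {i | k < i ∧ Even (i - k)}) := par_split k ▸ hv
    have s1 := pr_union (Z := Z) (K := lo k) (L := {i | k < i ∧ Even (i - k)}) (by
      rintro i ⟨h1, -⟩ ⟨h2, -⟩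
      omega) hv2
    rw [← s1, map_add]
    refine Submodule.add_mem_sup ?_ ?_
    · exact ⟨⟨pr Z (lo k) v, pr_mem _ _⟩, rfl⟩
    · exact cm_high hs (pr_mem _ _)
  have h1 : finrank ℚ (MS Z s k) ≤ finrank ℚ (LinearMap.range f) + bk Z (hi n k) :=
    (Submodule.finrank_mono hle).trans (Submodule.finrank_add_le_finrank_add_finrank _ _)
  have h2 := LinearMap.finrank_range_add_finrank_ker f
  have h3 : finrank ℚ (PK Z (lo k)) = bk Z (lo k) := rfl
  have h4 : finrank ℚ (LinearMap.ker f) = 0 := by omega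
  have h5 : LinearMap.ker f = ⊥ := Submodule.finrank_eq_zero.1 h4
  have h6 : (⟨a, ha⟩ : PK Z (lo k)) ∈ LinearMap.ker f := h0
  rw [h5, Submodule.mem_bot] at h6
  exact congrArg Subtype.val h6

theorem lefDeg_neg {Z : RatCoh n} {k : ℤ} (hk : k < 0) : LefDeg Z k := by
  intro j m _ a ha _
  exact PK_neg (t := k - 2 * (j : ℤ)) (by omega) (mem_PK.2 ha)

/-- The Lefschetz property can be transferred if the Betti numbers agree. -/
theorem lef_transfer {Y Z : RatCoh n} {F : RatFM Y Z} (hF : Canonical F) :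
    ∀ (N : ℕ) (k : ℤ), k < N → k ≤ n → LefDeg Y k → (∀ i ∈ lo k, bk Y {i} = bk Z {i}) →
      LefDeg Z k := by
  intro N
  induction N with
  | zero => intro k hk _ _ _; exact lefDeg_neg (by simpa using hk)
  | succ N ih =>
    intro k hk hkn hY hb
    obtain ⟨s, hs⟩ := Int.eq_ofNat_of_zero_le (show 0 ≤ (n : ℤ) - k by omega)
    have hs' : k + s = n := by omega
    have h1 : LefDeg Z (k - 2) := ih (k - 2) (by push_cast at hk; omega) (by omega)
      (hY.lower (by omega) ⟨-1, by ring⟩) (fun i hi => hb i (by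
        obtain ⟨h2, r, hr⟩ := hi
        exact ⟨by omega, r - 1, by omega⟩))
    have h2 : finrank ℚ (MS Z s k) = bk Y (lo k) + bk Y (hi n k) := by
      rw [← ((MSequiv hF s k).restrictScalars ℚ).finrank_eq,
        ← ((msEquiv hs' hY).restrictScalars ℚ).finrank_eq, finrank_prod]
      rfl
    rw [bk_congr hb, bk_hi hb] at h2
    intro j m hm
    rcases Nat.eq_zero_or_pos j with rfl | hj
    · have hms : m = s := by push_cast at hm; omega
      subst hms
      simp only [Nat.cast_zero, mul_zero, sub_zero]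
      intro a ha h0
      refine inj_of_rank hs' h2.ge (a := a) ?_ ?_
      · refine PK_mono ?_ (mem_PK.2 ha)
        rw [Set.singleton_subset_iff]
        exact ⟨le_rfl, 0, by ring⟩
      · apply ι_inj Z
        rw [ι_cm, h0, map_zero]
    · have := h1 (j - 1) m (by omega)
      have e : k - 2 - 2 * ((j - 1 : ℕ) : ℤ) = k - 2 * (j : ℤ) := by omega
      rwa [e] at this

theorem bk_of_iso {Y Z : RatCoh n} {k : ℤ} (h : HodgeIso Y Z {k}) : bk Y {k} = bk Z {k} := by
  obtain ⟨f, -⟩ := h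
  exact (((partEquiv Y {k}).trans f).trans (partEquiv Z {k}).symm).finrank_eq

/-- The Betti numbers. -/
noncomputable def betti (Z : RatCoh n) (i : ℤ) : ℕ := finrank ℚ (Z.part {i})

theorem betti_eq (Z : RatCoh n) (i : ℤ) : betti Z i = bk Z {i} :=
  (partEquiv Z {i}).finrank_eq.symm

theorem lef_iff {Y Z : RatCoh n} {F : RatFM Y Z} (hF : Canonical F) {k : ℤ} (hk : k ≤ n)
    (hY : LefDeg Y k) :
    LefDeg Z k ↔ ∀ i : ℤ, i ≤ k → Even (i - k) → betti Y i = betti Z i := by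
  constructor
  · intro hZ i h1 h2
    rw [betti_eq, betti_eq]
    exact bk_of_iso (lefDeg_iso hF (by omega) (hY.lower h1 h2) (hZ.lower h1 h2))
  · intro h
    refine lef_transfer hF (k.toNat + 1) k (by omega) hk hY fun i hi => ?_
    rw [← betti_eq, ← betti_eq]
    exact h i hi.1 hi.2

end Pool.Agent.Q94.QH
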