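import Pool.Agent.Q94.QH.Iner

/-!
# Counting
-/

open Module

set_option linter.unusedSectionVars false

namespace Pool.Agent.Q94.QH

open Pool.Agent.W539.DI

variable {n : ℕ}

instance finPK (Z : RatCoh n) (U : Submodule FA Z.A) : FiniteDimensional ℚ U :=
  FiniteDimensional.of_injective (U.subtype.restrictScalars ℚ) U.injective_subtype

/-- The equation between submodules as an equivalence. -/
theorem hd_eq {S : Type} [AddCommGroup S] [Module FA S] {Z : RatCoh n} {U V : Submodule FA Z.A}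
    (h : U = V) : hd (A := FA) S U = hd (A := FA) S V := by
  rw [h]

theorem hd_bot {S M : Type} [AddCommGroup S] [Module FA S] [AddCommGroup M] [Module FA M]
    [Module ℚ M] [IsScalarTower ℚ FA M] [Subsingleton M] : hd (A := FA) S M = 0 := by
  have : Subsingleton (S →ₗ[FA] M) := ⟨fun f g => by ext x; exact Subsingleton.elim _ _⟩
  exact finrank_zero_of_subsingleton

section count

variable (S : Type) [AddCommGroup S] [Module FA S] [Module ℚ S] [IsScalarTower ℚ FA S]
  [FiniteDimensional ℚ S] (Z : RatCoh n)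

/-- The multiplicity of `S` in the degrees in `K`. -/
noncomputable def DK (K : Set ℤ) : ℕ := hd (A := FA) S (PK Z K)

theorem DK_union {K L : Set ℤ} (hKL : ∀ k ∈ K, k ∉ L) : DK S Z (K ∪ L) = DK S Z K + DK S Z L := by
  unfold DK
  rw [hd_congr (unionEquiv hKL), hd_prod]

theorem PK_inter (K : Set ℤ) : PK Z K = PK Z (K ∩ Set.Icc 0 (2 * (n : ℤ))) := by
  ext a
  rw [mem_PK, mem_PK]
  constructor
  · intro h
    have : degC Z.X K ≤ degC Z.X (K ∩ Set.Icc 0 (2 * (n : ℤ))) := by
      refine iSup_le ?_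
      rintro ⟨⟨p, q⟩, hpq⟩
      have h1 : p + q ∈ K := hpq
      by_cases h2 : p + q ∈ Set.Icc 0 (2 * (n : ℤ))
      · have h3 : p + q ∈ K ∩ Set.Icc 0 (2 * (n : ℤ)) := ⟨h1, h2⟩
        exact fun x hx => mem_degC h3 hx
      · rw [Set.mem_Icc, not_and_or, not_le, not_le] at h2
        rcases h2 with h2 | h2
        · rw [Z.X.van p q (by omega)]
          exact bot_le
        · rw [Z.X.van_top (by omega)]
          exact bot_le
    exact this h
  · exact fun h => degC_mono Set.inter_subset_left h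

theorem DK_empty {K : Set ℤ} (hK : ∀ k ∈ K, k < 0 ∨ 2 * (n : ℤ) < k) : DK S Z K = 0 := by
  have h1 : PK Z K = ⊥ := by
    rw [PK_inter, show K ∩ Set.Icc 0 (2 * (n : ℤ)) = ∅ by
      ext k
      simp only [Set.mem_inter_iff, Set.mem_Icc, Set.mem_empty_iff_false, iff_false]
      rintro ⟨h1, h2, h3⟩
      rcases hK k h1 with h | h <;> omega]
    rw [eq_bot_iff]
    intro a ha
    have h2 : degC Z.X (∅ : Set ℤ) = ⊥ := by
      rw [eq_bot_iff]
      refine iSup_le ?_
      rintro ⟨pq, hpq⟩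
      exact absurd hpq (Set.notMem_empty _)
    have h3 := mem_PK.1 ha
    rw [h2, Submodule.mem_bot] at h3
    rw [Submodule.mem_bot]
    apply ι_inj Z
    rw [h3, map_zero]
  have : Subsingleton (PK Z K) := by
    rw [h1]
    infer_instance
  exact hd_bot

theorem DK_finset (s : Finset ℤ) : DK S Z ↑s = ∑ k ∈ s, DK S Z {k} := by
  classical
  induction s using Finset.induction_on with
  | empty => rw [Finset.sum_empty]; exact DK_empty S Z (fun k hk => absurd hk (by simp))
  | insert a s ha ih =>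
    rw [Finset.sum_insert ha, Finset.coe_insert, Set.insert_eq, DK_union, ih]
    intro k hk
    rw [Set.mem_singleton_iff] at hk
    rw [hk]
    simpa using ha

open Classical in
theorem DK_sum (K : Set ℤ) :
    DK S Z K = ∑ k ∈ (Finset.Icc 0 (2 * (n : ℤ))).filter (· ∈ K), DK S Z {k} := by
  rw [← DK_finset]
  unfold DK
  apply hd_eq
  rw [PK_inter]
  congr 1
  ext k
  simp only [Set.mem_inter_iff, Set.mem_Icc, Finset.coe_filter, Finset.mem_Icc, Set.mem_ofPred_eq]
  tauto

/-- Multiplication by a power of the ample class. -/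
theorem DK_lef {s : ℤ} {m : ℕ} (h : s + m = n) : DK S Z {s} = DK S Z {s + 2 * (m : ℤ)} := by
  refine hd_congr (LinearEquiv.ofBijective (LinearMap.restrict (om Z m)
    (p := PK Z {s}) (q := PK Z {s + 2 * (m : ℤ)}) fun a ha => om_mem m ha) ⟨?_, ?_⟩)
  · rw [injective_iff_map_eq_zero]
    rintro ⟨a, ha⟩ h0
    exact Subtype.ext (om_inj h ha (congrArg Subtype.val h0))
  · rintro ⟨b, hb⟩
    obtain ⟨a, ha, hab⟩ := om_surj h hb
    exact ⟨⟨a, ha⟩, Subtype.ext hab⟩

theorem DK_refl1 (k : ℤ) : DK S Z {2 * (n : ℤ) - k} = DK S Z {k} := by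
  rcases le_total k n with h | h
  · by_cases h0 : 0 ≤ n - k
    · have := DK_lef S Z (s := k) (m := (n - k).toNat) (by omega)
      rw [this]
      congr 2
      omega
    · omega
  · have := DK_lef S Z (s := 2 * (n : ℤ) - k) (m := (k - n).toNat) (by omega)
    rw [this]
    congr 2
    omega

theorem DK_refl (K : Set ℤ) : DK S Z {k | 2 * (n : ℤ) - k ∈ K} = DK S Z K := by
  classical
  rw [DK_sum, DK_sum S Z K]
  refine Finset.sum_bij (fun k _ => 2 * (n : ℤ) - k) ?_ ?_ ?_ ?_
  · intro k hk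
    simp only [Finset.mem_filter, Finset.mem_Icc, Set.mem_ofPred_eq] at hk ⊢
    exact ⟨by omega, hk.2⟩
  · intro a _ b _ h
    omega
  · intro b hb
    simp only [Finset.mem_filter, Finset.mem_Icc, Set.mem_ofPred_eq] at hb ⊢
    exact ⟨2 * n - b, ⟨by omega, by rw [sub_sub_cancel]; exact hb.2⟩, by ring⟩
  · intro k _
    exact (DK_refl1 S Z k).symm

/-- The multiplicity of the positive part. -/
noncomputable def νp (k : ℕ) : ℕ := hd (A := FA) S (NN Z k).1
/-- The multiplicity of the negative part. -/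
noncomputable def νm (k : ℕ) : ℕ := hd (A := FA) S (NN Z k).2

theorem DK_NN {k : ℕ} (hk : k ≤ n) : DK S Z {(k : ℤ)} = νp S Z k + νm S Z k := by
  have g := good (Z := Z) k hk
  unfold DK νp νm
  rw [← hd_prod]
  symm
  have h1 : (NN Z k).1 ≤ PK Z {(k : ℤ)} := g.sup ▸ le_sup_left
  have h2 : (NN Z k).2 ≤ PK Z {(k : ℤ)} := g.sup ▸ le_sup_right
  refine hd_congr (LinearEquiv.ofBijective (LinearMap.coprod (Submodule.inclusion h1)
    (Submodule.inclusion h2)) ⟨?_, ?_⟩)
  · rw [injective_iff_map_eq_zero]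
    rintro ⟨⟨a, ha⟩, ⟨b, hb⟩⟩ h0
    have h3 : a + b = 0 := congrArg Subtype.val h0
    have h4 : a = -b := eq_neg_of_add_eq_zero_left h3
    have h5 : a = 0 := g.compl ha (by rw [h4]; exact Submodule.neg_mem _ hb)
    have h6 : b = 0 := by rw [h5, zero_add] at h3; exact h3
    subst h5 h6
    rfl
  · rintro ⟨c, hc⟩
    rw [← g.sup, Submodule.mem_sup] at hc
    obtain ⟨a, ha, b, hb, rfl⟩ := hc
    exact ⟨(⟨a, ha⟩, ⟨b, hb⟩), rfl⟩

theorem νm_small {k : ℕ} (hk : k ≤ 1) : νm S Z k = 0 := by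
  have hN : (NN Z k).2 = ⊥ := by
    interval_cases k
    · rfl
    · rfl
  have : Subsingleton (NN Z k).2 := by
    rw [hN]
    infer_instance
  exact hd_bot

theorem νm_step {k : ℕ} (hk : k + 2 ≤ n) : νm S Z (k + 2) = νp S Z k := by
  have g := good (Z := Z) k (by omega)
  have hle1 : (NN Z k).1 ≤ PK Z {(k : ℤ)} := g.sup ▸ le_sup_left
  have hinj : ∀ a ∈ PK Z {(k : ℤ)}, om Z 1 a = 0 → a = 0 := by
    intro a ha h0
    refine om_inj (m := n - k) (by omega) ha ?_
    have := om_om Z (n - k - 1) 1 a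
    rw [h0, map_zero, show n - k - 1 + 1 = n - k by omega] at this
    exact this.symm
  symm
  refine hd_congr (LinearEquiv.ofBijective (LinearMap.restrict (om Z 1)
    (p := (NN Z k).1) (q := (NN Z (k + 2)).2) fun a ha => ⟨a, ha, rfl⟩) ⟨?_, ?_⟩)
  · rw [injective_iff_map_eq_zero]
    rintro ⟨a, ha⟩ h0
    exact Subtype.ext (hinj a (hle1 ha) (congrArg Subtype.val h0))
  · rintro ⟨_, ⟨a, ha, rfl⟩⟩
    exact ⟨⟨a, ha⟩, rfl⟩

/-- The degrees at most `m` which are congruent to `m` modulo `4`. -/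
def quad (m : ℤ) : Set ℤ := {j | j ≤ m ∧ 4 ∣ m - j}

theorem quad_rec (m : ℤ) : DK S Z (quad m) = DK S Z {m} + DK S Z (quad (m - 4)) := by
  rw [← DK_union]
  · congr 1
    ext k
    simp only [quad, Set.mem_ofPred_eq, Set.mem_union, Set.mem_singleton_iff]
    omega
  · intro k hk hk'
    rw [Set.mem_singleton_iff] at hk
    have := hk'.1
    omega

theorem quad_neg {m : ℤ} (hm : m < 0) : DK S Z (quad m) = 0 :=
  DK_empty S Z fun k hk => Or.inl (by have := hk.1; omega)

theorem νp_quad : ∀ k : ℕ, k ≤ n → νp S Z k + DK S Z (quad (k - 2)) = DK S Z (quad k) := by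
  intro k
  induction k using Nat.strong_induction_on with
  | _ k ih =>
    intro hk
    have h1 := DK_NN S Z hk
    by_cases hk1 : k ≤ 1
    · rw [νm_small S Z hk1] at h1
      rw [quad_neg S Z (m := (k : ℤ) - 2) (by omega), quad_rec S Z k,
        quad_neg S Z (m := (k : ℤ) - 4) (by omega), h1]
    · obtain ⟨j, rfl⟩ : ∃ j, k = j + 2 := ⟨k - 2, by omega⟩
      have h2 := νm_step S Z hk
      have h3 := ih j (by omega) (by omega)
      have h4 := quad_rec S Z ((j + 2 : ℕ) : ℤ)
      have e1 : ((j + 2 : ℕ) : ℤ) - 2 = j := by push_cast; ring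
      have e2 : ((j + 2 : ℕ) : ℤ) - 4 = j - 2 := by push_cast; ring
      rw [e1]
      rw [e2] at h4
      omega

theorem low_quad : DK S Z (lowS n) = DK S Z (quad (n - 2)) + DK S Z (quad (n - 4)) := by
  rw [← DK_union]
  · congr 1
    ext k
    simp only [quad, lowS, Set.mem_ofPred_eq, Set.mem_union]
    constructor
    · rintro ⟨h1, r, hr⟩
      omega
    · intro h
      refine ⟨by omega, ?_⟩
      rcases h with ⟨h1, r, hr⟩ | ⟨h1, r, hr⟩
      · exact ⟨-2 * r - 1, by omega⟩
      · exact ⟨-2 * r - 2, by omega⟩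
  · rintro k ⟨h1, r, hr⟩ ⟨h2, s, hs⟩
    omega

theorem count_p : hd (A := FA) S (PK Z (lowS n) × (NN Z n).1) =
    DK S Z (quad n) + DK S Z (quad (n - 4)) := by
  rw [hd_prod]
  change DK S Z (lowS n) + νp S Z n = _
  have h1 := low_quad S Z
  have h2 := νp_quad S Z n le_rfl
  omega

theorem count_m : hd (A := FA) S (PK Z (lowS n) × (NN Z n).2) =
    2 * DK S Z (quad (n - 2)) := by
  rw [hd_prod]
  change DK S Z (lowS n) + νm S Z n = _
  have h1 := low_quad S Z
  by_cases hn : n ≤ 1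
  · rw [νm_small S Z hn]
    rw [quad_neg S Z (m := (n : ℤ) - 2) (by omega), quad_neg S Z (m := (n : ℤ) - 4) (by omega)] at h1
    rw [quad_neg S Z (m := (n : ℤ) - 2) (by omega)]
    omega
  · obtain ⟨j, rfl⟩ : ∃ j, n = j + 2 := ⟨n - 2, by omega⟩
    have h2 := νp_quad S Z j (by omega)
    have h3 := νm_step S Z (k := j) le_rfl
    have e1 : ((j + 2 : ℕ) : ℤ) - 2 = j := by push_cast; ring
    have e2 : ((j + 2 : ℕ) : ℤ) - 4 = j - 2 := by push_cast; ring
    rw [e1, e2] at h1
    rw [e1]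
    omega

/-- The degrees congruent to `n` modulo `4`. -/
def quadAll (n : ℕ) : Set ℤ := {k | 4 ∣ (n : ℤ) - k}

theorem quadAll_eq : DK S Z (quadAll n) = DK S Z (quad n) + DK S Z (quad (n - 4)) := by
  rw [← DK_refl S Z (quad (n - 4)), ← DK_union]
  · congr 1
    ext k
    simp only [quad, quadAll, Set.mem_ofPred_eq, Set.mem_union]
    omega
  · rintro k ⟨h1, h2⟩ ⟨h3, h4⟩
    omega

/-- The degrees less than `n` which are not congruent to `n` modulo `2`. -/
def otherS (n : ℕ) : Set ℤ := {k | k < n ∧ ¬ Even (k - n)}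

theorem other_eq : DK S Z {k | Even (k - ((n : ℤ) + 1))} = 2 * DK S Z (otherS n) := by
  rw [two_mul]
  nth_rewrite 2 [← DK_refl S Z (otherS n)]
  rw [← DK_union]
  · congr 1
    ext k
    simp only [otherS, Set.mem_ofPred_eq, Set.mem_union]
    constructor
    · rintro ⟨r, hr⟩
      rcases lt_trichotomy k n with h | h | h
      · exact Or.inl ⟨h, fun ⟨s, hs⟩ => by omega⟩
      · omega
      · exact Or.inr ⟨by omega, fun ⟨s, hs⟩ => by omega⟩
    · rintro (⟨h1, h2⟩ | ⟨h1, h2⟩)
      · rw [Int.not_even_iff_odd] at h2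
        obtain ⟨r, hr⟩ := h2
        exact ⟨r, by omega⟩
      · rw [Int.not_even_iff_odd] at h2
        obtain ⟨r, hr⟩ := h2
        exact ⟨-r - 1, by omega⟩
  · rintro k ⟨h1, _⟩ ⟨h3, _⟩
    omega

end count

section transform

variable (S : Type) [AddCommGroup S] [Module FA S] [Module ℚ S] [IsScalarTower ℚ FA S]
  [FiniteDimensional ℚ S] {Y Z : RatCoh n} (F : RatFM Y Z)

include F

theorem q0_psi (v : PK Y (par n)) : q0 Z (psiE F n v) = q0 Y v := psi_B0 F v.2

theorem q0_psi_symm (v : PK Z (par n)) : q0 Y ((psiE F n).symm v) = q0 Z v := by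
  have := q0_psi F ((psiE F n).symm v)
  rw [← this]
  congr 1
  exact ((psiE F n).apply_symm_apply v)

theorem inv_A : DK S Y (quad (n - 2)) = DK S Z (quad (n - 2)) := by
  obtain ⟨f, hf⟩ := (exists_inj (psiE F n) (q0_psi F)).2
  obtain ⟨f', hf'⟩ := (exists_inj (psiE F n).symm (q0_psi_symm F)).2
  have h := hd_of_inj (S := S) f f' hf hf'
  have h1 := count_m S Y
  have h2 := count_m S Z
  omega

theorem inv_B : DK S Y (quad n) + DK S Y (quad (n - 4)) = DK S Z (quad n) + DK S Z (quad (n - 4)) := by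
  obtain ⟨f, hf⟩ := (exists_inj (psiE F n) (q0_psi F)).1
  obtain ⟨f', hf'⟩ := (exists_inj (psiE F n).symm (q0_psi_symm F)).1
  have h := hd_of_inj (S := S) f f' hf hf'
  have h1 := count_p S Y
  have h2 := count_p S Z
  omega

theorem inv_C : DK S Y (otherS n) = DK S Z (otherS n) := by
  have h := hd_congr (S := S) (psiE F ((n : ℤ) + 1))
  have h1 := other_eq S Y
  have h2 := other_eq S Z
  unfold DK at h1 h2 ⊢
  omega

end transform

end Pool.Agent.Q94.QH
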