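import Pool.Agent.Q94.QH.Pos

/-!
# Inertia for rational Hodge structures
-/

open Module
open scoped ComplexConjugate

namespace Pool.Agent.Q94.QH

open Pool.Agent.W539.DI

variable {n : ℕ}

/-! ### The transform -/

theorem hodge_mem {X Y : KRing n} (Φ : FM X Y) {p q : ℤ} {x : X.R} (hx : x ∈ X.H (p, q)) :
    Φ.φ x ∈ ⨆ k : ℤ, Y.H (p + k, q + k) := by
  rw [← Φ.hodge p q]
  refine ⟨x, ?_, rfl⟩
  have := le_iSup (fun k : ℤ => X.H (p + k, q + k)) 0
  simp only [add_zero] at this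
  exact this hx

theorem wt_col {Y : KRing n} (w : ℤ → ℂ) {p q : ℤ} {y : Y.R}
    (hy : y ∈ ⨆ k : ℤ, Y.H (p + k, q + k)) : wt Y w y = w (p - q) • y := by
  have h : (⨆ k : ℤ, Y.H (p + k, q + k)) ≤ LinearMap.eqLocus (wt Y w) (w (p - q) • LinearMap.id) := by
    refine iSup_le fun k => ?_
    intro z hz
    rw [LinearMap.mem_eqLocus, LinearMap.smul_apply, LinearMap.id_apply]
    unfold wt
    rw [diag_of Y _ hz]
    congr 2
    ring
  exact h hy

theorem FM_wt {X Y : KRing n} (Φ : FM X Y) (w : ℤ → ℂ) (x : X.R) :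
    Φ.φ (wt X w x) = wt Y w (Φ.φ x) := by
  refine X.ind (P := fun x => Φ.φ (wt X w x) = wt Y w (Φ.φ x)) (by simp) ?_ ?_ x
  · intro x y hx hy
    simp only [map_add, hx, hy]
  · intro p q x hx
    rw [wt_col w (hodge_mem Φ hx)]
    unfold wt
    rw [diag_of X _ hx, map_smul]

theorem FM_hm {X Y : KRing n} (Φ : FM X Y) (x : X.R) : hm Y (Φ.φ x) = hm X x := by
  unfold hm WO
  rw [← FM_wt, Φ.isom]

/-- The transform as a module map. -/
noncomputable def phi {Y Z : RatCoh n} (F : RatFM Y Z) : Y.A ≃ₗ[FA] Z.A :=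
  LinearEquiv.ofBijective (lift (F.φ : Y.A →ₗ[ℚ] Z.A)
    (comm_E (F.Φ.φ : Y.X.R →ₗ[ℂ] Z.X.R) _ F.comm (fun w x => FM_wt F.Φ w x))) F.φ.bijective

theorem ι_phi {Y Z : RatCoh n} (F : RatFM Y Z) (a : Y.A) : Z.ι (phi F a) = F.Φ.φ (Y.ι a) :=
  (F.comm a).symm

/-! ### Parity -/

open Classical in
theorem dg_par {X : KRing n} (j : ℤ) (x : X.R) :
    dg X {k | Even (k - j)} x = wt X (fun i => if Even (i - j) then 1 else 0) x := by
  refine X.ind (P := fun x => dg X {k | Even (k - j)} x =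
    wt X (fun i => if Even (i - j) then 1 else 0) x) (by simp) ?_ ?_ x
  · intro x y hx hy
    simp only [map_add, hx, hy]
  · intro p q x hx
    unfold dg wt
    rw [diag_of X _ hx, diag_of X _ hx]
    congr 1
    have : (p, q).1 + (p, q).2 ∈ {k : ℤ | Even (k - j)} ↔ Even ((p, q).1 - (p, q).2 - j) := by
      change Even (p + q - j) ↔ Even (p - q - j)
      constructor
      · rintro ⟨r, hr⟩; exact ⟨r - q, by omega⟩
      · rintro ⟨r, hr⟩; exact ⟨r + q, by omega⟩
    by_cases h : Even ((p, q).1 - (p, q).2 - j)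
    · rw [if_pos (this.2 h)]
      exact (if_pos h).symm
    · rw [if_neg (fun h' => h (this.1 h'))]
      exact (if_neg h).symm

theorem phi_parity {Y Z : RatCoh n} (F : RatFM Y Z) (j : ℤ) (a : Y.A) :
    phi F a ∈ PK Z {k | Even (k - j)} ↔ a ∈ PK Y {k | Even (k - j)} := by
  classical
  have key : ∀ (Z : RatCoh n) (a : Z.A), a ∈ PK Z {k | Even (k - j)} ↔
      wt Z.X (fun i => if Even (i - j) then 1 else 0) (Z.ι a) = Z.ι a := by
    intro Z a
    rw [← dg_par]
    constructor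
    · intro h
      exact dg_same (mem_PK.1 h)
    · intro h
      rw [mem_PK, ← h]
      exact dg_mem _ _
  rw [key, key, ι_phi, ← FM_wt]
  exact ⟨fun h => F.Φ.φ.injective h, fun h => by rw [h]⟩

theorem gm_dg {Z : RatCoh n} (j : ℤ) (a : Z.A) :
    gm Z a ∈ PK Z {k | Even (k - j)} ↔ a ∈ PK Z {k | Even (k - j)} := by
  classical
  have key : ∀ (a : Z.A), a ∈ PK Z {k | Even (k - j)} ↔
      wt Z.X (fun i => if Even (i - j) then 1 else 0) (Z.ι a) = Z.ι a := by
    intro a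
    rw [← dg_par]
    constructor
    · intro h
      exact dg_same (mem_PK.1 h)
    · intro h
      rw [mem_PK, ← h]
      exact dg_mem _ _
  have hinj : ∀ x y : Z.A, gm Z x = gm Z y → x = y := fun x y h => (gm_bij Z).1 h
  rw [key, key, ι_gm, ev_wt]
  constructor
  · intro h
    let a' := pr Z {k | Even (k - j)} a
    have h1 : Z.ι a' = wt Z.X (fun i => if Even (i - j) then 1 else 0) (Z.ι a) := by
      rw [← dg_par]
      exact ι_pr Z _ a
    rw [← h1] at h ⊢
    have h2 : gm Z a' = gm Z a := by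
      apply ι_inj Z
      rw [ι_gm, ι_gm, h]
    rw [hinj _ _ h2]
  · intro h
    rw [h]

/-- Multiplication by the square root as an equivalence. -/
noncomputable def gE (Z : RatCoh n) : Z.A ≃ₗ[FA] Z.A := LinearEquiv.ofBijective (gm Z) (gm_bij Z)

/-- The normalised transform. -/
noncomputable def psi {Y Z : RatCoh n} (F : RatFM Y Z) : Y.A ≃ₗ[FA] Z.A :=
  ((gE Y).symm.trans (phi F)).trans (gE Z)

theorem psi_parity {Y Z : RatCoh n} (F : RatFM Y Z) (j : ℤ) (a : Y.A) :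
    psi F a ∈ PK Z {k | Even (k - j)} ↔ a ∈ PK Y {k | Even (k - j)} := by
  have h1 : psi F a = gm Z (phi F ((gE Y).symm a)) := rfl
  rw [h1, gm_dg, phi_parity, ← gm_dg (Z := Y)]
  have h2 : gm Y ((gE Y).symm a) = a := (gE Y).apply_symm_apply a
  rw [h2]

theorem psi_B0 {Y Z : RatCoh n} (F : RatFM Y Z) {a : Y.A} (ha : a ∈ PK Y (par n)) :
    B0 Z.X (Z.ι (psi F a)) (Z.ι (psi F a)) = B0 Y.X (Y.ι a) (Y.ι a) := by
  set b := (gE Y).symm a with hb
  have hab : a = gm Y b := ((gE Y).apply_symm_apply a).symm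
  have hbm : b ∈ PK Y (par n) := by
    have : gm Y b ∈ PK Y (par n) := hab ▸ ha
    exact (gm_dg (Z := Y) n b).1 this
  have hcm : phi F b ∈ PK Z (par n) := (phi_parity F n b).2 hbm
  have h1 : psi F a = gm Z (phi F b) := rfl
  rw [h1, ι_gm, ← hm_eq Z (mem_PK.1 hcm), ι_phi, FM_hm, hab, ι_gm, hm_eq Y (mem_PK.1 hbm)]

/-- The normalised transform in one parity. -/
noncomputable def psiE {Y Z : RatCoh n} (F : RatFM Y Z) (j : ℤ) :
    PK Y {k | Even (k - j)} ≃ₗ[FA] PK Z {k | Even (k - j)} :=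
  LinearEquiv.ofSubmodules (psi F) _ _ (by
    ext b
    constructor
    · rintro ⟨a, ha, rfl⟩
      exact (psi_parity F j a).2 ha
    · intro hb
      refine ⟨(psi F).symm b, ?_, (psi F).apply_symm_apply b⟩
      rw [SetLike.mem_coe, ← psi_parity F j, (psi F).apply_symm_apply]
      exact hb)

theorem psiE_coe {Y Z : RatCoh n} (F : RatFM Y Z) (j : ℤ) (a : PK Y {k | Even (k - j)}) :
    (psiE F j a : Z.A) = psi F a := rfl

/-! ### The definite parts -/

section parts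

variable (Z : RatCoh n)

/-- The polarization. -/
noncomputable def TT : Z.A →ₗ[FA] Z.A := (exists_pol Z).choose
theorem TT_mem {a : Z.A} (ha : a ∈ PK Z (lowS n)) : TT Z a ∈ PK Z (highS n) :=
  (exists_pol Z).choose_spec.1 a ha
theorem TT_surj {b : Z.A} (hb : b ∈ PK Z (highS n)) : ∃ a ∈ PK Z (lowS n), TT Z a = b :=
  (exists_pol Z).choose_spec.2.1 b hb
theorem TT_pos {a : Z.A} (ha : a ∈ PK Z (lowS n)) (h0 : a ≠ 0) :
    0 < B0 Z.X (Z.ι a) (Z.ι (TT Z a)) := (exists_pol Z).choose_spec.2.2 a ha h0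

theorem low_par : lowS n ⊆ par n := fun _ h => h.2
theorem high_par : highS n ⊆ par n := fun _ h => h.2
theorem mid_par : ({(n : ℤ)} : Set ℤ) ⊆ par n := by
  rw [Set.singleton_subset_iff]
  exact ⟨0, by simp⟩

/-- The value of the form. -/
theorem B0_val {a m : Z.A} (ha : a ∈ PK Z (lowS n)) (hm : m ∈ PK Z {(n : ℤ)}) (t : ℤ) :
    B0 Z.X (Z.ι (a + t • TT Z a + m)) (Z.ι (a + t • TT Z a + m)) =
      2 * t * B0 Z.X (Z.ι a) (Z.ι (TT Z a)) + SQ Z n 0 m m := by
  have hx := mem_PK.1 ha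
  have hy : Z.ι (t • TT Z a) ∈ degC Z.X (highS n) := by
    rw [map_zsmul]
    exact zsmul_mem (mem_PK.1 (TT_mem Z ha)) t
  have hz := mem_PK.1 hm
  set x := Z.ι a
  set y := Z.ι (t • TT Z a) with hyd
  set z := Z.ι m
  rw [map_add, map_add]
  simp only [B0_add_left, B0_add_right]
  have l1 : B0 Z.X x x = 0 := B0_degrees (K := lowS n) (L := lowS n) (fun k hk l hl => by
    have := hk.1; have := hl.1; omega) hx hx
  have l2 : B0 Z.X y y = 0 := B0_degrees (K := highS n) (L := highS n) (fun k hk l hl => by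
    have := hk.1; have := hl.1; omega) hy hy
  have l3 : B0 Z.X x z = 0 := B0_degrees (K := lowS n) (L := {(n : ℤ)}) (fun k hk l hl => by
    have := hk.1; rw [Set.mem_singleton_iff] at hl; omega) hx hz
  have l4 : B0 Z.X z x = 0 := B0_degrees (K := {(n : ℤ)}) (L := lowS n) (fun k hk l hl => by
    have := hl.1; rw [Set.mem_singleton_iff] at hk; omega) hz hx
  have l5 : B0 Z.X y z = 0 := B0_degrees (K := highS n) (L := {(n : ℤ)}) (fun k hk l hl => by
    have := hk.1; rw [Set.mem_singleton_iff] at hl; omega) hy hz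
  have l6 : B0 Z.X z y = 0 := B0_degrees (K := {(n : ℤ)}) (L := highS n) (fun k hk l hl => by
    have := hl.1; rw [Set.mem_singleton_iff] at hk; omega) hz hy
  have l7 : B0 Z.X y x = B0 Z.X x y :=
    B0_symm (degC_mono low_par hx) (degC_mono high_par hy)
  have l8 : B0 Z.X x y = t * B0 Z.X x (Z.ι (TT Z a)) := by
    rw [hyd, map_zsmul, B0_eq, B0_eq, map_zsmul, zsmul_eq_mul]
    simp
  have l9 : B0 Z.X z z = SQ Z n 0 m m := by
    have := B0_SQ (X := Z.X) (k := n) (m := 0) (by simp) (by simp) hz z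
    rw [pow_zero, one_mul] at this
    exact this
  rw [l1, l2, l3, l4, l5, l6, l7, l8, l9]
  ring

theorem NN_mid1 : (NN Z n).1 ≤ PK Z {(n : ℤ)} := (good (Z := Z) n le_rfl).sup ▸ le_sup_left
theorem NN_mid2 : (NN Z n).2 ≤ PK Z {(n : ℤ)} := (good (Z := Z) n le_rfl).sup ▸ le_sup_right

/-- The maps `(a, m) ↦ a ± T a + m`. -/
noncomputable def pm (t : ℤ) (N : Submodule FA Z.A) (hN : N ≤ PK Z {(n : ℤ)}) :
    (PK Z (lowS n) × N) →ₗ[FA] PK Z (par n) :=
  LinearMap.codRestrict (PK Z (par n))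
    (LinearMap.coprod ((LinearMap.id + t • TT Z) ∘ₗ (PK Z (lowS n)).subtype) N.subtype)
    (fun x => Submodule.add_mem _ (Submodule.add_mem _ (PK_mono low_par x.1.2)
      (Submodule.smul_of_tower_mem _ t (PK_mono high_par (TT_mem Z x.1.2))))
      (PK_mono mid_par (hN x.2.2)))

theorem pm_coe (t : ℤ) (N : Submodule FA Z.A) (hN : N ≤ PK Z {(n : ℤ)})
    (x : PK Z (lowS n) × N) : (pm Z t N hN x : Z.A) = x.1 + t • TT Z x.1 + x.2 := rfl

/-- The quadratic function. -/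
noncomputable def q0 (v : PK Z (par n)) : ℝ := B0 Z.X (Z.ι v) (Z.ι v)

theorem q0_pm (t : ℤ) (N : Submodule FA Z.A) (hN : N ≤ PK Z {(n : ℤ)})
    (x : PK Z (lowS n) × N) : q0 Z (pm Z t N hN x) =
      2 * t * B0 Z.X (Z.ι x.1) (Z.ι (TT Z x.1)) + SQ Z n 0 x.2 x.2 := by
  unfold q0
  rw [pm_coe]
  exact B0_val Z x.1.2 (hN x.2.2) t

theorem SQ_nonneg1 (m : (NN Z n).1) : 0 ≤ SQ Z n 0 m m ∧ (m ≠ 0 → 0 < SQ Z n 0 m m) := by
  have g := good (Z := Z) n le_rfl
  have h : m ≠ 0 → 0 < SQ Z n 0 m m := by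
    intro h0
    have := g.pos m m.2 (fun h' => h0 (Subtype.ext h'))
    rwa [Nat.sub_self] at this
  refine ⟨?_, h⟩
  by_cases h0 : m = 0
  · rw [h0, Submodule.coe_zero, SQ_zero]
  · exact (h h0).le

theorem SQ_nonpos2 (m : (NN Z n).2) : SQ Z n 0 m m ≤ 0 ∧ (m ≠ 0 → SQ Z n 0 m m < 0) := by
  have g := good (Z := Z) n le_rfl
  have h : m ≠ 0 → SQ Z n 0 m m < 0 := by
    intro h0
    have := g.neg m m.2 (fun h' => h0 (Subtype.ext h'))
    rwa [Nat.sub_self] at this
  refine ⟨?_, h⟩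
  by_cases h0 : m = 0
  · rw [h0, Submodule.coe_zero, SQ_zero]
  · exact (h h0).le

theorem TT_nonneg (a : PK Z (lowS n)) : 0 ≤ B0 Z.X (Z.ι a) (Z.ι (TT Z a)) := by
  by_cases h0 : a = 0
  · rw [h0]
    simp [B0]
  · exact (TT_pos Z a.2 (fun h' => h0 (Subtype.ext h'))).le

theorem pos_p (x : PK Z (lowS n) × (NN Z n).1) (hx : x ≠ 0) :
    0 < q0 Z (pm Z 1 _ (NN_mid1 Z) x) := by
  rw [q0_pm]
  have h1 := TT_nonneg Z x.1
  have h2 := SQ_nonneg1 Z x.2
  push_cast
  by_cases ha : x.1 = 0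
  · have hm : x.2 ≠ 0 := fun h => hx (Prod.ext ha h)
    have := h2.2 hm
    linarith
  · have := TT_pos Z x.1.2 (fun h' => ha (Subtype.ext h'))
    have := h2.1
    linarith

theorem neg_p (x : PK Z (lowS n) × (NN Z n).2) (hx : x ≠ 0) :
    q0 Z (pm Z (-1) _ (NN_mid2 Z) x) < 0 := by
  rw [q0_pm]
  have h1 := TT_nonneg Z x.1
  have h2 := SQ_nonpos2 Z x.2
  push_cast
  by_cases ha : x.1 = 0
  · have hm : x.2 ≠ 0 := fun h => hx (Prod.ext ha h)
    have := h2.2 hm
    linarith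
  · have := TT_pos Z x.1.2 (fun h' => ha (Subtype.ext h'))
    have := h2.1
    linarith

theorem q0_neg (v : PK Z (par n)) : q0 Z (-v) = q0 Z v := by
  unfold q0
  rw [Submodule.coe_neg, map_neg, B0_neg_left, B0_neg_right, neg_neg]

theorem q0_zero : q0 Z 0 = 0 := by
  unfold q0
  simp [B0]

/-- The whole parity part. -/
noncomputable def wholeE : ((PK Z (lowS n) × (NN Z n).1) × (PK Z (lowS n) × (NN Z n).2)) ≃ₗ[FA]
    PK Z (par n) := by
  refine LinearEquiv.ofBijective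
    (LinearMap.coprod (pm Z 1 _ (NN_mid1 Z)) (pm Z (-1) _ (NN_mid2 Z))) ⟨?_, ?_⟩
  · rw [injective_iff_map_eq_zero]
    rintro ⟨x, y⟩ hxy
    rw [LinearMap.coprod_apply] at hxy
    have h1 : pm Z 1 _ (NN_mid1 Z) x = -pm Z (-1) _ (NN_mid2 Z) y := eq_neg_of_add_eq_zero_left hxy
    have hy0 : q0 Z (pm Z (-1) _ (NN_mid2 Z) y) ≤ 0 := by
      by_cases hy : y = 0
      · rw [hy, map_zero, q0_zero]
      · exact (neg_p Z y hy).le
    have hx : x = 0 := by
      by_contra hx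
      have := pos_p Z x hx
      rw [h1, q0_neg] at this
      linarith
    have hy : y = 0 := by
      by_contra hy
      have := neg_p Z y hy
      rw [← q0_neg, ← h1, hx, map_zero, q0_zero] at this
      linarith
    rw [hx, hy]
    rfl
  · rintro ⟨v, hv⟩
    have e1 : par n = lowS n ∪ ({(n : ℤ)} ∪ highS n) := by
      ext k
      constructor
      · intro hk
        rcases lt_trichotomy k n with h | h | h
        · exact Or.inl ⟨h, hk⟩
        · exact Or.inr (Or.inl h)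
        · exact Or.inr (Or.inr ⟨h, hk⟩)
      · rintro (h | h | h)
        · exact h.2
        · rw [Set.mem_singleton_iff] at h
          exact mid_par (by rw [h]; rfl)
        · exact h.2
    have hv2 : v ∈ PK Z (lowS n ∪ ({(n : ℤ)} ∪ highS n)) := e1 ▸ hv
    have s1 := pr_union (Z := Z) (K := lowS n) (L := {(n : ℤ)} ∪ highS n) (by
      rintro k hk (h | h)
      · rw [Set.mem_singleton_iff] at h
        have := hk.1
        omega
      · have := hk.1
        have := h.1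
        omega) hv2
    have s2 := pr_union (Z := Z) (K := {(n : ℤ)}) (L := highS n) (by
      intro k hk h
      rw [Set.mem_singleton_iff] at hk
      have := h.1
      omega) (pr_mem (Z := Z) ({(n : ℤ)} ∪ highS n) v)
    set l := pr Z (lowS n) v with hl
    set r := pr Z ({(n : ℤ)} ∪ highS n) v with hr
    set m := pr Z {(n : ℤ)} r with hm
    set h := pr Z (highS n) r with hh
    obtain ⟨c, hc, hch⟩ := TT_surj Z (pr_mem (Z := Z) (highS n) r)
    have hmm : m ∈ (NN Z n).1 ⊔ (NN Z n).2 := by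
      rw [(good (Z := Z) n le_rfl).sup]
      exact pr_mem _ _
    obtain ⟨m1, hm1, m2, hm2, hm12⟩ := Submodule.mem_sup.1 hmm
    have hl' : l ∈ PK Z (lowS n) := pr_mem _ _
    refine ⟨((⟨(1 / 2 : ℚ) • (l + c), Submodule.smul_of_tower_mem _ _ (Submodule.add_mem _ hl' hc)⟩,
      ⟨m1, hm1⟩), (⟨(1 / 2 : ℚ) • (l - c),
        Submodule.smul_of_tower_mem _ _ (Submodule.sub_mem _ hl' hc)⟩, ⟨m2, hm2⟩)), ?_⟩
    apply Subtype.ext
    rw [LinearMap.coprod_apply, Submodule.coe_add, pm_coe, pm_coe]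
    change (1 / 2 : ℚ) • (l + c) + (1 : ℤ) • TT Z ((1 / 2 : ℚ) • (l + c)) + m1 +
      ((1 / 2 : ℚ) • (l - c) + (-1 : ℤ) • TT Z ((1 / 2 : ℚ) • (l - c)) + m2) = v
    have hT : ∀ (r : ℚ) (a : Z.A), TT Z (r • a) = r • TT Z a := fun r a =>
      map_smul ((TT Z).restrictScalars ℚ) r a
    have hch' : TT Z c = h := hch
    rw [hT, hT, map_add, map_sub, hch', ← s1, ← s2, ← hm12]
    module

end parts

/-! ### Inertia -/

theorem hd_of_inj {S P P' : Type} [AddCommGroup S] [Module FA S] [Module ℚ S]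
    [IsScalarTower ℚ FA S] [AddCommGroup P] [Module FA P] [Module ℚ P] [IsScalarTower ℚ FA P]
    [AddCommGroup P'] [Module FA P'] [Module ℚ P'] [IsScalarTower ℚ FA P']
    [FiniteDimensional ℚ P] [FiniteDimensional ℚ P'] (f : P →ₗ[FA] P') (f' : P' →ₗ[FA] P)
    (hf : Function.Injective f) (hf' : Function.Injective f') :
    hd (A := FA) S P = hd (A := FA) S P' := by
  have h1 : finrank ℚ P ≤ finrank ℚ P' :=
    LinearMap.finrank_le_finrank_of_injective (f := f.restrictScalars ℚ) hf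
  have h2 : finrank ℚ P' ≤ finrank ℚ P :=
    LinearMap.finrank_le_finrank_of_injective (f := f'.restrictScalars ℚ) hf'
  have h3 : Function.Surjective (f.restrictScalars ℚ) :=
    (LinearMap.injective_iff_surjective_of_finrank_eq_finrank (le_antisymm h1 h2)).1 hf
  exact hd_congr (LinearEquiv.ofBijective f ⟨hf, h3⟩)

/-- One half of the inertia argument. -/
theorem exists_inj {Y Z : RatCoh n} (e : PK Y (par n) ≃ₗ[FA] PK Z (par n))
    (he : ∀ v, q0 Z (e v) = q0 Y v) :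
    (∃ f : (PK Y (lowS n) × (NN Y n).1) →ₗ[FA] (PK Z (lowS n) × (NN Z n).1),
      Function.Injective f) ∧
    (∃ f : (PK Y (lowS n) × (NN Y n).2) →ₗ[FA] (PK Z (lowS n) × (NN Z n).2),
      Function.Injective f) := by
  constructor
  · refine ⟨LinearMap.fst FA _ _ ∘ₗ (wholeE Z).symm.toLinearMap ∘ₗ e.toLinearMap ∘ₗ
      pm Y 1 _ (NN_mid1 Y), ?_⟩
    rw [injective_iff_map_eq_zero]
    intro x hx
    by_contra hx0
    have h1 := pos_p Y x hx0
    rw [← he] at h1
    set w := (wholeE Z).symm (e (pm Y 1 _ (NN_mid1 Y) x)) with hw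
    have hw1 : w.1 = 0 := hx
    have h2 : e (pm Y 1 _ (NN_mid1 Y) x) = wholeE Z w := ((wholeE Z).apply_symm_apply _).symm
    have h3 : wholeE Z w = pm Z (-1) _ (NN_mid2 Z) w.2 := by
      change pm Z 1 _ (NN_mid1 Z) w.1 + pm Z (-1) _ (NN_mid2 Z) w.2 = _
      rw [hw1, map_zero, zero_add]
    rw [h2, h3] at h1
    by_cases h4 : w.2 = 0
    · rw [h4, map_zero, q0_zero] at h1
      exact lt_irrefl _ h1
    · linarith [neg_p Z w.2 h4]
  · refine ⟨LinearMap.snd FA _ _ ∘ₗ (wholeE Z).symm.toLinearMap ∘ₗ e.toLinearMap ∘ₗ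
      pm Y (-1) _ (NN_mid2 Y), ?_⟩
    rw [injective_iff_map_eq_zero]
    intro x hx
    by_contra hx0
    have h1 := neg_p Y x hx0
    rw [← he] at h1
    set w := (wholeE Z).symm (e (pm Y (-1) _ (NN_mid2 Y) x)) with hw
    have hw1 : w.2 = 0 := hx
    have h2 : e (pm Y (-1) _ (NN_mid2 Y) x) = wholeE Z w := ((wholeE Z).apply_symm_apply _).symm
    have h3 : wholeE Z w = pm Z 1 _ (NN_mid1 Z) w.1 := by
      change pm Z 1 _ (NN_mid1 Z) w.1 + pm Z (-1) _ (NN_mid2 Z) w.2 = _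
      rw [hw1, map_zero, add_zero]
    rw [h2, h3] at h1
    by_cases h4 : w.1 = 0
    · rw [h4, map_zero, q0_zero] at h1
      exact lt_irrefl _ h1
    · linarith [pos_p Z w.1 h4]

end Pool.Agent.Q94.QH
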