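import Pool.Agent.Q94.QH.Ops

/-!
# The hard Lefschetz theorem over the rational numbers, and forms
-/

open Module
open scoped ComplexConjugate

namespace Pool.Agent.Q94.QH

open Pool.Agent.W539.DI

variable {n : ℕ}

section complex

variable (X : KRing n)

/-- The component of type `i`. -/
noncomputable def cp (i : ℤ × ℤ) : X.R →ₗ[ℂ] X.R := diag X (Pi.single i 1)

variable {X}

theorem cp_eq (i : ℤ × ℤ) (x : X.R) : cp X i x = (DirectSum.decompose X.H x i : X.R) := by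
  refine X.ind (P := fun x => cp X i x = (DirectSum.decompose X.H x i : X.R)) ?_ ?_ ?_ x
  · simp
  · intro x y hx hy
    rw [map_add, DirectSum.decompose_add, DirectSum.add_apply, Submodule.coe_add, hx, hy]
  · intro p q x hx
    unfold cp
    rw [diag_of X _ hx]
    by_cases h : (p, q) = i
    · subst h
      rw [Pi.single_eq_same, one_smul, DirectSum.decompose_of_mem_same X.H hx]
    · rw [Pi.single_eq_of_ne h, zero_smul, DirectSum.decompose_of_mem_ne X.H hx h]

theorem cp_mem (i : ℤ × ℤ) (x : X.R) : cp X i x ∈ X.H i := by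
  rw [cp_eq]
  exact Submodule.coe_mem _

theorem exists_sum (x : X.R) : ∃ S : Finset (ℤ × ℤ), x = ∑ i ∈ S, cp X i x := by
  classical
  refine ⟨(DirectSum.decompose X.H x).support, ?_⟩
  conv_lhs => rw [← DirectSum.sum_support_decompose X.H x]
  exact Finset.sum_congr rfl fun i _ => (cp_eq i x).symm

theorem eq_zero_of_cp {x : X.R} (h : ∀ i, cp X i x = 0) : x = 0 := by
  obtain ⟨S, hS⟩ := exists_sum x
  rw [hS]
  exact Finset.sum_eq_zero fun i _ => h i

theorem cp_mul {z : X.R} (hz : z ∈ X.H (1, 1)) (m : ℕ) (p q : ℤ) (x : X.R) :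
    cp X (p + m, q + m) (z ^ m * x) = z ^ m * cp X (p, q) x := by
  unfold cp
  rw [diag_mul X _ hz]
  have e : (fun pq : ℤ × ℤ => (Pi.single (p + m, q + m) 1 : ℤ × ℤ → ℂ) (pq.1 + m, pq.2 + m)) =
      Pi.single (p, q) 1 := by
    funext pq
    by_cases h : pq = (p, q)
    · subst h
      rw [Pi.single_eq_same, Pi.single_eq_same]
    · rw [Pi.single_eq_of_ne h, Pi.single_eq_of_ne]
      intro h'
      apply h
      rw [Prod.mk.injEq] at h'
      ext <;> simp <;> omega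
  rw [e]

theorem cp_disj {K : Set ℤ} {x : X.R} (hx : x ∈ degC X K) {i : ℤ × ℤ} (hi : i.1 + i.2 ∉ K) :
    cp X i x = 0 := by
  have h : degC X K ≤ LinearMap.ker (cp X i) := by
    refine iSup_le fun pq => ?_
    intro y hy
    rw [LinearMap.mem_ker]
    unfold cp
    rw [diag_of X _ hy, Pi.single_eq_of_ne, zero_smul]
    intro h
    exact hi (h ▸ pq.2)
  exact h hx

theorem hlC_inj {s : ℤ} {m : ℕ} (h : s + m = n) {x : X.R} (hx : x ∈ degC X {s})
    (h0 : X.ω ^ m * x = 0) : x = 0 := by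
  refine eq_zero_of_cp fun i => ?_
  by_cases hi : i.1 + i.2 ∈ ({s} : Set ℤ)
  · rw [Set.mem_singleton_iff] at hi
    refine X.hl_inj i.1 i.2 m (by omega) _ (cp_mem i x) ?_
    have := cp_mul X.ω_mem m i.1 i.2 x
    rw [h0, map_zero] at this
    exact this.symm
  · exact cp_disj hx hi

theorem hlC_surj {s : ℤ} {m : ℕ} (h : s + m = n) {y : X.R} (hy : y ∈ degC X {s + 2 * m}) :
    ∃ x ∈ degC X {s}, X.ω ^ m * x = y := by
  have key : degC X {s + 2 * (m : ℤ)} ≤ Submodule.map (LinearMap.mulLeft ℂ (X.ω ^ m))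
      (degC X {s}) := by
    refine iSup_le fun pq => ?_
    intro y hy
    have h1 : pq.1.1 + pq.1.2 = s + 2 * m := pq.2
    obtain ⟨x, hx, hxy⟩ := X.hl_surj (pq.1.1 - m) (pq.1.2 - m) m (by omega) y (by
      rw [sub_add_cancel, sub_add_cancel]; exact hy)
    refine ⟨x, mem_degC ?_ hx, hxy⟩
    rw [Set.mem_singleton_iff]
    omega
  exact key hy

theorem mul_degC {z : X.R} (hz : z ∈ X.H (1, 1)) (m : ℕ) {s : ℤ} {x : X.R}
    (hx : x ∈ degC X {s}) : z ^ m * x ∈ degC X {s + 2 * m} := by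
  have key : degC X {s} ≤ Submodule.comap (LinearMap.mulLeft ℂ (z ^ m))
      (degC X {s + 2 * (m : ℤ)}) := by
    refine iSup_le ?_
    rintro ⟨⟨p, q⟩, hpq⟩ y hy
    have h1 : p + q = s := hpq
    refine mem_degC (p := p + m) (q := q + m) ?_ (X.pow_mul_mem hz m hy)
    rw [Set.mem_singleton_iff]
    omega
  exact key hx

/-- The bilinear form `∫ z ^ m f(x) y`. -/
noncomputable def BB (X : KRing n) (z : X.R) (m : ℕ) (f : ℤ × ℤ → ℂ) : X.R →ₗ[ℂ] X.R →ₗ[ℂ] ℂ :=
  LinearMap.mk₂ ℂ (fun x y => X.tr (z ^ m * (diag X f x * y)))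
    (fun x x' y => by rw [map_add, add_mul, mul_add, map_add])
    (fun r x y => by rw [map_smul, smul_mul_assoc, mul_smul_comm, map_smul])
    (fun x y y' => by rw [mul_add, mul_add, map_add])
    (fun r x y => by rw [mul_smul_comm, mul_smul_comm, map_smul])

theorem BB_apply (z : X.R) (m : ℕ) (f : ℤ × ℤ → ℂ) (x y : X.R) :
    BB X z m f x y = X.tr (z ^ m * (diag X f x * y)) := rfl

theorem BB_hom {z : X.R} (hz : z ∈ X.H (1, 1)) (m : ℕ) (f : ℤ × ℤ → ℂ) {p q p' q' : ℤ} {x y : X.R}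
    (hx : x ∈ X.H (p, q)) (hy : y ∈ X.H (p', q'))
    (h : ¬ (p + p' + m = n ∧ q + q' + m = n)) : BB X z m f x y = 0 := by
  rw [BB_apply, diag_of X _ hx, smul_mul_assoc, mul_smul_comm, map_smul,
    X.tr_van _ _ _ (X.pow_mul_mem hz m (X.mul_mem hx hy)) h, smul_zero]

theorem BB_symm {z : X.R} (hz : z ∈ X.H (1, 1)) (m : ℕ) (f : ℤ × ℤ → ℂ) (κ : ℂ) (K : Set ℤ)
    (hf : ∀ p q : ℤ, p + q ∈ K → (n - m - p) + (n - m - q) ∈ K →
      (-1 : ℂ) ^ ((n - m - p + (n - m - q)) * (p + q)) * f (n - m - p, n - m - q) = κ * f (p, q))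
    {x y : X.R} (hx : x ∈ degC X K) (hy : y ∈ degC X K) :
    BB X z m f y x = κ * BB X z m f x y := by
  set D : X.R →ₗ[ℂ] X.R →ₗ[ℂ] ℂ := (BB X z m f).flip - κ • BB X z m f with hD
  have hDa : ∀ x y, D x y = BB X z m f y x - κ * BB X z m f x y := fun x y => rfl
  have hom : ∀ pq ∈ {pq : ℤ × ℤ | pq.1 + pq.2 ∈ K}, ∀ pq' ∈ {pq : ℤ × ℤ | pq.1 + pq.2 ∈ K},
      ∀ x ∈ X.H pq, ∀ y ∈ X.H pq', D x y = 0 := by
    rintro ⟨p, q⟩ hpq ⟨p', q'⟩ hpq' x hx y hy
    rw [hDa, sub_eq_zero]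
    by_cases h : p + p' + m = n ∧ q + q' + m = n
    · obtain ⟨h1, h2⟩ := h
      have e1 : p' = n - m - p := by omega
      have e2 : q' = n - m - q := by omega
      subst e1 e2
      rw [BB_apply, BB_apply, diag_of X _ hx, diag_of X _ hy, smul_mul_assoc, smul_mul_assoc,
        X.comm _ _ _ _ y x hy hx]
      simp only [mul_smul_comm, map_smul, smul_eq_mul]
      rw [← mul_assoc, mul_comm (f _), hf p q hpq hpq']
      ring
    · rw [BB_hom hz m f hx hy h, BB_hom hz m f hy hx (by omega), mul_zero]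
  have h1 : ∀ pq ∈ {pq : ℤ × ℤ | pq.1 + pq.2 ∈ K}, ∀ x ∈ X.H pq, ∀ y ∈ degC X K, D x y = 0 := by
    intro pq hpq x hx y hy
    have : degC X K ≤ LinearMap.ker (D x) := iSup_le fun pq' y' hy' =>
      hom pq hpq pq'.1 pq'.2 x hx y' hy'
    exact this hy
  have h2 : degC X K ≤ LinearMap.ker (D.flip y) := iSup_le fun pq x' hx' =>
    h1 pq.1 pq.2 x' hx' y hy
  have h3 : D x y = 0 := h2 hx
  rw [hDa, sub_eq_zero] at h3
  exact h3

/-- The Weil operator: multiplication by `i ^ (p - q)`. -/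
noncomputable def wf (pq : ℤ × ℤ) : ℂ := Complex.I ^ (pq.1 - pq.2)

theorem I_zpow_two (k : ℤ) : Complex.I ^ (2 * k) = (-1 : ℂ) ^ k := by
  rw [zpow_mul]
  congr 1
  rw [show (2 : ℤ) = ((2 : ℕ) : ℤ) from rfl, zpow_natCast, Complex.I_sq]

theorem neg_one_zpow_eq {a b : ℤ} (h : Even (a - b)) : (-1 : ℂ) ^ a = (-1 : ℂ) ^ b := by
  have : a = b + (a - b) := by ring
  rw [this, zpow_add₀ (by norm_num), Even.neg_one_zpow h, mul_one]

theorem W_symm {z : X.R} (hz : z ∈ X.H (1, 1)) (m : ℕ) (x y : X.R) :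
    BB X z m wf y x = BB X z m wf x y := by
  have huniv : ∀ x : X.R, x ∈ degC X Set.univ := by
    intro x
    refine X.ind (P := fun x => x ∈ degC X Set.univ) (Submodule.zero_mem _)
      (fun _ _ => Submodule.add_mem _) (fun p q x hx => mem_degC (Set.mem_univ _) hx) x
  have := BB_symm hz m wf 1 Set.univ (fun p q _ _ => by
    unfold wf
    simp only
    rw [one_mul]
    have e1 : (n - m - p - (n - m - q) : ℤ) = (p - q) + 2 * (q - p) := by ring
    rw [e1, zpow_add₀ Complex.I_ne_zero, I_zpow_two, mul_comm (Complex.I ^ (p - q)), ← mul_assoc,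
      ← zpow_add₀ (by norm_num : (-1 : ℂ) ≠ 0)]
    have e2 : (-1 : ℂ) ^ ((n - m - p + (n - m - q)) * (p + q) + (q - p)) = 1 := by
      apply Even.neg_one_zpow
      have e3 : ((n : ℤ) - m - p + (n - m - q)) * (p + q) + (q - p) =
          2 * ((n - m) * (p + q) - p) - (p + q) * ((p + q) - 1) := by ring
      rw [e3]
      exact Even.sub (even_two_mul _) (Int.even_mul_pred_self _)
    rw [e2, one_mul]) (huniv x) (huniv y)
  rwa [one_mul] at this

end complex

end Pool.Agent.Q94.QH
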