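import Pool.Agent.Q94.QH.Base

/-!
# Multiplications and projections to degrees as module maps
-/

open Module

namespace Pool.Agent.Q94.QH

open Pool.Agent.W539.DI

variable {n : ℕ}

section complex

variable (X : KRing n)

/-- Multiplication by a class of type `(1, 1)` and diagonal operators. -/
theorem diag_mul (f : ℤ × ℤ → ℂ) {z : X.R} (hz : z ∈ X.H (1, 1)) (m : ℕ) (x : X.R) :
    diag X f (z ^ m * x) = z ^ m * diag X (fun pq => f (pq.1 + m, pq.2 + m)) x := by
  refine X.ind (P := fun x => diag X f (z ^ m * x) =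
    z ^ m * diag X (fun pq => f (pq.1 + m, pq.2 + m)) x) ?_ ?_ ?_ x
  · simp
  · intro x y hx hy
    rw [mul_add, map_add, map_add, mul_add, hx, hy]
  · intro p q x hx
    rw [diag_of X f (X.pow_mul_mem hz m hx), diag_of X _ hx, mul_smul_comm]

theorem wt_mul (w : ℤ → ℂ) {z : X.R} (hz : z ∈ X.H (1, 1)) (m : ℕ) (x : X.R) :
    wt X w (z ^ m * x) = z ^ m * wt X w x := by
  unfold wt
  rw [diag_mul X _ hz]
  have e : (fun pq : ℤ × ℤ => w (pq.1 + m - (pq.2 + m))) = fun pq : ℤ × ℤ => w (pq.1 - pq.2) := by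
    funext pq
    congr 1
    ring
  exact congrArg (fun f => z ^ m * diag X f x) e

open Classical in
/-- The projection to the degrees in `K`. -/
noncomputable def dg (K : Set ℤ) : X.R →ₗ[ℂ] X.R :=
  diag X (fun pq => if pq.1 + pq.2 ∈ K then 1 else 0)

variable {X}

theorem dg_same {K : Set ℤ} {x : X.R} (hx : x ∈ degC X K) : dg X K x = x := by
  have h : degC X K ≤ LinearMap.eqLocus (dg X K) LinearMap.id := by
    refine iSup_le fun pq => ?_
    intro y hy
    rw [LinearMap.mem_eqLocus, LinearMap.id_apply]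
    unfold dg
    rw [diag_of X _ hy, if_pos pq.2, one_smul]
  exact h hx

theorem dg_disj {K L : Set ℤ} (hKL : ∀ k ∈ K, k ∉ L) {x : X.R} (hx : x ∈ degC X K) :
    dg X L x = 0 := by
  have h : degC X K ≤ LinearMap.ker (dg X L) := by
    refine iSup_le fun pq => ?_
    intro y hy
    rw [LinearMap.mem_ker]
    unfold dg
    rw [diag_of X _ hy, if_neg (hKL _ pq.2), zero_smul]
  exact h hx

theorem mem_degC {K : Set ℤ} {p q : ℤ} (h : p + q ∈ K) {x : X.R} (hx : x ∈ X.H (p, q)) :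
    x ∈ degC X K :=
  (le_iSup (fun pq : {pq : ℤ × ℤ // pq.1 + pq.2 ∈ K} => X.H pq) ⟨(p, q), h⟩) hx

theorem degC_mono {K L : Set ℤ} (h : K ⊆ L) : degC X K ≤ degC X L :=
  iSup_le fun pq => fun _ hx => mem_degC (h pq.2) hx

theorem dg_mem (K : Set ℤ) (x : X.R) : dg X K x ∈ degC X K := by
  refine X.ind (P := fun x => dg X K x ∈ degC X K) ?_ ?_ ?_ x
  · rw [map_zero]; exact Submodule.zero_mem _
  · intro x y hx hy
    rw [map_add]; exact Submodule.add_mem _ hx hy
  · intro p q x hx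
    unfold dg
    rw [diag_of X _ hx]
    split_ifs with h
    · rw [one_smul]; exact mem_degC h hx
    · rw [zero_smul]; exact Submodule.zero_mem _

theorem dg_wt (K : Set ℤ) (w : ℤ → ℂ) (x : X.R) : dg X K (wt X w x) = wt X w (dg X K x) := by
  unfold dg wt
  rw [diag_comp, diag_comp]
  congr 2
  funext pq
  rw [mul_comm]

end complex

variable (Z : RatCoh n)

/-- A linear function with `l 1 = 1`. -/
theorem exists_one : ∃ l : ℂ →ₗ[ℚ] ℚ, l 1 = 1 :=
  Module.Projective.exists_dual_eq_one ℚ one_ne_zero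

/-- The rational part. -/
noncomputable def T1 : Z.X.R →+ Z.A := T Z exists_one.choose

theorem T1_ι (a : Z.A) : T1 Z (Z.ι a) = a := by
  have := T_smul Z exists_one.choose 1 a
  rwa [one_smul, exists_one.choose_spec, one_smul] at this

theorem exists_dg (K : Set ℤ) (a : Z.A) : ∃ b, Z.ι b = dg Z.X K (Z.ι a) := by
  classical
  obtain ⟨a', h1, h2⟩ := Z.deg a
  refine ⟨∑ k ∈ Finset.Icc 0 (2 * (n : ℤ)), if k ∈ K then a' k else 0, ?_⟩
  rw [h2, map_sum, map_sum, map_sum]
  refine Finset.sum_congr rfl fun k _ => ?_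
  split_ifs with h
  · exact (dg_same (degC_mono (Set.singleton_subset_iff.2 h) (h1 k))).symm
  · rw [map_zero]
    exact (dg_disj (by intro j hj; rw [Set.mem_singleton_iff] at hj; rw [hj]; exact h) (h1 k)).symm

/-- The projection to the degrees in `K`, on rational classes. -/
noncomputable def prQ (K : Set ℤ) : Z.A →ₗ[ℚ] Z.A where
  toFun a := T1 Z (dg Z.X K (Z.ι a))
  map_add' a b := by rw [map_add, map_add, map_add]
  map_smul' r a := by
    obtain ⟨b, hb⟩ := exists_dg Z K a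
    change T1 Z (dg Z.X K (Z.ι (r • a))) = r • T1 Z (dg Z.X K (Z.ι a))
    rw [ι_smul, map_smul, ← hb, ← ι_smul, T1_ι, T1_ι]

theorem ι_prQ (K : Set ℤ) (a : Z.A) : Z.ι (prQ Z K a) = dg Z.X K (Z.ι a) := by
  obtain ⟨b, hb⟩ := exists_dg Z K a
  change Z.ι (T1 Z (dg Z.X K (Z.ι a))) = _
  rw [← hb, T1_ι]

/-- The projection to the degrees in `K`, as a module map. -/
noncomputable def pr (K : Set ℤ) : Z.A →ₗ[FA] Z.A :=
  lift (prQ Z K) (comm_E (dg Z.X K) (prQ Z K) (fun a => (ι_prQ Z K a).symm)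
    fun w x => dg_wt K w x)

theorem ι_pr (K : Set ℤ) (a : Z.A) : Z.ι (pr Z K a) = dg Z.X K (Z.ι a) := ι_prQ Z K a

/-- The rational cohomology in the degrees in `K`, as a submodule. -/
noncomputable def PK (K : Set ℤ) : Submodule FA Z.A := LinearMap.range (pr Z K)

variable {Z}

theorem mem_PK {K : Set ℤ} {a : Z.A} : a ∈ PK Z K ↔ Z.ι a ∈ degC Z.X K := by
  constructor
  · rintro ⟨b, rfl⟩
    rw [ι_pr]
    exact dg_mem K _
  · intro h
    refine ⟨a, ?_⟩
    apply ι_inj Z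
    rw [ι_pr, dg_same h]

theorem pr_same {K : Set ℤ} {a : Z.A} (h : a ∈ PK Z K) : pr Z K a = a := by
  apply ι_inj Z
  rw [ι_pr, dg_same (mem_PK.1 h)]

theorem pr_disj {K L : Set ℤ} (hKL : ∀ k ∈ K, k ∉ L) {a : Z.A} (h : a ∈ PK Z K) :
    pr Z L a = 0 := by
  apply ι_inj Z
  rw [ι_pr, dg_disj hKL (mem_PK.1 h), map_zero]

theorem pr_mem (K : Set ℤ) (a : Z.A) : pr Z K a ∈ PK Z K := ⟨a, rfl⟩

theorem PK_mono {K L : Set ℤ} (h : K ⊆ L) : PK Z K ≤ PK Z L :=
  fun _ ha => mem_PK.2 (degC_mono h (mem_PK.1 ha))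

open Classical in
theorem pr_union {K L : Set ℤ} (hKL : ∀ k ∈ K, k ∉ L) {a : Z.A} (h : a ∈ PK Z (K ∪ L)) :
    pr Z K a + pr Z L a = a := by
  apply ι_inj Z
  rw [map_add, ι_pr, ι_pr]
  conv_rhs => rw [← dg_same (mem_PK.1 h)]
  unfold dg
  rw [diag_add]
  congr 2
  funext pq
  by_cases h1 : pq.1 + pq.2 ∈ K
  · have h2 := hKL _ h1
    simp [h1, h2]
  · by_cases h2 : pq.1 + pq.2 ∈ L
    · simp [h1, h2]
    · simp [h1, h2]

/-- Decomposition of the degrees. -/
noncomputable def unionEquiv {K L : Set ℤ} (hKL : ∀ k ∈ K, k ∉ L) :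
    PK Z (K ∪ L) ≃ₗ[FA] PK Z K × PK Z L :=
  have hLK : ∀ k ∈ L, k ∉ K := fun k hk hk' => hKL k hk' hk
  { toFun := fun a => (⟨pr Z K a, pr_mem K _⟩, ⟨pr Z L a, pr_mem L _⟩)
    map_add' := fun a b => by ext <;> simp
    map_smul' := fun r a => by ext <;> simp
    invFun := fun a => ⟨a.1 + a.2, Submodule.add_mem _ (PK_mono Set.subset_union_left a.1.2)
      (PK_mono Set.subset_union_right a.2.2)⟩
    left_inv := fun a => Subtype.ext (pr_union hKL a.2)
    right_inv := fun a => by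
      refine Prod.ext (Subtype.ext ?_) (Subtype.ext ?_)
      · change pr Z K (a.1 + a.2 : Z.A) = a.1
        rw [map_add, pr_same a.1.2, pr_disj hLK a.2.2, add_zero]
      · change pr Z L (a.1 + a.2 : Z.A) = a.2
        rw [map_add, pr_same a.2.2, pr_disj hKL a.1.2, zero_add] }

end Pool.Agent.Q94.QH
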