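import Pool.Agent.Q94.QH.Sqrt

/-!
# The definite parts of the cohomology in the degrees congruent to `n`
-/

open Module
open scoped ComplexConjugate

namespace Pool.Agent.Q94.QH

open Pool.Agent.W539.DI

variable {n : ℕ}

section complex

variable {X : KRing n}

theorem B0_eq (x y : X.R) : B0 X x y = (BB X X.ω 0 (f0 n) x y).re := by
  unfold B0
  rw [BB_apply, pow_zero, one_mul]

theorem BB_degrees {K L : Set ℤ} (hKL : ∀ k ∈ K, ∀ l ∈ L, k + l ≠ 2 * n) (f : ℤ × ℤ → ℂ)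
    {x y : X.R} (hx : x ∈ degC X K) (hy : y ∈ degC X L) : BB X X.ω 0 f x y = 0 := by
  have h1 : ∀ pq ∈ {pq : ℤ × ℤ | pq.1 + pq.2 ∈ K}, ∀ x ∈ X.H pq, ∀ y ∈ degC X L,
      BB X X.ω 0 f x y = 0 := by
    intro pq hpq x hx y hy
    have : degC X L ≤ LinearMap.ker (BB X X.ω 0 f x) := iSup_le fun pq' y' hy' =>
      BB_hom X.ω_mem 0 f (p := pq.1) (q := pq.2) (p' := pq'.1.1) (q' := pq'.1.2) hx hy' (by
        have := hKL _ hpq _ pq'.2
        push_cast
        omega)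
    exact this hy
  have h2 : degC X K ≤ LinearMap.ker ((BB X X.ω 0 f).flip y) := iSup_le fun pq x' hx' =>
    h1 pq.1 pq.2 x' hx' y hy
  exact h2 hx

theorem B0_degrees {K L : Set ℤ} (hKL : ∀ k ∈ K, ∀ l ∈ L, k + l ≠ 2 * n)
    {x y : X.R} (hx : x ∈ degC X K) (hy : y ∈ degC X L) : B0 X x y = 0 := by
  rw [B0_eq, BB_degrees hKL _ hx hy, Complex.zero_re]

theorem B0_symm {x y : X.R} (hx : x ∈ degC X (par n)) (hy : y ∈ degC X (par n)) :
    B0 X y x = B0 X x y := by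
  rw [B0_eq, B0_eq, F_symm X.ω_mem 0 hx hy]
  norm_num

theorem B0_add_left (x x' y : X.R) : B0 X (x + x') y = B0 X x y + B0 X x' y := by
  simp only [B0_eq, map_add, LinearMap.add_apply, Complex.add_re]

theorem B0_add_right (x y y' : X.R) : B0 X x (y + y') = B0 X x y + B0 X x y' := by
  simp only [B0_eq, map_add, Complex.add_re]

theorem B0_neg_right (x y : X.R) : B0 X x (-y) = -B0 X x y := by
  simp only [B0_eq, map_neg, Complex.neg_re]

theorem B0_neg_left (x y : X.R) : B0 X (-x) y = -B0 X x y := by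
  simp only [B0_eq, map_neg, LinearMap.neg_apply, Complex.neg_re]

theorem eps_shift {k : ℕ} (hk : k ≤ n) (he : Even ((k : ℤ) - n)) :
    eps n * Complex.I ^ ((k : ℤ) - n) = eps k := by
  obtain ⟨j, rfl⟩ : ∃ j : ℕ, n = k + 2 * j := by
    obtain ⟨r, hr⟩ := he
    exact ⟨(n - k) / 2, by omega⟩
  have h1 : ∀ j : ℕ, eps ((k + 2 * j : ℕ) : ℤ) = (-1 : ℂ) ^ (j : ℤ) * eps k := by
    intro j
    induction j with
    | zero => simp
    | succ j ih =>
      have e : ((k + 2 * (j + 1) : ℕ) : ℤ) = ((k + 2 * j : ℕ) : ℤ) + 2 := by push_cast; ring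
      rw [e, eps_two, ih]
      push_cast
      rw [zpow_add₀ (by norm_num), zpow_one]
      ring
  rw [h1]
  have e : ((k : ℤ) - ((k + 2 * j : ℕ) : ℤ)) = 2 * (-(j : ℤ)) := by push_cast; ring
  rw [e, I_zpow_two]
  have h2 : (-1 : ℂ) ^ (j : ℤ) * (-1 : ℂ) ^ (-(j : ℤ)) = 1 := by
    rw [← zpow_add₀ (by norm_num)]
    simp
  calc (-1 : ℂ) ^ (j : ℤ) * eps k * (-1 : ℂ) ^ (-(j : ℤ))
      = ((-1 : ℂ) ^ (j : ℤ) * (-1 : ℂ) ^ (-(j : ℤ))) * eps k := by ring
    _ = eps k := by rw [h2, one_mul]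

theorem f0_deg {k : ℕ} (hk : k ≤ n) (he : Even ((k : ℤ) - n)) {x : X.R}
    (hx : x ∈ degC X {(k : ℤ)}) : diag X (f0 n) x = eps k • diag X wf x := by
  have h : degC X {(k : ℤ)} ≤ LinearMap.eqLocus (diag X (f0 n)) (eps k • diag X wf) := by
    refine iSup_le ?_
    rintro ⟨⟨p, q⟩, hpq⟩ y hy
    have h1 : p + q = k := hpq
    rw [LinearMap.mem_eqLocus, LinearMap.smul_apply, diag_of X _ hy, diag_of X _ hy, smul_smul]
    congr 1
    unfold f0 wf
    simp only
    rw [h1, eps_shift hk he]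
  exact h hx

theorem B0_SQ {k m : ℕ} (hm : (k : ℤ) + m = n) (he : Even ((k : ℤ) - n)) {x : X.R}
    (hx : x ∈ degC X {(k : ℤ)}) (y : X.R) :
    B0 X x (X.ω ^ m * y) = (eps k * BB X X.ω m wf x y).re := by
  unfold B0
  rw [f0_deg (by omega) he hx, BB_apply, smul_mul_assoc, map_smul, smul_eq_mul]
  congr 3
  rw [← mul_assoc, ← X.pow_central, mul_assoc]

theorem sum_deg {K : Set ℤ} {F : Finset ℕ} {e : ℕ → ℤ}
    (he : ∀ k ∈ F, ∀ l ∈ F, e k = e l → k = l)
    (hK : ∀ t ∈ K, 0 ≤ t → t ≤ 2 * n → ∃ k ∈ F, e k = t) {x : X.R} (hx : x ∈ degC X K) :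
    x = ∑ k ∈ F, dg X {e k} x := by
  have h : degC X K ≤ LinearMap.eqLocus LinearMap.id (∑ k ∈ F, dg X {e k}) := by
    refine iSup_le ?_
    rintro ⟨⟨p, q⟩, hpq⟩ y hy
    have h1 : p + q ∈ K := hpq
    rw [LinearMap.mem_eqLocus, LinearMap.id_apply, LinearMap.sum_apply]
    by_cases h2 : p + q < 0 ∨ 2 * (n : ℤ) < p + q
    · have : y = 0 := by
        have h3 : y ∈ degC X {p + q} := mem_degC (Set.mem_singleton _) hy
        rcases h2 with h2 | h2
        · rw [degC_neg h2, Submodule.mem_bot] at h3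
          exact h3
        · rw [degC_top h2, Submodule.mem_bot] at h3
          exact h3
      rw [this]
      simp
    · push Not at h2
      obtain ⟨k, hk, hke⟩ := hK _ h1 h2.1 h2.2
      rw [Finset.sum_eq_single k]
      · have h3 : y ∈ degC X {e k} := mem_degC (by rw [Set.mem_singleton_iff, hke]) hy
        exact (dg_same h3).symm
      · intro l hl hlk
        have h3 : y ∈ degC X {p + q} := mem_degC (Set.mem_singleton _) hy
        refine dg_disj (K := {p + q}) ?_ h3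
        intro t ht ht'
        rw [Set.mem_singleton_iff] at ht ht'
        exact hlk (he l hl k hk (by rw [hke, ← ht, ← ht']))
      · intro hk'
        exact absurd hk hk'
  have := h hx
  rw [LinearMap.mem_eqLocus, LinearMap.id_apply, LinearMap.sum_apply] at this
  exact this

end complex

variable {Z : RatCoh n}

theorem sum_pr {K : Set ℤ} {F : Finset ℕ} {e : ℕ → ℤ}
    (he : ∀ k ∈ F, ∀ l ∈ F, e k = e l → k = l)
    (hK : ∀ t ∈ K, 0 ≤ t → t ≤ 2 * n → ∃ k ∈ F, e k = t) {a : Z.A} (ha : a ∈ PK Z K) :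
    a = ∑ k ∈ F, pr Z {e k} a := by
  apply ι_inj Z
  rw [map_sum]
  simp only [ι_pr]
  exact sum_deg he hK (mem_PK.1 ha)

/-- The partial polarization: a module map from degree `k` to degree `2 n - k`. -/
theorem exists_T {k : ℕ} (hk : k ≤ n) (he : Even ((k : ℤ) - n)) :
    ∃ T : Z.A →ₗ[FA] Z.A, (∀ a, T a ∈ PK Z {2 * (n : ℤ) - k}) ∧ (∀ a, T (pr Z {(k : ℤ)} a) = T a) ∧
      (∀ b ∈ PK Z {2 * (n : ℤ) - k}, ∃ a ∈ PK Z {(k : ℤ)}, T a = b) ∧
      ∀ a ∈ PK Z {(k : ℤ)}, a ≠ 0 → 0 < B0 Z.X (Z.ι a) (Z.ι (T a)) := by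
  have g := good (Z := Z) k hk
  have hle1 : (NN Z k).1 ≤ PK Z {(k : ℤ)} := g.sup ▸ le_sup_left
  have hle2 : (NN Z k).2 ≤ PK Z {(k : ℤ)} := g.sup ▸ le_sup_right
  have hc : IsCompl (NN Z k).1 ((NN Z k).2 ⊔ LinearMap.ker (pr Z {(k : ℤ)})) := by
    constructor
    · rw [Submodule.disjoint_def]
      intro x hx hx2
      rw [Submodule.mem_sup] at hx2
      obtain ⟨y, hy, c, hc, hyc⟩ := hx2
      have h1 : x = y := by
        have := congrArg (pr Z {(k : ℤ)}) hyc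
        rw [map_add, pr_same (hle2 hy), LinearMap.mem_ker.1 hc, add_zero, pr_same (hle1 hx)] at this
        exact this.symm
      exact g.compl hx (h1 ▸ hy)
    · rw [codisjoint_iff, eq_top_iff, ← sup_assoc, g.sup]
      intro a _
      rw [Submodule.mem_sup]
      refine ⟨pr Z {(k : ℤ)} a, pr_mem _ a, a - pr Z {(k : ℤ)} a, ?_, by abel⟩
      rw [LinearMap.mem_ker, map_sub, pr_same (pr_mem _ a), sub_self]
  set π : Z.A →ₗ[FA] Z.A := (NN Z k).1.subtype ∘ₗ Submodule.projectionOnto _ _ hc with hπ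
  have π1 : ∀ a ∈ (NN Z k).1, π a = a := by
    intro a ha
    rw [hπ, LinearMap.comp_apply]
    have := Submodule.projectionOnto_apply_left hc ⟨a, ha⟩
    rw [this]
    rfl
  have π2 : ∀ a ∈ (NN Z k).2 ⊔ LinearMap.ker (pr Z {(k : ℤ)}), π a = 0 := by
    intro a ha
    rw [hπ, LinearMap.comp_apply]
    have := Submodule.projectionOnto_apply_right hc ⟨a, ha⟩
    rw [this]
    rfl
  set σ : Z.A →ₗ[FA] Z.A := π + π - pr Z {(k : ℤ)} with hσ
  have hσa : ∀ x ∈ (NN Z k).1, ∀ y ∈ (NN Z k).2, σ (x + y) = x - y := by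
    intro x hx y hy
    rw [hσ, LinearMap.sub_apply, LinearMap.add_apply, map_add, π1 x hx,
      π2 y (Submodule.mem_sup_left hy), map_add, pr_same (hle1 hx), pr_same (hle2 hy)]
    abel
  have hσpr : ∀ a, σ (pr Z {(k : ℤ)} a) = σ a := by
    intro a
    have h1 : π (a - pr Z {(k : ℤ)} a) = 0 := by
      refine π2 _ (Submodule.mem_sup_right ?_)
      rw [LinearMap.mem_ker, map_sub, pr_same (pr_mem _ a), sub_self]
    rw [map_sub, sub_eq_zero] at h1
    rw [hσ, LinearMap.sub_apply, LinearMap.sub_apply, LinearMap.add_apply, LinearMap.add_apply,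
      ← h1, pr_same (pr_mem _ a)]
  have hsplit : ∀ a ∈ PK Z {(k : ℤ)}, ∃ x ∈ (NN Z k).1, ∃ y ∈ (NN Z k).2, x + y = a := by
    intro a ha
    rw [← g.sup, Submodule.mem_sup] at ha
    exact ha
  have hσmem : ∀ a, σ a ∈ PK Z {(k : ℤ)} := by
    intro a
    obtain ⟨x, hx, y, hy, hxy⟩ := hsplit _ (pr_mem _ a)
    rw [← hσpr, ← hxy, hσa x hx y hy]
    exact Submodule.sub_mem _ (hle1 hx) (hle2 hy)
  have ek : (k : ℤ) + 2 * ((n - k : ℕ) : ℤ) = 2 * n - k := by omega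
  refine ⟨om Z (n - k) ∘ₗ σ, ?_, ?_, ?_, ?_⟩
  · intro a
    have := om_mem (n - k) (hσmem a)
    rwa [ek] at this
  · intro a
    rw [LinearMap.comp_apply, LinearMap.comp_apply, hσpr]
  · intro b hb
    rw [← ek] at hb
    obtain ⟨c, hc', hcb⟩ := om_surj (by omega) hb
    obtain ⟨x, hx, y, hy, hxy⟩ := hsplit c hc'
    refine ⟨x - y, Submodule.sub_mem _ (hle1 hx) (hle2 hy), ?_⟩
    rw [LinearMap.comp_apply, sub_eq_add_neg, hσa x hx (-y) (Submodule.neg_mem _ hy), sub_neg_eq_add,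
      hxy, hcb]
  · intro a ha ha0
    obtain ⟨x, hx, y, hy, rfl⟩ := hsplit a ha
    rw [LinearMap.comp_apply, ι_om, B0_SQ (by omega) he (mem_PK.1 ha), hσa x hx y hy]
    change 0 < SQ Z k (n - k) (x + y) (x - y)
    rw [SQ_sub_right, SQ_add_left, SQ_add_left, SQ_symm _ _ y x]
    by_cases hx0 : x = 0
    · have hy0 : y ≠ 0 := by
        rintro rfl
        exact ha0 (by rw [hx0, add_zero])
      have := g.neg y hy hy0
      rw [hx0, SQ_zero]
      linarith
    · by_cases hy0 : y = 0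
      · have := g.pos x hx hx0
        rw [hy0, SQ_zero]
        linarith
      · have h1 := g.pos x hx hx0
        have h2 := g.neg y hy hy0
        linarith

/-- The degrees smaller than `n` and congruent to `n` modulo two. -/
def lowS (n : ℕ) : Set ℤ := {k | k < n ∧ Even (k - n)}

/-- The degrees larger than `n` and congruent to `n` modulo two. -/
def highS (n : ℕ) : Set ℤ := {k | n < k ∧ Even (k - n)}

open Classical in
/-- The nonnegative degrees in `lowS`. -/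
noncomputable def lowF (n : ℕ) : Finset ℕ := (Finset.range n).filter fun k => Even ((k : ℤ) - n)

theorem mem_lowF {k : ℕ} : k ∈ lowF n ↔ k < n ∧ Even ((k : ℤ) - n) := by
  unfold lowF
  rw [Finset.mem_filter, Finset.mem_range]

theorem low_sum {a : Z.A} (ha : a ∈ PK Z (lowS n)) : a = ∑ k ∈ lowF n, pr Z {(k : ℤ)} a := by
  refine sum_pr (e := fun k => (k : ℤ)) (fun k _ l _ h => by exact_mod_cast h) ?_ ha
  rintro t ⟨h1, h2⟩ h3 _
  obtain ⟨k, rfl⟩ := Int.eq_ofNat_of_zero_le h3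
  exact ⟨k, mem_lowF.2 ⟨by omega, h2⟩, rfl⟩

theorem high_sum {a : Z.A} (ha : a ∈ PK Z (highS n)) :
    a = ∑ k ∈ lowF n, pr Z {2 * (n : ℤ) - k} a := by
  refine sum_pr (e := fun k => 2 * (n : ℤ) - k) (fun k _ l _ h => by
    have : 2 * (n : ℤ) - k = 2 * (n : ℤ) - l := h
    omega) ?_ ha
  rintro t ⟨h1, h2⟩ _ h3
  obtain ⟨k, hk⟩ := Int.eq_ofNat_of_zero_le (show 0 ≤ 2 * (n : ℤ) - t by omega)
  refine ⟨k, mem_lowF.2 ⟨by omega, ?_⟩, by omega⟩
  obtain ⟨r, hr⟩ := h2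
  exact ⟨-r, by omega⟩

/-- The polarization: a module map from the low degrees to the high degrees. -/
theorem exists_pol (Z : RatCoh n) : ∃ T : Z.A →ₗ[FA] Z.A, (∀ a ∈ PK Z (lowS n), T a ∈ PK Z (highS n)) ∧
    (∀ b ∈ PK Z (highS n), ∃ a ∈ PK Z (lowS n), T a = b) ∧
    ∀ a ∈ PK Z (lowS n), a ≠ 0 → 0 < B0 Z.X (Z.ι a) (Z.ι (T a)) := by
  classical
  have hk : ∀ k : lowF n, (k : ℕ) < n ∧ Even (((k : ℕ) : ℤ) - n) := fun k => mem_lowF.1 k.2
  choose T h1 h2 h3 h4 using fun k : lowF n => exists_T (Z := Z) (hk k).1.le (hk k).2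
  have hsub : ∀ k : lowF n, PK Z {(((k : ℕ)) : ℤ)} ≤ PK Z (lowS n) := fun k => PK_mono (by
    rw [Set.singleton_subset_iff]
    exact ⟨by exact_mod_cast (hk k).1, (hk k).2⟩)
  have hsub' : ∀ k : lowF n, PK Z {2 * (n : ℤ) - (((k : ℕ)) : ℤ)} ≤ PK Z (highS n) :=
    fun k => PK_mono (by
      rw [Set.singleton_subset_iff]
      obtain ⟨r, hr⟩ := (hk k).2
      have := (hk k).1
      exact ⟨by omega, ⟨-r, by omega⟩⟩)
  have hkill : ∀ k l : lowF n, l ≠ k → ∀ a ∈ PK Z {(((l : ℕ)) : ℤ)}, T k a = 0 := by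
    intro k l hlk a ha
    rw [← h2 k a, pr_disj (K := {(((l : ℕ)) : ℤ)}) ?_ ha, map_zero]
    intro t ht ht'
    rw [Set.mem_singleton_iff] at ht ht'
    apply hlk
    apply Subtype.ext
    have : (((l : ℕ)) : ℤ) = ((k : ℕ) : ℤ) := by rw [← ht, ← ht']
    exact_mod_cast this
  have hlow : ∀ a ∈ PK Z (lowS n), a = ∑ k : lowF n, pr Z {(((k : ℕ)) : ℤ)} a := by
    intro a ha
    conv_lhs => rw [low_sum ha]
    exact (Finset.sum_coe_sort (lowF n) (fun k => pr Z {(k : ℤ)} a)).symm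
  refine ⟨∑ k, T k, ?_, ?_, ?_⟩
  · intro a _
    rw [LinearMap.sum_apply]
    exact Submodule.sum_mem _ fun k _ => hsub' k (h1 k a)
  · intro b hb
    choose c hc1 hc2 using fun k : lowF n => h3 k (pr Z {2 * (n : ℤ) - ((k : ℕ) : ℤ)} b) (pr_mem _ b)
    refine ⟨∑ k, c k, Submodule.sum_mem _ fun k _ => hsub k (hc1 k), ?_⟩
    rw [LinearMap.sum_apply]
    conv_rhs => rw [high_sum hb, ← Finset.sum_coe_sort (lowF n)
      (fun k => pr Z {2 * (n : ℤ) - (k : ℤ)} b)]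
    refine Finset.sum_congr rfl fun k _ => ?_
    rw [map_sum, Finset.sum_eq_single k]
    · exact hc2 k
    · intro l _ hlk
      exact hkill k l hlk _ (hc1 l)
    · intro h
      exact absurd (Finset.mem_univ _) h
  · intro a ha ha0
    have e1 : B0 Z.X (Z.ι a) (Z.ι ((∑ k, T k) a)) =
        ∑ k : lowF n, B0 Z.X (Z.ι (pr Z {(((k : ℕ)) : ℤ)} a)) (Z.ι (T k (pr Z {(((k : ℕ)) : ℤ)} a))) := by
      rw [LinearMap.sum_apply, map_sum, B0_eq, map_sum, Complex.re_sum]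
      refine Finset.sum_congr rfl fun k _ => ?_
      rw [h2 k a, B0_eq]
      have e3 := congrArg (fun t => BB Z.X Z.X.ω 0 (f0 n) (Z.ι t) (Z.ι (T k a))) (hlow a ha)
      simp only [map_sum, LinearMap.sum_apply] at e3
      rw [e3, Finset.sum_eq_single k]
      · intro l _ hlk
        refine BB_degrees (K := {(((l : ℕ)) : ℤ)}) (L := {2 * (n : ℤ) - ((k : ℕ) : ℤ)}) ?_ _
          (mem_PK.1 (pr_mem _ a)) (mem_PK.1 ?_)
        · intro s hs t ht
          rw [Set.mem_singleton_iff] at hs ht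
          intro h
          apply hlk
          apply Subtype.ext
          have : (((l : ℕ)) : ℤ) = ((k : ℕ) : ℤ) := by omega
          exact_mod_cast this
        · exact h1 k a
      · intro h
        exact absurd (Finset.mem_univ _) h
    rw [e1]
    have hne : ∃ k : lowF n, pr Z {(((k : ℕ)) : ℤ)} a ≠ 0 := by
      by_contra hcon
      push Not at hcon
      apply ha0
      rw [hlow a ha]
      exact Finset.sum_eq_zero fun k _ => hcon k
    obtain ⟨k, hk0⟩ := hne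
    refine Finset.sum_pos' (fun l _ => ?_) ⟨k, Finset.mem_univ _, h4 k _ (pr_mem _ a) hk0⟩
    by_cases h0 : pr Z {(((l : ℕ)) : ℤ)} a = 0
    · rw [h0]
      simp [B0]
    · exact (h4 l _ (pr_mem _ a) h0).le

end Pool.Agent.Q94.QH
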