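import Pool.Agent.Q94.QH.Lef

/-!
# Definite decompositions of the rational cohomology
-/

open Module
open scoped ComplexConjugate

namespace Pool.Agent.Q94.QH

open Pool.Agent.W539.DI

variable {n : ℕ}

section complex

variable (X : KRing n)

/-- The sign `(-1)^(s(s-1)/2)`. -/
noncomputable def eps (s : ℤ) : ℂ := (-1 : ℂ) ^ (s * (s - 1) / 2)

theorem eps_two (s : ℤ) : eps (s + 2) = -eps s := by
  unfold eps
  have := sign_rec (s + 2)
  rw [this]
  congr 3
  ring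

theorem eps_re (s : ℤ) : (eps s = 1) ∨ (eps s = -1) := by
  unfold eps
  rcases Int.even_or_odd (s * (s - 1) / 2) with h | h
  · exact Or.inl (Even.neg_one_zpow h)
  · exact Or.inr (Odd.neg_one_zpow h)

variable {X}

theorem BB_pos {s : ℤ} {m : ℕ} (h : s + m = n) {x : X.R} (hx : x ∈ degC X {s})
    (hb : X.bar x = x) (h0 : X.ω ^ (m + 1) * x = 0) (hx0 : x ≠ 0) :
    0 < (eps s * BB X X.ω m wf x x).re := by
  classical
  obtain ⟨S, hS⟩ := exists_sum x
  have hzero : ∀ i, i.1 + i.2 ≠ s → cp X i x = 0 := fun i hi => cp_disj hx (by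
    rw [Set.mem_singleton_iff]; exact hi)
  have e1 : BB X X.ω m wf x x =
      ∑ i ∈ S, BB X X.ω m wf (cp X i x) (X.bar (cp X i x)) := by
    have e2 : BB X X.ω m wf x x = BB X X.ω m wf (∑ i ∈ S, cp X i x)
        (∑ i ∈ S, X.bar (cp X i x)) := by
      rw [← map_sum, ← hS, hb]
    rw [e2]
    simp only [map_sum, LinearMap.sum_apply]
    rw [Finset.sum_comm]
    refine Finset.sum_congr rfl fun i _ => ?_
    refine Finset.sum_eq_single i (fun j _ hji => ?_) (fun hi => absurd ‹i ∈ S› hi)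
    by_cases hi : i.1 + i.2 = s
    · by_cases hj : j.1 + j.2 = s
      · refine BB_hom X.ω_mem m wf (cp_mem i x) (X.bar_mem _ _ _ (cp_mem j x)) ?_
        rintro ⟨h1, h2⟩
        apply hji
        ext <;> omega
      · rw [hzero j hj, map_zero, map_zero]
    · rw [hzero i hi, map_zero, LinearMap.zero_apply]
  have term : ∀ i, cp X i x ≠ 0 → ∃ r : ℝ, 0 < r ∧
      eps s * BB X X.ω m wf (cp X i x) (X.bar (cp X i x)) = r := by
    intro i hi
    have his : i.1 + i.2 = s := by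
      by_contra h'
      exact hi (hzero i h')
    have hp : X.ω ^ (m + 1) * cp X i x = 0 := by
      have := cp_mul X.ω_mem (m + 1) i.1 i.2 x
      rw [h0, map_zero] at this
      exact this.symm
    obtain ⟨r, hr, he⟩ := X.hr i.1 i.2 m (by omega) _ (cp_mem i x) hi hp
    refine ⟨r, hr, ?_⟩
    rw [← he, BB_apply, diag_of X _ (cp_mem i x), smul_mul_assoc, mul_smul_comm, map_smul,
      smul_eq_mul]
    unfold eps wf
    rw [his]
    ring
  rw [e1, Finset.mul_sum, Complex.re_sum]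
  have nonneg : ∀ i ∈ S, 0 ≤ (eps s * BB X X.ω m wf (cp X i x) (X.bar (cp X i x))).re := by
    intro i _
    by_cases hi : cp X i x = 0
    · rw [hi, map_zero, LinearMap.zero_apply, mul_zero, Complex.zero_re]
    · obtain ⟨r, hr, he⟩ := term i hi
      rw [he, Complex.ofReal_re]
      exact hr.le
  refine Finset.sum_pos' nonneg ?_
  by_contra hcon
  push Not at hcon
  apply hx0
  rw [hS]
  refine Finset.sum_eq_zero fun i hi => ?_
  by_contra hi0
  obtain ⟨r, hr, he⟩ := term i hi0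
  have := hcon i hi
  rw [he, Complex.ofReal_re] at this
  linarith

theorem BB_mul (m : ℕ) (x y : X.R) :
    BB X X.ω m wf (X.ω * x) (X.ω * y) = BB X X.ω (m + 2) wf x y := by
  rw [BB_apply, BB_apply]
  have h1 : diag X wf (X.ω * x) = X.ω * diag X wf x := by
    have := wt_mul X (fun i => Complex.I ^ i) X.ω_mem 1 x
    rwa [pow_one] at this
  rw [h1]
  congr 1
  have hc : diag X wf x * (X.ω * y) = X.ω * (diag X wf x * y) := by
    rw [← mul_assoc, ← X.central X.ω_mem, mul_assoc]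
  calc X.ω ^ m * (X.ω * diag X wf x * (X.ω * y))
      = X.ω ^ m * (X.ω * (diag X wf x * (X.ω * y))) := by rw [mul_assoc X.ω]
    _ = X.ω ^ (m + 2) * (diag X wf x * y) := by
      rw [hc, pow_add, pow_two]
      simp only [mul_assoc]

theorem BB_prim (m : ℕ) (x y : X.R) (h0 : X.ω ^ (m + 1) * x = 0) :
    BB X X.ω m wf x (X.ω * y) = 0 := by
  rw [BB_apply]
  have h1 : X.ω ^ (m + 1) * diag X wf x = 0 := by
    have := wt_mul X (fun i => Complex.I ^ i) X.ω_mem (m + 1) x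
    rw [h0, map_zero] at this
    exact this.symm
  have e : X.ω ^ m * (diag X wf x * (X.ω * y)) = (X.ω ^ (m + 1) * diag X wf x) * y := by
    rw [← mul_assoc (diag X wf x), ← X.central X.ω_mem, pow_succ]
    simp only [mul_assoc]
  rw [e, h1, zero_mul, map_zero]

theorem degC_top {t : ℤ} (ht : 2 * (n : ℤ) < t) : degC X {t} = ⊥ := by
  rw [eq_bot_iff]
  refine iSup_le ?_
  rintro ⟨⟨p, q⟩, hpq⟩
  have h1 : p + q = t := hpq
  rw [X.van_top (by omega)]

theorem degC_neg {t : ℤ} (ht : t < 0) : degC X {t} = ⊥ := by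
  rw [eq_bot_iff]
  refine iSup_le ?_
  rintro ⟨⟨p, q⟩, hpq⟩
  have h1 : p + q = t := hpq
  rw [X.van p q (by omega)]

end complex

variable (Z : RatCoh n)

/-- Multiplication by a power of a rational class of type `(1, 1)`. -/
noncomputable def mp {z : Z.A} (hz : Z.ι z ∈ Z.X.H (1, 1)) (m : ℕ) : Z.A →ₗ[FA] Z.A :=
  lift (LinearMap.mulLeft ℚ (z ^ m)) (comm_E (LinearMap.mulLeft ℂ (Z.ι z ^ m)) _
    (fun a => by simp [map_mul, map_pow]) (fun w x => (wt_mul Z.X w hz m x).symm))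

theorem mp_apply {z : Z.A} (hz : Z.ι z ∈ Z.X.H (1, 1)) (m : ℕ) (a : Z.A) :
    mp Z hz m a = z ^ m * a := rfl

/-- The rational ample class. -/
noncomputable def w₀ : Z.A := Z.ample.choose
theorem ι_w₀ : Z.ι (w₀ Z) = Z.X.ω := Z.ample.choose_spec
theorem w₀_mem : Z.ι (w₀ Z) ∈ Z.X.H (1, 1) := by rw [ι_w₀]; exact Z.X.ω_mem

/-- Multiplication by the power of the ample class. -/
noncomputable def om (m : ℕ) : Z.A →ₗ[FA] Z.A := mp Z (w₀_mem Z) m

theorem ι_om (m : ℕ) (a : Z.A) : Z.ι (om Z m a) = Z.X.ω ^ m * Z.ι a := by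
  unfold om
  rw [mp_apply, map_mul, map_pow, ι_w₀]

theorem om_om (m m' : ℕ) (a : Z.A) : om Z m (om Z m' a) = om Z (m + m') a := by
  apply ι_inj Z
  rw [ι_om, ι_om, ι_om, pow_add, mul_assoc]

variable {Z}

theorem om_mem (m : ℕ) {s : ℤ} {a : Z.A} (ha : a ∈ PK Z {s}) : om Z m a ∈ PK Z {s + 2 * m} := by
  rw [mem_PK, ι_om]
  exact mul_degC Z.X.ω_mem m (mem_PK.1 ha)

theorem om_inj {s : ℤ} {m : ℕ} (h : s + m = n) {a : Z.A} (ha : a ∈ PK Z {s})
    (h0 : om Z m a = 0) : a = 0 := by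
  apply ι_inj Z
  rw [map_zero]
  refine hlC_inj h (mem_PK.1 ha) ?_
  rw [← ι_om, h0, map_zero]

theorem om_surj {s : ℤ} {m : ℕ} (h : s + m = n) {b : Z.A} (hb : b ∈ PK Z {s + 2 * (m : ℤ)}) :
    ∃ a ∈ PK Z {s}, om Z m a = b := by
  obtain ⟨x, hx, hxy⟩ := hlC_surj h (mem_PK.1 hb)
  have h1 : om Z m (T1 Z x) = b := by
    have := T_map (Y := Z) (Z := Z) (LinearMap.mulLeft ℂ (Z.X.ω ^ m)) ((om Z m).restrictScalars ℚ)
      (fun a => (ι_om Z m a).symm) exists_one.choose x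
    change T1 Z (Z.X.ω ^ m * x) = om Z m (T1 Z x) at this
    rw [← this, hxy, T1_ι]
  refine ⟨T1 Z x, ?_, h1⟩
  have := T_map (Y := Z) (Z := Z) (dg Z.X {s}) ((pr Z {s}).restrictScalars ℚ)
    (fun a => (ι_pr Z {s} a).symm) exists_one.choose x
  change T1 Z (dg Z.X {s} x) = pr Z {s} (T1 Z x) at this
  rw [dg_same hx] at this
  rw [this]
  exact pr_mem _ _

theorem PK_top {t : ℤ} (ht : 2 * (n : ℤ) < t) {a : Z.A} (ha : a ∈ PK Z {t}) : a = 0 := by
  have := mem_PK.1 ha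
  rw [degC_top ht, Submodule.mem_bot] at this
  apply ι_inj Z
  rw [this, map_zero]

theorem PK_neg {t : ℤ} (ht : t < 0) {a : Z.A} (ha : a ∈ PK Z {t}) : a = 0 := by
  have := mem_PK.1 ha
  rw [degC_neg ht, Submodule.mem_bot] at this
  apply ι_inj Z
  rw [this, map_zero]

/-- The primitive classes. -/
noncomputable def prim (Z : RatCoh n) (k : ℕ) : Submodule FA Z.A :=
  PK Z {(k : ℤ)} ⊓ LinearMap.ker (om Z (n - k + 1))

/-- The polarization form. -/
noncomputable def SQ (Z : RatCoh n) (s : ℤ) (m : ℕ) (a b : Z.A) : ℝ :=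
  (eps s * BB Z.X Z.X.ω m wf (Z.ι a) (Z.ι b)).re

theorem SQ_symm (s : ℤ) (m : ℕ) (a b : Z.A) : SQ Z s m a b = SQ Z s m b a := by
  unfold SQ
  rw [W_symm Z.X.ω_mem]

theorem SQ_add_left (s : ℤ) (m : ℕ) (a a' b : Z.A) :
    SQ Z s m (a + a') b = SQ Z s m a b + SQ Z s m a' b := by
  unfold SQ
  rw [map_add, map_add, LinearMap.add_apply, mul_add, Complex.add_re]

theorem SQ_add_right (s : ℤ) (m : ℕ) (a b b' : Z.A) :
    SQ Z s m a (b + b') = SQ Z s m a b + SQ Z s m a b' := by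
  rw [SQ_symm, SQ_add_left, SQ_symm s m b, SQ_symm s m b']

theorem SQ_sub_right (s : ℤ) (m : ℕ) (a b b' : Z.A) :
    SQ Z s m a (b - b') = SQ Z s m a b - SQ Z s m a b' := by
  have := SQ_add_right s m a (b - b') b'
  rw [sub_add_cancel] at this
  linarith

theorem SQ_zero (s : ℤ) (m : ℕ) : SQ Z s m 0 0 = 0 := by
  unfold SQ
  rw [map_zero, map_zero, mul_zero, Complex.zero_re]

theorem SQ_mul (s : ℤ) (m : ℕ) (a b : Z.A) :
    SQ Z (s + 2) m (om Z 1 a) (om Z 1 b) = -SQ Z s (m + 2) a b := by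
  unfold SQ
  rw [ι_om, ι_om, pow_one, BB_mul, eps_two, neg_mul, Complex.neg_re]

theorem SQ_prim (s : ℤ) (m : ℕ) {a : Z.A} (h : om Z (m + 1) a = 0) (b : Z.A) :
    SQ Z s m a (om Z 1 b) = 0 := by
  unfold SQ
  rw [ι_om, pow_one, BB_prim, mul_zero, Complex.zero_re]
  rw [← ι_om, h, map_zero]

theorem SQ_pos {s : ℤ} {m : ℕ} (h : s + m = n) {a : Z.A} (ha : a ∈ PK Z {s})
    (h0 : om Z (m + 1) a = 0) (ha0 : a ≠ 0) : 0 < SQ Z s m a a := by
  refine BB_pos h (mem_PK.1 ha) (Z.real a) ?_ ?_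
  · rw [← ι_om, h0, map_zero]
  · intro h'
    exact ha0 (ι_inj Z (by rw [h', map_zero]))

/-- The positive and the negative part. -/
noncomputable def NN (Z : RatCoh n) : ℕ → Submodule FA Z.A × Submodule FA Z.A
  | 0 => (PK Z {0}, ⊥)
  | 1 => (PK Z {1}, ⊥)
  | k + 2 => (prim Z (k + 2) ⊔ Submodule.map (om Z 1) (NN Z k).2, Submodule.map (om Z 1) (NN Z k).1)

/-- The properties of the parts. -/
structure GoodNN (Z : RatCoh n) (k : ℕ) : Prop where
  sup : (NN Z k).1 ⊔ (NN Z k).2 = PK Z {(k : ℤ)}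
  pos : ∀ a ∈ (NN Z k).1, a ≠ 0 → 0 < SQ Z k (n - k) a a
  neg : ∀ a ∈ (NN Z k).2, a ≠ 0 → SQ Z k (n - k) a a < 0

theorem good_small {k : ℕ} (hk : k ≤ n) (hk1 : k ≤ 1) : GoodNN Z k := by
  have hN : NN Z k = (PK Z {(k : ℤ)}, ⊥) := by
    interval_cases k
    · rfl
    · rfl
  refine ⟨?_, ?_, ?_⟩
  · rw [hN]
    exact sup_bot_eq _
  · intro a ha ha0
    rw [hN] at ha
    refine SQ_pos (by omega) ha ?_ ha0
    exact PK_top (t := (k : ℤ) + 2 * ((n - k + 1 : ℕ) : ℤ)) (by omega) (om_mem _ ha)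
  · intro a ha ha0
    rw [hN] at ha
    exact absurd ((Submodule.mem_bot FA).1 ha) ha0

theorem good_step {k : ℕ} (hk : k + 2 ≤ n) (h : GoodNN Z k) : GoodNN Z (k + 2) := by
  have hN1 : (NN Z (k + 2)).1 = prim Z (k + 2) ⊔ Submodule.map (om Z 1) (NN Z k).2 := rfl
  have hN2 : (NN Z (k + 2)).2 = Submodule.map (om Z 1) (NN Z k).1 := rfl
  have hle1 : (NN Z k).1 ≤ PK Z {(k : ℤ)} := h.sup ▸ le_sup_left
  have hle2 : (NN Z k).2 ≤ PK Z {(k : ℤ)} := h.sup ▸ le_sup_right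
  have hinj : ∀ a ∈ PK Z {(k : ℤ)}, om Z 1 a = 0 → a = 0 := by
    intro a ha h0
    refine om_inj (m := n - k) (by omega) ha ?_
    have := om_om Z (n - k - 1) 1 a
    rw [h0, map_zero, show n - k - 1 + 1 = n - k by omega] at this
    exact this.symm
  have e2 : n - k = n - (k + 2) + 2 := by omega
  have ek : ((k + 2 : ℕ) : ℤ) = (k : ℤ) + 2 := by push_cast; ring
  refine ⟨?_, ?_, ?_⟩
  · rw [hN1, hN2, sup_assoc, ← Submodule.map_sup, sup_comm (NN Z k).2, h.sup]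
    apply le_antisymm
    · refine sup_le inf_le_left ?_
      rintro _ ⟨a, ha, rfl⟩
      have := om_mem 1 ha
      rwa [ek, show (k : ℤ) + 2 = k + 2 * ((1 : ℕ) : ℤ) by push_cast; ring]
    · intro a ha
      have h1 := om_mem (n - (k + 2) + 1) ha
      have e3 : ((k + 2 : ℕ) : ℤ) + 2 * ((n - (k + 2) + 1 : ℕ) : ℤ) =
          k + 2 * ((n - k : ℕ) : ℤ) := by omega
      rw [e3] at h1
      obtain ⟨b, hb, hab⟩ := om_surj (by omega) h1
      have e4 : om Z (n - (k + 2) + 1) (om Z 1 b) = om Z (n - k) b := by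
        rw [om_om, show n - (k + 2) + 1 + 1 = n - k by omega]
      have hb1 : om Z 1 b ∈ PK Z {((k + 2 : ℕ) : ℤ)} := by
        have := om_mem 1 hb
        rwa [ek, show (k : ℤ) + 2 = k + 2 * ((1 : ℕ) : ℤ) by push_cast; ring]
      rw [Submodule.mem_sup]
      refine ⟨a - om Z 1 b, ⟨Submodule.sub_mem _ ha hb1, ?_⟩, om Z 1 b, ⟨b, hb, rfl⟩,
        sub_add_cancel _ _⟩
      rw [SetLike.mem_coe, LinearMap.mem_ker, map_sub, e4, hab, sub_self]
  · intro a ha ha0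
    rw [hN1, Submodule.mem_sup] at ha
    obtain ⟨p, hp, _, ⟨b, hb, rfl⟩, rfl⟩ := ha
    have hp2 : om Z (n - (k + 2) + 1) p = 0 := hp.2
    rw [SQ_add_left, SQ_add_right, SQ_add_right, SQ_prim _ _ hp2, SQ_symm _ _ (om Z 1 b) p,
      SQ_prim _ _ hp2, ek, SQ_mul, ← e2, add_zero, zero_add]
    have h1 : p ≠ 0 → 0 < SQ Z ((k : ℤ) + 2) (n - (k + 2)) p p := fun h0 =>
      SQ_pos (by omega) (by rw [← ek]; exact hp.1) hp2 h0
    have h2 : b ≠ 0 → SQ Z k (n - k) b b < 0 := h.neg b hb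
    by_cases hp0 : p = 0
    · have hb0 : b ≠ 0 := by
        rintro rfl
        apply ha0
        rw [hp0, map_zero, add_zero]
      rw [hp0, SQ_zero]
      linarith [h2 hb0]
    · by_cases hb0 : b = 0
      · rw [hb0, SQ_zero]
        linarith [h1 hp0]
      · linarith [h1 hp0, h2 hb0]
  · rintro _ ⟨b, hb, rfl⟩ ha0
    have hb0 : b ≠ 0 := by
      rintro rfl
      exact ha0 (map_zero _)
    rw [ek, SQ_mul, ← e2]
    linarith [h.pos b hb hb0]

theorem good : ∀ k : ℕ, k ≤ n → GoodNN Z k := by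
  intro k
  induction k using Nat.strong_induction_on with
  | _ k ih =>
    intro hk
    by_cases h1 : k ≤ 1
    · exact good_small hk h1
    · obtain ⟨j, rfl⟩ : ∃ j, k = j + 2 := ⟨k - 2, by omega⟩
      exact good_step hk (ih j (by omega) (by omega))

theorem GoodNN.compl {k : ℕ} (h : GoodNN Z k) {a : Z.A} (h1 : a ∈ (NN Z k).1)
    (h2 : a ∈ (NN Z k).2) : a = 0 := by
  by_contra h0
  linarith [h.pos a h1 h0, h.neg a h2 h0]

end Pool.Agent.Q94.QH
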