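import Pool.Agent.Q94.QH.Comb

/-!
# Semisimplicity
-/

open Module
open scoped ComplexConjugate

set_option linter.unusedSectionVars false

namespace Pool.Agent.Q94.QH

open Pool.Agent.W539.DI

variable {n : ℕ}

/-- The integral on rational classes. -/
noncomputable def trQ (Z : RatCoh n) (a : Z.A) : ℚ := (Z.tr_rat a).choose
theorem trQ_eq (Z : RatCoh n) (a : Z.A) : Z.X.tr (Z.ι a) = (trQ Z a : ℂ) :=
  (Z.tr_rat a).choose_spec

/-- The integral on rational classes is linear. -/
noncomputable def trL (Z : RatCoh n) : Z.A →ₗ[ℚ] ℚ where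
  toFun := trQ Z
  map_add' a b := by
    have h : ((trQ Z (a + b) : ℚ) : ℂ) = ((trQ Z a + trQ Z b : ℚ) : ℂ) := by
      rw [← trQ_eq, map_add, map_add, trQ_eq, trQ_eq]
      push_cast
      rfl
    exact_mod_cast h
  map_smul' r a := by
    have h : ((trQ Z (r • a) : ℚ) : ℂ) = ((r * trQ Z a : ℚ) : ℂ) := by
      rw [← trQ_eq, ι_smul, map_smul, trQ_eq]
      push_cast
      rfl
    exact_mod_cast h

theorem trL_eq (Z : RatCoh n) (a : Z.A) : Z.X.tr (Z.ι a) = (trL Z a : ℂ) := trQ_eq Z a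

/-- Rational functionals commute with taking rational parts. -/
theorem T_fun {Z : RatCoh n} (F : Z.X.R →ₗ[ℂ] ℂ) (f : Z.A →ₗ[ℚ] ℚ)
    (h : ∀ a, F (Z.ι a) = (f a : ℂ)) (l : ℂ →ₗ[ℚ] ℚ) (x : Z.X.R) :
    f (T Z l x) = l (F x) := by
  conv_rhs => rw [← (bb' Z).sum_repr x]
  rw [map_sum, map_sum, T_apply, map_sum]
  refine Finset.sum_congr rfl fun i _ => ?_
  rw [map_smul, map_smul, ← bb_eq, h, smul_eq_mul, smul_eq_mul]
  have e : (bb' Z).repr x i * (f (bb Z i) : ℂ) = f (bb Z i) • (bb' Z).repr x i := by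
    rw [Rat.smul_def, mul_comm]
  rw [e, map_smul, smul_eq_mul, mul_comm]

/-- A rational subspace which is stable under the generators. -/
def ofE {Z : RatCoh n} (V : Submodule ℚ Z.A) (h : ∀ g, ∀ a ∈ V, E Z g a ∈ V) :
    Submodule FA Z.A where
  carrier := V
  add_mem' := V.add_mem
  zero_mem' := V.zero_mem
  smul_mem' := by
    intro s
    have key : ∀ a ∈ V, s • a ∈ V := by
      induction s using FreeAlgebra.induction with
      | grade0 r =>
        intro a ha
        rw [algebraMap_smul]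
        exact V.smul_mem r ha
      | grade1 g => intro a ha; rw [gen_smul]; exact h g a ha
      | mul s t hs ht => intro a ha; rw [mul_smul]; exact hs _ (ht _ ha)
      | add s t hs ht => intro a ha; rw [add_smul]; exact V.add_mem (hs _ ha) (ht _ ha)
    intro a ha
    exact key a ha

/-- The operators `wt` preserve the complex span of a submodule. -/
theorem wt_span {Z : RatCoh n} (U : Submodule FA Z.A) (w : ℤ → ℂ) {a : Z.A} (ha : a ∈ U) :
    wt Z.X w (Z.ι a) ∈ Submodule.span ℂ (Z.ι '' (U : Set Z.A)) := by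
  refine mem_span_of_T Z fun l => ?_
  have : E Z (w, l) a ∈ U := by
    rw [← gen_smul]
    exact U.smul_mem _ ha
  exact this

/-- The adjoint of `wt`. -/
theorem wt_adj {X : KRing n} (m : ℕ) (w : ℤ → ℂ) (x y : X.R) :
    X.tr (X.ω ^ m * (x * wt X w y)) = X.tr (X.ω ^ m * (wt X (fun i => w (-i)) x * y)) := by
  refine X.ind (P := fun x => X.tr (X.ω ^ m * (x * wt X w y)) =
    X.tr (X.ω ^ m * (wt X (fun i => w (-i)) x * y))) (by simp) ?_ ?_ x
  · intro x x' hx hx'
    simp only [map_add, add_mul, mul_add, hx, hx']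
  · intro p q x hx
    refine X.ind (P := fun y => X.tr (X.ω ^ m * (x * wt X w y)) =
      X.tr (X.ω ^ m * (wt X (fun i => w (-i)) x * y))) (by simp) ?_ ?_ y
    · intro y y' hy hy'
      simp only [map_add, mul_add, hy, hy']
    · intro p' q' y hy
      unfold wt
      rw [diag_of X _ hx, diag_of X _ hy]
      simp only [mul_smul_comm, smul_mul_assoc, map_smul, smul_eq_mul]
      by_cases h : p + p' + m = n ∧ q + q' + m = n
      · congr 2
        omega
      · rw [X.tr_van _ _ _ (X.pow_mul_mem X.ω_mem m (X.mul_mem hx hy)) h, mul_zero, mul_zero]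

/-- The orthogonal complement. -/
noncomputable def perpQ {Z : RatCoh n} (m : ℕ) (U : Submodule FA Z.A) : Submodule ℚ Z.A where
  carrier := {a | ∀ u ∈ U, trL Z (w₀ Z ^ m * (u * a)) = 0}
  add_mem' := by
    intro a b ha hb u hu
    rw [mul_add, mul_add, map_add, ha u hu, hb u hu, add_zero]
  zero_mem' := by
    intro u _
    rw [mul_zero, mul_zero, map_zero]
  smul_mem' := by
    intro r a ha u hu
    rw [mul_smul_comm, mul_smul_comm, map_smul, ha u hu, smul_zero]

theorem perp_span {Z : RatCoh n} {m : ℕ} {U : Submodule FA Z.A} {a : Z.A} (ha : a ∈ perpQ m U)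
    {x : Z.X.R} (hx : x ∈ Submodule.span ℂ (Z.ι '' (U : Set Z.A))) :
    Z.X.tr (Z.X.ω ^ m * (x * Z.ι a)) = 0 := by
  induction hx using Submodule.span_induction with
  | mem x hx =>
    obtain ⟨u, hu, rfl⟩ := hx
    have h := ha u hu
    have h1 := trL_eq Z (w₀ Z ^ m * (u * a))
    rw [h, map_mul Z.ι, map_pow Z.ι, ι_w₀, map_mul Z.ι] at h1
    rw [h1]
    simp
  | zero => simp
  | add x y _ _ hx hy => rw [add_mul, mul_add, map_add, hx, hy, add_zero]
  | smul r x _ hx => rw [smul_mul_assoc, mul_smul_comm, map_smul, hx, smul_zero]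

/-- The orthogonal complement, as a submodule. -/
noncomputable def perp {Z : RatCoh n} (m : ℕ) (U : Submodule FA Z.A) : Submodule FA Z.A :=
  ofE (perpQ m U) (by
    rintro ⟨w, l⟩ a ha u hu
    change trL Z (w₀ Z ^ m * (u * T Z l (wt Z.X w (Z.ι a)))) = 0
    have h := T_fun (Z := Z) (Z.X.tr ∘ₗ LinearMap.mulLeft ℂ (Z.X.ω ^ m) ∘ₗ LinearMap.mulLeft ℂ (Z.ι u))
      (trL Z ∘ₗ LinearMap.mulLeft ℚ (w₀ Z ^ m) ∘ₗ LinearMap.mulLeft ℚ u) (fun b => by
        simp only [LinearMap.comp_apply, LinearMap.mulLeft_apply]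
        rw [← trL_eq, map_mul Z.ι, map_pow Z.ι, map_mul Z.ι, ι_w₀]) l (wt Z.X w (Z.ι a))
    simp only [LinearMap.comp_apply, LinearMap.mulLeft_apply] at h
    rw [h, wt_adj, perp_span ha (wt_span U _ hu), map_zero])

theorem mem_perp {Z : RatCoh n} {m : ℕ} {U : Submodule FA Z.A} {a : Z.A} :
    a ∈ perp m U ↔ ∀ u ∈ U, trL Z (w₀ Z ^ m * (u * a)) = 0 := Iff.rfl

/-- Submodules on which the form is definite. -/
structure Definite (Z : RatCoh n) (s : ℤ) (m : ℕ) (N : Submodule FA Z.A) : Prop where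
  ne : ∀ a ∈ N, a ≠ 0 → SQ Z s m a a ≠ 0

theorem Definite.disj {Z : RatCoh n} {s : ℤ} {m : ℕ} {N : Submodule FA Z.A} (h : Definite Z s m N)
    {U : Submodule FA Z.A} (hU : U ≤ N) {a : Z.A} (ha : a ∈ U) (hp : a ∈ perp m U) : a = 0 := by
  by_contra h0
  apply h.ne a (hU ha) h0
  unfold SQ
  rw [BB_apply]
  have h1 : diag Z.X wf (Z.ι a) = wt Z.X (fun i => Complex.I ^ i) (Z.ι a) := rfl
  rw [h1, perp_span hp (wt_span U _ ha), mul_zero, Complex.zero_re]

theorem Definite.semisimple {Z : RatCoh n} {s : ℤ} {m : ℕ} {N : Submodule FA Z.A}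
    (h : Definite Z s m N) : IsSemisimpleModule FA N := by
  suffices hc : ComplementedLattice (Submodule FA N) from { __ := hc }
  rw [N.mapIic.complementedLattice_iff, Set.Iic.complementedLattice_iff]
  intro U hU
  refine ⟨N ⊓ perp m U, inf_le_left, ?_, ?_⟩
  · rw [eq_bot_iff]
    rintro a ⟨ha, -, hp⟩
    exact (Submodule.mem_bot FA).2 (h.disj hU ha hp)
  · apply le_antisymm (sup_le hU inf_le_left)
    -- dimension count
    let NQ : Submodule ℚ Z.A := N.restrictScalars ℚ
    let UQ : Submodule ℚ Z.A := U.restrictScalars ℚ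
    let B : NQ →ₗ[ℚ] Module.Dual ℚ UQ :=
      LinearMap.mk₂ ℚ (fun (a : NQ) (u : UQ) => trL Z (w₀ Z ^ m * ((u : Z.A) * (a : Z.A))))
        (fun a a' u => by simp [mul_add]) (fun r a u => by simp)
        (fun a u u' => by simp [mul_add, add_mul]) (fun r a u => by simp)
    have hB : ∀ (a : NQ) (u : UQ), B a u = trL Z (w₀ Z ^ m * ((u : Z.A) * (a : Z.A))) :=
      fun a u => rfl
    have hker : LinearMap.ker B ⊓ UQ.comap NQ.subtype = ⊥ := by
      rw [eq_bot_iff]
      rintro ⟨a, haN⟩ ⟨h1, h2⟩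
      have h3 : a ∈ U := h2
      have h4 : a ∈ perp m U := by
        intro u hu
        have := congrArg (fun f => f ⟨u, hu⟩) (LinearMap.mem_ker.1 h1)
        exact this
      have := h.disj hU h3 h4
      subst this
      exact Submodule.zero_mem _
    have hfin : FiniteDimensional ℚ NQ := inferInstance
    have hd1 := LinearMap.finrank_range_add_finrank_ker B
    have hd2 : finrank ℚ (LinearMap.range B) ≤ finrank ℚ UQ := by
      rw [← Subspace.dual_finrank_eq (K := ℚ) (V := UQ)]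
      exact Submodule.finrank_le _
    have hd3 : finrank ℚ (UQ.comap NQ.subtype) = finrank ℚ UQ := by
      have e : UQ.comap NQ.subtype ≃ₗ[ℚ] UQ :=
        Submodule.comapSubtypeEquivOfLe (show UQ ≤ NQ from hU)
      exact e.finrank_eq
    have hd4 := Submodule.finrank_sup_add_finrank_inf_eq (LinearMap.ker B) (UQ.comap NQ.subtype)
    rw [hker, finrank_bot, add_zero] at hd4
    have hd5 : finrank ℚ NQ ≤ finrank ℚ (LinearMap.ker B ⊔ UQ.comap NQ.subtype : Submodule ℚ NQ) := by
      omega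
    have htop : LinearMap.ker B ⊔ UQ.comap NQ.subtype = ⊤ :=
      Submodule.eq_top_of_finrank_eq (le_antisymm (Submodule.finrank_le _) hd5)
    intro a ha
    have h1 : (⟨a, ha⟩ : NQ) ∈ LinearMap.ker B ⊔ UQ.comap NQ.subtype := by
      rw [htop]
      trivial
    obtain ⟨p, hp, u, hu, hpu⟩ := Submodule.mem_sup.1 h1
    have h2 : (p : Z.A) + u = a := congrArg Subtype.val hpu
    rw [← h2, add_comm]
    refine Submodule.add_mem_sup hu ⟨p.2, ?_⟩
    intro v hv
    have := congrArg (fun f => f ⟨v, hv⟩) (LinearMap.mem_ker.1 hp)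
    exact this

theorem semi_PK_le {Z : RatCoh n} {k : ℕ} (hk : k ≤ n) : IsSemisimpleModule FA (PK Z {(k : ℤ)}) := by
  have g := good (Z := Z) k hk
  have h1 : IsSemisimpleModule FA (NN Z k).1 :=
    Definite.semisimple (s := k) (m := n - k) ⟨fun a ha h0 => (g.pos a ha h0).ne'⟩
  have h2 : IsSemisimpleModule FA (NN Z k).2 :=
    Definite.semisimple (s := k) (m := n - k) ⟨fun a ha h0 => (g.neg a ha h0).ne⟩
  rw [← g.sup]
  exact IsSemisimpleModule.sup h1 h2

theorem semi_PK {Z : RatCoh n} (k : ℤ) : IsSemisimpleModule FA (PK Z {k}) := by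
  rcases lt_trichotomy k 0 with h | h | h
  · exact Definite.semisimple (s := 0) (m := 0) ⟨fun a ha h0 => absurd (PK_neg h ha) h0⟩
  · subst h
    exact semi_PK_le (k := 0) (Nat.zero_le n)
  · rcases le_or_gt k n with h1 | h1
    · lift k to ℕ using h.le
      exact semi_PK_le (by omega)
    · rcases le_or_gt k (2 * n) with h2 | h2
      · have h3 : (2 * (n : ℤ) - k) + ((k - n).toNat : ℤ) = n := by omega
        have := semi_PK_le (Z := Z) (k := (2 * (n : ℤ) - k).toNat) (by omega)
        have e0 : (((2 * (n : ℤ) - k).toNat : ℕ) : ℤ) = 2 * (n : ℤ) - k := by omega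
        rw [e0] at this
        have e1 : (2 * (n : ℤ) - k) + 2 * ((k - n).toNat : ℤ) = k := by omega
        rw [← e1]
        refine IsSemisimpleModule.congr (LinearEquiv.ofBijective
          (LinearMap.restrict (om Z (k - n).toNat) (p := PK Z {2 * (n : ℤ) - k})
            (q := PK Z {(2 * (n : ℤ) - k) + 2 * ((k - n).toNat : ℤ)}) fun a ha => om_mem _ ha)
              ⟨?_, ?_⟩).symm
        · rw [injective_iff_map_eq_zero]
          rintro ⟨a, ha⟩ h0
          exact Subtype.ext (om_inj h3 ha (congrArg Subtype.val h0))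
        · rintro ⟨b, hb⟩
          obtain ⟨a, ha, hab⟩ := om_surj h3 hb
          exact ⟨⟨a, ha⟩, Subtype.ext hab⟩
      · exact Definite.semisimple (s := 0) (m := 0) ⟨fun a ha h0 => absurd (PK_top h2 ha) h0⟩

instance semi (Z : RatCoh n) : IsSemisimpleModule FA Z.A := by
  refine isSemisimpleModule_of_isSemisimpleModule_submodule' (p := fun k : ℤ => PK Z {k})
    (fun k => semi_PK k) ?_
  rw [eq_top_iff]
  intro a _
  obtain ⟨a', h1, h2⟩ := Z.deg a
  rw [h2]
  exact Submodule.sum_mem _ fun k _ => (le_iSup (fun k : ℤ => PK Z {k}) k) (mem_PK.2 (h1 k))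

/-- Isomorphisms from equal multiplicities. -/
theorem equiv_of_DK {Y Z : RatCoh n} {K : Set ℤ}
    (h : ∀ (S : Type) [AddCommGroup S] [Module FA S] [Module ℚ S] [IsScalarTower ℚ FA S]
      [FiniteDimensional ℚ S], DK S Y K = DK S Z K) : Nonempty (PK Y K ≃ₗ[FA] PK Z K) :=
  equiv_of_hd (A := FA) _ (PK Y K) (PK Z K) le_rfl h

/-- The two descriptions of the rational classes in given degrees. -/
noncomputable def partEquiv (Z : RatCoh n) (K : Set ℤ) : PK Z K ≃ₗ[ℚ] Z.part K where
  toFun a := ⟨a, mem_PK.1 a.2⟩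
  map_add' _ _ := rfl
  map_smul' _ _ := rfl
  invFun a := ⟨a, mem_PK.2 a.2⟩
  left_inv _ := rfl
  right_inv _ := rfl

theorem hodgeIso_of_equiv {Y Z : RatCoh n} {K : Set ℤ} (e : PK Y K ≃ₗ[FA] PK Z K) :
    HodgeIso Y Z K := by
  classical
  let F : Y.A →ₗ[FA] Z.A := (PK Z K).subtype ∘ₗ e.toLinearMap ∘ₗ
    LinearMap.codRestrict (PK Y K) (pr Y K) (pr_mem K)
  let g : Y.X.R →ₗ[ℂ] Z.X.R := (bb' Y).constr ℂ (fun i => Z.ι (F (bb Y i)))
  have hF : ∀ (r : ℚ) (a : Y.A), F (r • a) = r • F a := fun r a =>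
    map_smul (F.restrictScalars ℚ) r a
  have hg : ∀ a, g (Y.ι a) = Z.ι (F a) := by
    intro a
    conv_rhs => rw [← (bb Y).sum_repr a]
    rw [ι_expand, map_sum, map_sum, map_sum]
    refine Finset.sum_congr rfl fun i _ => ?_
    rw [map_smul, hF, ι_smul]
    congr 1
    exact (bb' Y).constr_basis ℂ _ i
  have hFe : ∀ a : PK Y K, F a = e a := by
    intro a
    change ((e ⟨pr Y K a, _⟩ : PK Z K) : Z.A) = e a
    congr 2
    exact Subtype.ext (pr_same a.2)
  let f : Y.part K ≃ₗ[ℚ] Z.part K :=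
    (partEquiv Y K).symm.trans ((e.restrictScalars ℚ).trans (partEquiv Z K))
  refine ⟨f, g, ?_, ?_⟩
  · intro a
    rw [hg]
    exact congrArg Z.ι (hFe ⟨a, mem_PK.2 a.2⟩)
  · rintro p q - x hx
    change g x ∈ ⨆ j : ℤ, Z.X.H (p + j, q + j)
    have h1 := wt_comm g F hg (Pi.single (p - q) 1) x
    have h2 : wt Y.X (Pi.single (p - q) 1) x = x := by
      unfold wt
      rw [diag_of Y.X _ hx]
      simp only [Pi.single_eq_same, one_smul]
    rw [h2] at h1
    rw [h1]
    generalize g x = y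
    refine Z.X.ind (P := fun y => wt Z.X (Pi.single (p - q) 1) y ∈
      ⨆ j : ℤ, Z.X.H (p + j, q + j)) ?_ ?_ ?_ y
    · rw [map_zero]
      exact Submodule.zero_mem _
    · intro y y' hy hy'
      rw [map_add]
      exact Submodule.add_mem _ hy hy'
    · intro p' q' y hy
      unfold wt
      rw [diag_of Z.X _ hy]
      by_cases h : p' - q' = p - q
      · refine Submodule.smul_mem _ _ ?_
        have h3 := le_iSup (fun j : ℤ => Z.X.H (p + j, q + j)) (p' - p)
        apply h3
        have e1 : p + (p' - p) = p' := by ring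
        have e2 : q + (p' - p) = q' := by omega
        change y ∈ Z.X.H (p + (p' - p), q + (p' - p))
        rw [e1, e2]
        exact hy
      · simp only
        rw [Pi.single_eq_of_ne h, zero_smul]
        exact Submodule.zero_mem _

theorem hodgeIso_of_DK {Y Z : RatCoh n} {K : Set ℤ}
    (h : ∀ (S : Type) [AddCommGroup S] [Module FA S] [Module ℚ S] [IsScalarTower ℚ FA S]
      [FiniteDimensional ℚ S], DK S Y K = DK S Z K) : HodgeIso Y Z K := by
  obtain ⟨e⟩ := equiv_of_DK h
  exact hodgeIso_of_equiv e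

end Pool.Agent.Q94.QH
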