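import Pool.Agent.Q94.QH.Semi

/-!
# Degree zero and small dimensions
-/

open Module

set_option linter.unusedSectionVars false

namespace Pool.Agent.Q94.QH

open Pool.Agent.W539.DI

variable {n : ℕ}

/-- The scalar by which an element of the free algebra acts in degree zero. -/
noncomputable def chi : FA →ₐ[ℚ] ℚ := FreeAlgebra.lift ℚ (fun g : Gen => g.2 (g.1 0))

theorem wt_zero (Z : RatCoh n) (w : ℤ → ℂ) {x : Z.X.R} (hx : x ∈ degC Z.X {0}) :
    wt Z.X w x = w 0 • x := by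
  have h : degC Z.X {0} ≤ LinearMap.eqLocus (wt Z.X w) (w 0 • LinearMap.id) := by
    refine iSup_le ?_
    rintro ⟨⟨p, q⟩, hpq⟩ y hy
    have h1 : p + q = 0 := hpq
    rw [LinearMap.mem_eqLocus, LinearMap.smul_apply, LinearMap.id_apply]
    unfold wt
    rw [diag_of Z.X _ hy]
    by_cases h2 : p < 0 ∨ q < 0
    · have hy' : y ∈ Z.X.H (p, q) := hy
      rw [Z.X.van p q h2, Submodule.mem_bot] at hy'
      rw [hy', smul_zero, smul_zero]
    · congr 2
      change p - q = 0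
      omega
  exact h hx

theorem smul_zero_deg {Z : RatCoh n} {a : Z.A} (ha : a ∈ PK Z {0}) (s : FA) :
    s • a = chi s • a := by
  induction s using FreeAlgebra.induction with
  | grade0 r =>
    rw [algebraMap_smul, AlgHom.commutes]
    rfl
  | grade1 g =>
    rw [gen_smul]
    change T Z g.2 (wt Z.X g.1 (Z.ι a)) = _
    rw [wt_zero Z _ (mem_PK.1 ha), T_smul, chi, FreeAlgebra.lift_ι_apply]
  | mul s t hs ht =>
    rw [mul_smul, ht, map_mul, mul_comm, mul_smul, ← hs]
    exact (map_smul ((act Z s)) (chi t) a)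
  | add s t hs ht => rw [add_smul, hs, ht, map_add, add_smul]

theorem finrank_zero_deg (Z : RatCoh n) : finrank ℚ (PK Z {0}) = 1 := by
  have h1 : (1 : Z.X.R) ∈ Z.X.H (0, 0) := SetLike.GradedOne.one_mem (A := Z.X.H)
  have hne : (⟨1, h1⟩ : Z.X.H (0, 0)) ≠ 0 := by
    intro h0
    have h2 : (1 : Z.X.R) = 0 := congrArg Subtype.val h0
    have h3 : Subsingleton Z.X.R := subsingleton_of_zero_eq_one h2.symm
    have h4 := Z.X.conn
    rw [finrank_zero_of_subsingleton] at h4
    omega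
  have h00 := (finrank_eq_one_iff_of_nonzero' _ hne).1 Z.X.conn
  have hdeg : degC Z.X {0} ≤ Z.X.H (0, 0) := by
    refine iSup_le ?_
    rintro ⟨⟨p, q⟩, hpq⟩
    have h1 : p + q = 0 := hpq
    by_cases h2 : p < 0 ∨ q < 0
    · rw [Z.X.van p q h2]
      exact bot_le
    · have hp : p = 0 := by omega
      have hq : q = 0 := by omega
      subst hp hq
      exact le_rfl
  have hone : (1 : Z.A) ∈ PK Z {0} := by
    rw [mem_PK, map_one]
    exact mem_degC (p := 0) (q := 0) (by simp) h1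
  refine finrank_eq_one (⟨1, hone⟩ : PK Z {0}) ?_ ?_
  · intro h0
    have h2 : (1 : Z.A) = 0 := congrArg Subtype.val h0
    apply hne
    apply Subtype.ext
    change (1 : Z.X.R) = 0
    rw [← map_one Z.ι, h2, map_zero]
  · rintro ⟨a, ha⟩
    obtain ⟨z, hz⟩ := h00 ⟨Z.ι a, hdeg (mem_PK.1 ha)⟩
    have h2 : z • (1 : Z.X.R) = Z.ι a := congrArg Subtype.val hz
    refine ⟨exists_one.choose z, Subtype.ext ?_⟩
    have h3 := T_smul Z exists_one.choose z 1
    rw [map_one, h2] at h3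
    rw [show T Z exists_one.choose (Z.ι a) = a from T1_ι Z a] at h3
    exact h3.symm

theorem DK_zero (S : Type) [AddCommGroup S] [Module FA S] [Module ℚ S] [IsScalarTower ℚ FA S]
    [FiniteDimensional ℚ S] (Y Z : RatCoh n) : DK S Y {0} = DK S Z {0} := by
  have e : PK Y {0} ≃ₗ[ℚ] PK Z {0} := LinearEquiv.ofFinrankEq _ _ (by
    rw [finrank_zero_deg, finrank_zero_deg])
  refine hd_congr (LinearEquiv.ofBijective
    ({ toFun := e, map_add' := map_add e, map_smul' := ?_ } : PK Y {0} →ₗ[FA] PK Z {0})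
    e.bijective)
  intro s a
  have h1 : s • a = chi s • a := Subtype.ext (smul_zero_deg a.2 s)
  have h2 : s • e a = chi s • e a := Subtype.ext (smul_zero_deg (e a).2 s)
  rw [h1, map_smul]
  exact h2.symm

theorem DK_of_hodgeIso {Y Z : RatCoh n} {K : Set ℤ} (h : HodgeIso Y Z K) (S : Type)
    [AddCommGroup S] [Module FA S] [Module ℚ S] [IsScalarTower ℚ FA S] [FiniteDimensional ℚ S] :
    DK S Y K = DK S Z K := by
  obtain ⟨f, g, hfg, hg⟩ := h
  let e : PK Y K ≃ₗ[ℚ] PK Z K := ((partEquiv Y K).trans f).trans (partEquiv Z K).symm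
  have he : ∀ a : PK Y K, Z.ι (e a : Z.A) = g (Y.ι a) := fun a => (hfg (partEquiv Y K a)).symm
  -- a rational map on everything
  let F : Y.A →ₗ[ℚ] Z.A := (PK Z K).subtype.restrictScalars ℚ ∘ₗ e.toLinearMap ∘ₗ
    (LinearMap.codRestrict (PK Y K) (pr Y K) (pr_mem K)).restrictScalars ℚ
  have hF : ∀ a, (g ∘ₗ dg Y.X K) (Y.ι a) = Z.ι (F a) := by
    intro a
    rw [LinearMap.comp_apply, ← ι_pr]
    exact (he ⟨pr Y K a, pr_mem K a⟩).symm
  have hw : ∀ w x, (g ∘ₗ dg Y.X K) (wt Y.X w x) = wt Z.X w ((g ∘ₗ dg Y.X K) x) := by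
    intro w x
    refine Y.X.ind (P := fun x => (g ∘ₗ dg Y.X K) (wt Y.X w x) =
      wt Z.X w ((g ∘ₗ dg Y.X K) x)) (by simp) ?_ ?_ x
    · intro x y hx hy
      simp only [map_add, hx, hy]
    · intro p q x hx
      have h1 : wt Y.X w x = w (p - q) • x := by
        unfold wt
        rw [diag_of Y.X _ hx]
      rw [h1, map_smul]
      by_cases hpq : p + q ∈ K
      · have h2 : dg Y.X K x = x := dg_same (mem_degC hpq hx)
        rw [LinearMap.comp_apply, h2]
        exact (wt_col w (hg p q hpq x hx)).symm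
      · have h2 : dg Y.X K x = 0 := by
          unfold dg
          rw [diag_of Y.X _ hx, if_neg hpq, zero_smul]
        rw [LinearMap.comp_apply, h2, map_zero, smul_zero, map_zero]
  let G : Y.A →ₗ[FA] Z.A := lift F (comm_E _ _ hF hw)
  have hG : ∀ a : PK Y K, G a = e a := by
    intro a
    change ((e ⟨pr Y K a, _⟩ : PK Z K) : Z.A) = e a
    congr 2
    exact Subtype.ext (pr_same a.2)
  refine hd_congr (LinearEquiv.ofBijective (LinearMap.restrict G (p := PK Y K) (q := PK Z K)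
    fun a ha => by rw [hG ⟨a, ha⟩]; exact (e ⟨a, ha⟩).2) ⟨?_, ?_⟩)
  · intro a b hab
    apply e.injective
    apply Subtype.ext
    rw [← hG, ← hG]
    exact congrArg Subtype.val hab
  · intro b
    refine ⟨e.symm b, Subtype.ext ?_⟩
    change G (e.symm b : Y.A) = b
    rw [hG, e.apply_symm_apply]

section small

variable (S : Type) [AddCommGroup S] [Module FA S] [Module ℚ S] [IsScalarTower ℚ FA S]
  [FiniteDimensional ℚ S]

theorem DK_out (Z : RatCoh n) {k : ℤ} (h : k < 0 ∨ 2 * (n : ℤ) < k) : DK S Z {k} = 0 :=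
  DK_empty S Z fun j hj => by
    rw [Set.mem_singleton_iff] at hj
    rw [hj]
    exact h

/-- It is enough to consider the lower half. -/
theorem DK_half {Y Z : RatCoh n} {P : ℤ → Prop} (hP : ∀ k, P k → P (2 * n - k))
    (h : ∀ k : ℤ, 0 ≤ k → k ≤ n → P k → DK S Y {k} = DK S Z {k}) (k : ℤ) (hk : P k) :
    DK S Y {k} = DK S Z {k} := by
  by_cases h0 : k < 0 ∨ 2 * (n : ℤ) < k
  · rw [DK_out S Y h0, DK_out S Z h0]
  · by_cases h1 : k ≤ n
    · exact h k (by omega) h1 hk
    · rw [← DK_refl1 S Y k, ← DK_refl1 S Z k]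
      exact h _ (by omega) (by omega) (hP k hk)

theorem DK_congr_set {Y Z : RatCoh n} {K : Set ℤ} (h : ∀ k ∈ K, DK S Y {k} = DK S Z {k}) :
    DK S Y K = DK S Z K := by
  classical
  rw [DK_sum, DK_sum S Z]
  exact Finset.sum_congr rfl fun k hk => h k (Finset.mem_filter.1 hk).2

theorem quad_even {m : ℤ} {k : ℤ} (hk : k ∈ quad m) : Even (k - m) := by
  obtain ⟨-, r, hr⟩ := hk
  exact ⟨-2 * r, by omega⟩

/-- The degrees congruent to `n` modulo two. -/
theorem gen_par {Y Z : RatCoh n} (F : RatFM Y Z)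
    (h : ∀ k : ℤ, k ≤ n - 4 → Even (k - n) → DK S Y {k} = DK S Z {k}) (k : ℤ)
    (hk : Even (k - n)) : DK S Y {k} = DK S Z {k} := by
  refine DK_half S (P := fun k => Even (k - n)) (fun k hk => ?_) ?_ k hk
  · obtain ⟨r, hr⟩ := hk
    exact ⟨-r, by omega⟩
  intro k h0 h1 hk
  by_cases h2 : k ≤ n - 4
  · exact h k h2 hk
  have h3 : k = n ∨ k = n - 2 := by
    obtain ⟨r, hr⟩ := hk
    omega
  rcases h3 with rfl | rfl
  · have hB := inv_B S F
    rw [quad_rec, quad_rec S Z] at hB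
    have h4 : DK S Y (quad (n - 4)) = DK S Z (quad (n - 4)) := DK_congr_set S fun k hk => by
      refine h k hk.1 ?_
      obtain ⟨r, hr⟩ := quad_even hk
      exact ⟨r - 2, by omega⟩
    omega
  · have hA := inv_A S F
    rw [quad_rec, quad_rec S Z] at hA
    have h4 : DK S Y (quad (n - 2 - 4)) = DK S Z (quad (n - 2 - 4)) :=
      DK_congr_set S fun k hk => by
        refine h k (by have := hk.1; omega) ?_
        obtain ⟨r, hr⟩ := quad_even hk
        exact ⟨r - 3, by omega⟩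
    omega

/-- All degrees. -/
theorem gen_all {Y Z : RatCoh n} (F : RatFM Y Z)
    (h : ∀ k : ℤ, k ≤ n - 3 → DK S Y {k} = DK S Z {k}) (k : ℤ) :
    DK S Y {k} = DK S Z {k} := by
  by_cases hk : Even (k - n)
  · exact gen_par S F (fun k h1 _ => h k (by omega)) k hk
  refine DK_half S (P := fun k => ¬ Even (k - n)) (fun k hk h' => hk ?_) ?_ k hk
  · obtain ⟨r, hr⟩ := h'
    exact ⟨-r, by omega⟩
  intro k h0 h1 hk
  by_cases h2 : k ≤ n - 3
  · exact h k h2
  have h3 : k = n - 1 := by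
    rw [Int.not_even_iff_odd] at hk
    obtain ⟨r, hr⟩ := hk
    omega
  subst h3
  have hC := inv_C S F
  have e : ∀ W : RatCoh n, DK S W (otherS n) = DK S W {(n : ℤ) - 1} +
      DK S W {k | k ≤ (n : ℤ) - 3 ∧ ¬ Even (k - n)} := by
    intro W
    rw [← DK_union]
    · congr 1
      ext k
      simp only [otherS, Set.mem_ofPred_eq, Set.mem_union, Set.mem_singleton_iff]
      constructor
      · rintro ⟨h1, h2⟩
        have h3 := h2
        rw [Int.not_even_iff_odd] at h3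
        obtain ⟨r, hr⟩ := h3
        by_cases h4 : k = n - 1
        · exact Or.inl h4
        · exact Or.inr ⟨by omega, h2⟩
      · rintro (rfl | ⟨h1, h2⟩)
        · exact ⟨by omega, by rw [Int.not_even_iff_odd]; exact ⟨-1, by ring⟩⟩
        · exact ⟨by omega, h2⟩
    · rintro k hk ⟨h1, -⟩
      rw [Set.mem_singleton_iff] at hk
      omega
  rw [e Y, e Z] at hC
  have h4 : DK S Y {k | k ≤ (n : ℤ) - 3 ∧ ¬ Even (k - n)} =
      DK S Z {k | k ≤ (n : ℤ) - 3 ∧ ¬ Even (k - n)} := DK_congr_set S fun k hk => h k hk.1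
  omega

end small

/-! ### The results -/

theorem quad_iso {Y Z : RatCoh n} (F : RatFM Y Z) :
    HodgeIso Y Z {k : ℤ | k ≤ (n : ℤ) - 2 ∧ 4 ∣ (n : ℤ) - 2 - k} :=
  hodgeIso_of_DK fun S _ _ _ _ _ => inv_A S F

theorem quadAll_iso {Y Z : RatCoh n} (F : RatFM Y Z) :
    HodgeIso Y Z {k : ℤ | 4 ∣ (n : ℤ) - k} :=
  hodgeIso_of_DK fun S _ _ _ _ _ => by
    have h1 := inv_B S F
    have h2 := quadAll_eq S Y
    have h3 := quadAll_eq S Z
    unfold quadAll at h2 h3
    omega

theorem other_iso {Y Z : RatCoh n} (F : RatFM Y Z) :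
    HodgeIso Y Z {k : ℤ | k < n ∧ ¬ Even (k - n)} :=
  hodgeIso_of_DK fun S _ _ _ _ _ => inv_C S F

theorem par_iso {Y Z : RatCoh n} (F : RatFM Y Z)
    (h : ∀ k : ℤ, 0 < k → k ≤ (n : ℤ) - 4 → Even (k - n) → HodgeIso Y Z {k}) (k : ℤ)
    (hk : Even (k - n)) : HodgeIso Y Z {k} :=
  hodgeIso_of_DK fun S _ _ _ _ _ => gen_par S F (fun k h1 h2 => by
    rcases lt_trichotomy k 0 with h0 | rfl | h0
    · rw [DK_out S Y (Or.inl h0), DK_out S Z (Or.inl h0)]
    · exact DK_zero S Y Z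
    · exact DK_of_hodgeIso (h k h0 h1 h2) S) k hk

theorem all_iso {Y Z : RatCoh n} (F : RatFM Y Z)
    (h : ∀ k : ℤ, 0 < k → k ≤ (n : ℤ) - 3 → HodgeIso Y Z {k}) (k : ℤ) : HodgeIso Y Z {k} :=
  hodgeIso_of_DK fun S _ _ _ _ _ => gen_all S F (fun k h1 => by
    rcases lt_trichotomy k 0 with h0 | rfl | h0
    · rw [DK_out S Y (Or.inl h0), DK_out S Z (Or.inl h0)]
    · exact DK_zero S Y Z
    · exact DK_of_hodgeIso (h k h0 h1) S) k

/-- The single degree `n - 2` for `n ≤ 6`. -/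
theorem mid_iso {Y Z : RatCoh n} (hn : n ≤ 6) (F : RatFM Y Z) : HodgeIso Y Z {(n : ℤ) - 2} :=
  hodgeIso_of_DK fun S _ _ _ _ _ => by
    have hA := inv_A S F
    rw [quad_rec, quad_rec S Z] at hA
    have h4 : DK S Y (quad (n - 2 - 4)) = DK S Z (quad (n - 2 - 4)) :=
      DK_congr_set S fun k hk => by
        rcases lt_trichotomy k 0 with h0 | rfl | h0
        · rw [DK_out S Y (Or.inl h0), DK_out S Z (Or.inl h0)]
        · exact DK_zero S Y Z
        · have := hk.1
          omega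
    omega

end Pool.Agent.Q94.QH
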