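import Pool.Agent.Q94.QH.Prim

/-!
# The Mukai pairing and the symmetric form
-/

open Module Polynomial
open scoped ComplexConjugate

namespace Pool.Agent.Q94.QH

open Pool.Agent.W539.DI

/-- Square roots of polynomials modulo powers of `X`. -/
theorem exists_sqrt (U : ℚ[X]) (hU : U.coeff 0 = 1) (N : ℕ) :
    ∃ G Q : ℚ[X], G.coeff 0 = 1 ∧ G ^ 2 = U + X ^ (N + 1) * Q := by
  induction N with
  | zero =>
    have h1 : X ∣ (1 - U : ℚ[X]) := by
      rw [X_dvd_iff, coeff_sub, hU, coeff_one_zero, sub_self]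
    obtain ⟨Q, hQ⟩ := h1
    refine ⟨1, Q, coeff_one_zero, ?_⟩
    rw [zero_add, pow_one, ← hQ]
    ring
  | succ N ih =>
    obtain ⟨G, Q, h0, h1⟩ := ih
    have h2 : X ∣ (Q - C (Q.coeff 0) * G) := by
      rw [X_dvd_iff, coeff_sub, coeff_C_mul, h0, mul_one, sub_self]
    obtain ⟨R, hR⟩ := h2
    refine ⟨G - C (Q.coeff 0 / 2) * X ^ (N + 1),
      R + C (Q.coeff 0 / 2) ^ 2 * X ^ N, ?_, ?_⟩
    · rw [coeff_sub, h0, coeff_C_mul, coeff_X_pow]
      simp
    · have h3 : C (Q.coeff 0) = 2 * C (Q.coeff 0 / 2) := by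
        rw [← C_ofNat, ← C_mul]
        congr 1
        ring
      have h4 : Q = C (Q.coeff 0) * G + X * R := by rw [← hR]; ring
      have h5 : (G - C (Q.coeff 0 / 2) * X ^ (N + 1)) ^ 2 =
          G ^ 2 - 2 * C (Q.coeff 0 / 2) * G * X ^ (N + 1) +
            C (Q.coeff 0 / 2) ^ 2 * X ^ (N + 1) * X ^ (N + 1) := by ring
      rw [h5, h1]
      linear_combination X ^ (N + 1) * h4 + X ^ (N + 1) * G * h3

variable {n : ℕ}

/-- The function of the symmetric form: `± i^(p+q-n) i^(p-q)`. -/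
noncomputable def f0 (n : ℕ) (pq : ℤ × ℤ) : ℂ :=
  eps n * Complex.I ^ (pq.1 + pq.2 - n) * Complex.I ^ (pq.1 - pq.2)

theorem f0_eq (p q : ℤ) : f0 n (p, q) = eps n * Complex.I ^ (2 * p - n) := by
  unfold f0
  rw [mul_assoc, ← zpow_add₀ Complex.I_ne_zero]
  congr 2
  ring

/-- The degrees congruent to `n` modulo two. -/
def par (n : ℕ) : Set ℤ := {k | Even (k - n)}

theorem F_symm {X : KRing n} {z : X.R} (hz : z ∈ X.H (1, 1)) (m : ℕ) {x y : X.R}
    (hx : x ∈ degC X (par n)) (hy : y ∈ degC X (par n)) :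
    BB X z m (f0 n) y x = (-1 : ℂ) ^ (m : ℤ) * BB X z m (f0 n) x y := by
  refine BB_symm hz m (f0 n) _ (par n) (fun p q hpq _ => ?_) hx hy
  rw [f0_eq, f0_eq]
  have hp : Even (p + q - n) := hpq
  have e1 : (2 * (n - m - p) - n : ℤ) = (2 * p - n) + 2 * (n - m - 2 * p) := by ring
  rw [e1, zpow_add₀ Complex.I_ne_zero, I_zpow_two]
  have e2 : (-1 : ℂ) ^ ((n - m - p + (n - m - q)) * (p + q)) * (-1 : ℂ) ^ ((n : ℤ) - m - 2 * p) =
      (-1 : ℂ) ^ (m : ℤ) := by
    rw [← zpow_add₀ (by norm_num : (-1 : ℂ) ≠ 0)]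
    apply neg_one_zpow_eq
    obtain ⟨r, hr⟩ := hp
    have e3 : p + q = n + (r + r) := by omega
    rw [show ((n : ℤ) - m - p + (n - m - q)) = 2 * (n - m) - (p + q) by ring, e3]
    have e4 : (2 * ((n : ℤ) - m) - (n + (r + r))) * (n + (r + r)) + (n - m - 2 * p) - m =
        2 * ((n - m) * (n + (r + r)) - m - p - 2 * r * (n + r)) - n * (n - 1) := by ring
    rw [e4]
    exact Even.sub (even_two_mul _) (Int.even_mul_pred_self _)
  calc (-1 : ℂ) ^ ((n - m - p + (n - m - q)) * (p + q)) *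
        (eps n * (Complex.I ^ (2 * p - (n : ℤ)) * (-1) ^ ((n : ℤ) - m - 2 * p)))
      = ((-1 : ℂ) ^ ((n - m - p + (n - m - q)) * (p + q)) * (-1) ^ ((n : ℤ) - m - 2 * p)) *
        (eps n * Complex.I ^ (2 * p - (n : ℤ))) := by ring
    _ = _ := by rw [e2]

/-- The Weil operator. -/
noncomputable def WO (X : KRing n) : X.R →ₗ[ℂ] X.R := wt X (fun i => Complex.I ^ i)

theorem dual_eq (X : KRing n) (x : X.R) :
    X.dual x = diag X (fun pq => Complex.I ^ (pq.1 + pq.2)) x := rfl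

/-- The weights of the exponential series. -/
noncomputable def wgt (m : ℕ) : ℚ := 1 / (2 ^ m * (m.factorial : ℚ))

theorem mukai_sum (X : KRing n) (x : X.R) :
    eps n * Complex.I ^ (-(n : ℤ)) * X.mukai (WO X x) x =
      ∑ m ∈ Finset.range (n + 1), (wgt m : ℂ) * BB X X.c m (f0 n) x x := by
  unfold KRing.mukai KRing.expc WO wt
  rw [dual_eq, diag_comp, Finset.sum_mul, map_sum, Finset.mul_sum]
  refine Finset.sum_congr rfl fun m _ => ?_
  rw [BB_apply, smul_mul_assoc, map_smul, smul_eq_mul]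
  have e1 : diag X (f0 n) x = (eps n * Complex.I ^ (-(n : ℤ))) •
      diag X (fun pq => Complex.I ^ (pq.1 + pq.2) * Complex.I ^ (pq.1 - pq.2)) x := by
    refine X.ind (P := fun x => diag X (f0 n) x = (eps n * Complex.I ^ (-(n : ℤ))) •
      diag X (fun pq => Complex.I ^ (pq.1 + pq.2) * Complex.I ^ (pq.1 - pq.2)) x) ?_ ?_ ?_ x
    · simp
    · intro x y hx hy
      rw [map_add, map_add, smul_add, hx, hy]
    · intro p q x hx
      rw [diag_of X _ hx, diag_of X _ hx, smul_smul]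
      congr 1
      unfold f0
      simp only
      rw [sub_eq_add_neg (p + q), zpow_add₀ Complex.I_ne_zero (p + q)]
      ring
  rw [e1, smul_mul_assoc, mul_smul_comm, map_smul, smul_eq_mul]
  have e2 : ((wgt m : ℚ) : ℂ) = 1 / (2 ^ m * (m.factorial : ℂ)) := by
    unfold wgt
    push_cast
    rfl
  rw [e2]
  ring

theorem pow_zero' (X : KRing n) {z : X.R} (hz : z ∈ X.H (1, 1)) {m : ℕ} (hm : n < m) :
    z ^ m = 0 := by
  have := X.pow_mem hz m
  rw [X.van_top (by omega), Submodule.mem_bot] at this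
  exact this

theorem mukai_even (X : KRing n) {x : X.R} (hx : x ∈ degC X (par n)) :
    eps n * Complex.I ^ (-(n : ℤ)) * X.mukai (WO X x) x =
      ∑ j ∈ Finset.range (n + 1), (wgt (2 * j) : ℂ) * BB X X.c (2 * j) (f0 n) x x := by
  rw [mukai_sum]
  have hodd : ∀ m : ℕ, Odd m → BB X X.c m (f0 n) x x = 0 := by
    intro m hm
    have h1 := F_symm X.c_mem m hx hx
    have h2 : (-1 : ℂ) ^ (m : ℤ) = -1 := by
      rw [zpow_natCast]
      exact hm.neg_one_pow
    rw [h2] at h1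
    have h3 : (2 : ℂ) * BB X X.c m (f0 n) x x = 0 := by linear_combination h1
    exact (mul_eq_zero.1 h3).resolve_left (by norm_num)
  have hbig : ∀ m : ℕ, n < m → BB X X.c m (f0 n) x x = 0 := by
    intro m hm
    rw [BB_apply, pow_zero' X X.c_mem hm, zero_mul, map_zero]
  have e1 : ∑ m ∈ Finset.range (n + 1), (wgt m : ℂ) * BB X X.c m (f0 n) x x =
      ∑ m ∈ Finset.range (2 * (n + 1)), (wgt m : ℂ) * BB X X.c m (f0 n) x x := by
    refine Finset.sum_subset (fun m hm => ?_) (fun m _ hm => ?_)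
    · rw [Finset.mem_range] at hm ⊢; omega
    · rw [Finset.mem_range] at hm
      rw [hbig m (by omega), mul_zero]
  rw [e1]
  have e2 : ∀ N : ℕ, ∑ m ∈ Finset.range (2 * N), (wgt m : ℂ) * BB X X.c m (f0 n) x x =
      ∑ j ∈ Finset.range N, (wgt (2 * j) : ℂ) * BB X X.c (2 * j) (f0 n) x x := by
    intro N
    induction N with
    | zero => simp
    | succ N ih =>
      rw [show 2 * (N + 1) = 2 * N + 1 + 1 by ring, Finset.sum_range_succ, Finset.sum_range_succ,
        ih, Finset.sum_range_succ, hodd (2 * N + 1) ⟨N, rfl⟩, mul_zero, add_zero]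
  exact e2 (n + 1)

variable (Z : RatCoh n)

/-- The rational first Chern class. -/
noncomputable def c₀ : Z.A := Z.chern.choose
theorem ι_c₀ : Z.ι (c₀ Z) = Z.X.c := Z.chern.choose_spec

/-- The value of a polynomial at the square of the Chern class. -/
noncomputable def ev (P : ℚ[X]) : Z.A := aeval (c₀ Z ^ 2) P

theorem ι_ev (P : ℚ[X]) : Z.ι (ev Z P) = P.sum fun j r => (r : ℂ) • Z.X.c ^ (2 * j) := by
  unfold ev
  rw [aeval_def, eval₂_eq_sum, Polynomial.sum_def, Polynomial.sum_def, map_sum]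
  refine Finset.sum_congr rfl fun j _ => ?_
  rw [← Algebra.smul_def, ι_smul, ← pow_mul, map_pow, ι_c₀]

theorem ev_ind {Q : Z.X.R → Prop} (h0 : Q 0) (hadd : ∀ x y, Q x → Q y → Q (x + y))
    (hh : ∀ (j : ℕ) (r : ℂ), Q (r • Z.X.c ^ (2 * j))) (P : ℚ[X]) : Q (Z.ι (ev Z P)) := by
  rw [ι_ev, Polynomial.sum_def]
  exact Finset.sum_induction _ Q hadd h0 fun j _ => hh j _

theorem c_central (X : KRing n) (m : ℕ) (x : X.R) : X.c ^ m * x = x * X.c ^ m := by
  induction m with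
  | zero => simp
  | succ m ih => rw [pow_succ, mul_assoc, X.central X.c_mem, ← mul_assoc, ih, mul_assoc]

theorem ev_central (P : ℚ[X]) (x : Z.X.R) : Z.ι (ev Z P) * x = x * Z.ι (ev Z P) := by
  refine ev_ind Z (Q := fun y => y * x = x * y) (by simp) ?_ ?_ P
  · intro y y' h h'
    rw [add_mul, mul_add, h, h']
  · intro j r
    rw [smul_mul_assoc, mul_smul_comm, c_central]

theorem ev_wt (P : ℚ[X]) (w : ℤ → ℂ) (x : Z.X.R) :
    wt Z.X w (Z.ι (ev Z P) * x) = Z.ι (ev Z P) * wt Z.X w x := by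
  refine ev_ind Z (Q := fun y => wt Z.X w (y * x) = y * wt Z.X w x) (by simp) ?_ ?_ P
  · intro y y' h h'
    rw [add_mul, add_mul, map_add, h, h']
  · intro j r
    rw [smul_mul_assoc, smul_mul_assoc, map_smul, wt_mul Z.X w Z.X.c_mem]

theorem ev_f0 (P : ℚ[X]) (x : Z.X.R) :
    diag Z.X (f0 n) (Z.ι (ev Z P) * x) = Z.ι (ev Z P) * diag Z.X (f0 n) x := by
  refine ev_ind Z (Q := fun y => diag Z.X (f0 n) (y * x) = y * diag Z.X (f0 n) x) (by simp) ?_ ?_ P
  · intro y y' h h'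
    rw [add_mul, add_mul, map_add, h, h']
  · intro j r
    rw [smul_mul_assoc, smul_mul_assoc, map_smul, diag_mul Z.X _ Z.X.c_mem]
    congr 3
    have e : (fun pq : ℤ × ℤ => f0 n (pq.1 + ((2 * j : ℕ) : ℤ), pq.2 + ((2 * j : ℕ) : ℤ))) =
        f0 n := by
      funext pq
      rw [f0_eq, show pq = (pq.1, pq.2) from rfl, f0_eq]
      congr 1
      have e1 : (2 * (pq.1 + ((2 * j : ℕ) : ℤ)) - n : ℤ) = (2 * pq.1 - n) + 2 * (2 * j) := by
        push_cast; ring
      rw [e1, zpow_add₀ Complex.I_ne_zero, I_zpow_two, Even.neg_one_zpow (even_two_mul _), mul_one]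
    rw [e]

theorem ev_par (P : ℚ[X]) {x : Z.X.R} (hx : x ∈ degC Z.X (par n)) :
    Z.ι (ev Z P) * x ∈ degC Z.X (par n) := by
  refine ev_ind Z (Q := fun y => y * x ∈ degC Z.X (par n)) ?_ ?_ ?_ P
  · rw [zero_mul]; exact Submodule.zero_mem _
  · intro y y' h h'
    rw [add_mul]
    exact Submodule.add_mem _ h h'
  · intro j r
    rw [smul_mul_assoc]
    refine Submodule.smul_mem _ _ ?_
    have key : degC Z.X (par n) ≤ Submodule.comap (LinearMap.mulLeft ℂ (Z.X.c ^ (2 * j)))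
        (degC Z.X (par n)) := by
      refine iSup_le ?_
      rintro ⟨⟨p, q⟩, hpq⟩ y hy
      refine mem_degC (p := p + (2 * j : ℕ)) (q := q + (2 * j : ℕ)) ?_
        (Z.X.pow_mul_mem Z.X.c_mem _ hy)
      obtain ⟨r, hr⟩ := hpq
      refine ⟨r + 2 * j, ?_⟩
      push_cast
      omega
    exact key hx

/-- The series `cosh (c₁ / 2)` in `c₁ ^ 2`. -/
noncomputable def coshP (n : ℕ) : ℚ[X] := ∑ j ∈ Finset.range (n + 1), C (wgt (2 * j)) * X ^ j

theorem coshP_zero : (coshP n).coeff 0 = 1 := by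
  unfold coshP
  rw [finsetSum_coeff, Finset.sum_eq_single 0]
  · simp [wgt]
  · intro j _ hj
    rw [coeff_C_mul, coeff_X_pow, if_neg (Ne.symm hj), mul_zero]
  · intro h
    exact absurd (Finset.mem_range.2 (by omega)) h

/-- The square root of `cosh (c₁ / 2)`. -/
noncomputable def gP (n : ℕ) : ℚ[X] := (exists_sqrt (coshP n) coshP_zero n).choose

theorem gP_zero : (gP n).coeff 0 = 1 := (exists_sqrt (coshP n) coshP_zero n).choose_spec.choose_spec.1

theorem c0_pow {m : ℕ} (hm : n < m) : c₀ Z ^ m = 0 := by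
  apply ι_inj Z
  rw [map_pow, ι_c₀, pow_zero' Z.X Z.X.c_mem hm, map_zero]

theorem gP_sq : ev Z (gP n) ^ 2 = ev Z (coshP n) := by
  obtain ⟨Q, -, h⟩ := (exists_sqrt (coshP n) coshP_zero n).choose_spec
  unfold ev
  rw [← map_pow, show gP n ^ 2 = _ from h, map_add, map_mul, map_pow, aeval_X, ← pow_mul,
    c0_pow Z (m := 2 * (n + 1)) (by omega), zero_mul, add_zero]

/-- The quadratic function given by the Mukai pairing. -/
noncomputable def hm (X : KRing n) (x : X.R) : ℝ :=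
  (eps n * Complex.I ^ (-(n : ℤ)) * X.mukai (WO X x) x).re

/-- The symmetric form. -/
noncomputable def B0 (X : KRing n) (x y : X.R) : ℝ := (X.tr (diag X (f0 n) x * y)).re

theorem hm_eq {x : Z.X.R} (hx : x ∈ degC Z.X (par n)) :
    hm Z.X x = B0 Z.X (Z.ι (ev Z (gP n)) * x) (Z.ι (ev Z (gP n)) * x) := by
  unfold hm B0
  rw [mukai_even Z.X hx]
  congr 1
  rw [ev_f0]
  have e1 : Z.ι (ev Z (gP n)) * diag Z.X (f0 n) x * (Z.ι (ev Z (gP n)) * x) =
      Z.ι (ev Z (coshP n)) * (diag Z.X (f0 n) x * x) := by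
    rw [← gP_sq, map_pow, pow_two]
    have := ev_central Z (gP n) (diag Z.X (f0 n) x)
    rw [mul_assoc, ← mul_assoc (diag Z.X (f0 n) x), ← this]
    simp only [mul_assoc]
  rw [e1]
  have e2 : Z.ι (ev Z (coshP n)) =
      ∑ j ∈ Finset.range (n + 1), (wgt (2 * j) : ℂ) • Z.X.c ^ (2 * j) := by
    unfold ev coshP
    rw [map_sum, map_sum]
    refine Finset.sum_congr rfl fun j _ => ?_
    rw [map_mul, aeval_C, ← Algebra.smul_def, ι_smul, map_pow, aeval_X, ← pow_mul, map_pow, ι_c₀]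
  rw [e2, Finset.sum_mul, map_sum]
  refine Finset.sum_congr rfl fun j _ => ?_
  rw [smul_mul_assoc, map_smul, smul_eq_mul, BB_apply]

/-- Multiplication by the square root of `cosh (c₁ / 2)`. -/
noncomputable def gm : Z.A →ₗ[FA] Z.A :=
  lift (LinearMap.mulLeft ℚ (ev Z (gP n))) (comm_E (LinearMap.mulLeft ℂ (Z.ι (ev Z (gP n)))) _
    (fun a => by simp [map_mul]) (fun w x => (ev_wt Z (gP n) w x).symm))

theorem ι_gm (a : Z.A) : Z.ι (gm Z a) = Z.ι (ev Z (gP n)) * Z.ι a := by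
  change Z.ι (ev Z (gP n) * a) = _
  rw [map_mul]

theorem gm_bij : Function.Bijective (gm Z) := by
  have hunit : IsUnit (ev Z (gP n)) := by
    obtain ⟨R, hR⟩ : X ∣ gP n - 1 := by
      rw [X_dvd_iff, coeff_sub, gP_zero, coeff_one_zero, sub_self]
    have h1 : ev Z (gP n) = 1 + c₀ Z ^ 2 * ev Z R := by
      have : gP n = 1 + X * R := by rw [← hR]; ring
      unfold ev
      conv_lhs => rw [this]
      rw [map_add, map_one, map_mul, aeval_X]
    rw [h1]
    apply IsNilpotent.isUnit_one_add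
    refine ⟨n + 1, ?_⟩
    have hcomm : Commute (c₀ Z ^ 2) (ev Z R) := by
      apply ι_inj Z
      rw [map_mul, map_mul, ev_central]
    rw [hcomm.mul_pow, ← pow_mul, c0_pow Z (by omega), zero_mul]
  obtain ⟨u, hu⟩ := hunit
  constructor
  · intro a b hab
    have h1 : (u : Z.A) * a = u * b := by rw [hu]; exact hab
    exact (Units.mul_right_inj u).1 h1
  · intro b
    refine ⟨(↑(u⁻¹) : Z.A) * b, ?_⟩
    change ev Z (gP n) * ((↑(u⁻¹) : Z.A) * b) = b
    rw [← hu, ← mul_assoc, Units.mul_inv, one_mul]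

end Pool.Agent.Q94.QH
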